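import Pool.Agent.U856.EH.M11
import Pool.Agent.TH823.Fam.Fam2

set_option autoImplicit false

/-! Families indexed by an initial segment of the positive integers. -/

namespace Pool.Agent.U856.EH
open Finset
open Pool.Agent.TH212.EH (En)

/-- the additive energy of order `p` of `s 1, ..., s x` -/
def energy (p x : ℕ) (s : ℕ → ℤ) : ℕ :=
  (((Fintype.piFinset fun _ : Fin p => Icc 1 x) ×ˢ (Fintype.piFinset fun _ : Fin p => Icc 1 x)).filter
    (fun q => ∑ i, s (q.1 i) = ∑ i, s (q.2 i))).card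

/-- the indices `1, ..., x` -/
abbrev Ix (x : ℕ) : Type := {m : ℕ // m ∈ Finset.Icc 1 x}

noncomputable instance instIx (x : ℕ) : Fintype (Ix x) := (inferInstance : Fintype {m : ℕ // m ∈ Finset.Icc 1 x})

lemma En_le (p x : ℕ) (s : ℕ → ℤ) : En p (fun i : Ix x => s i.1) ≤ energy p x s := by
  classical
  unfold En energy
  rw [Nat.card_eq_fintype_card, Fintype.card_subtype]
  apply card_le_card_of_injOn (fun q => ((fun j => (q.1 j).1), (fun j => (q.2 j).1)))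
  · intro q hq
    rw [mem_coe, mem_filter] at hq
    rw [mem_coe, mem_filter, mem_product, Fintype.mem_piFinset, Fintype.mem_piFinset]
    exact ⟨⟨fun j => (q.1 j).2, fun j => (q.2 j).2⟩, hq.2⟩
  · intro q _ q' _ h
    simp only [Prod.mk.injEq] at h
    apply Prod.ext
    · funext j
      exact Subtype.ext (congrFun h.1 j)
    · funext j
      exact Subtype.ext (congrFun h.2 j)

lemma card_sub (x : ℕ) : Fintype.card (Ix x) = x := by
  rw [Fintype.card_coe, Nat.card_Icc, Nat.add_sub_cancel]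

lemma filter_sub (x : ℕ) (P : ℕ → Prop) [DecidablePred P] [DecidablePred fun i : Ix x => P i.1] : ((Icc 1 x).filter P).card = (univ.filter (fun i : Ix x => P i.1)).card := by
  rw [card_filter, card_filter]
  rw [← Finset.sum_coe_sort (Icc 1 x) (fun m => if P m then 1 else 0)]
  apply sum_congr rfl
  intro i _
  by_cases h : P i.1
  · rw [if_pos h, if_pos h]
  · rw [if_neg h, if_neg h]

open Classical in
/-- few exceptions in a family of nearly minimal additive energy -/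
theorem few_fam (D : ℕ → ℕ → ℤ → ℝ) (hD : AllD D) (p B C T U W : ℕ) : ∃ K N0 : ℕ, ∀ N : ℕ, N0 ≤ N → ∀ (x : ℕ) (s : ℕ → ℤ),
    (∀ m ∈ Icc 1 x, |s m| ≤ B * N) → (energy p x s : ℝ) * N ≤ Real.log N ^ C * (x : ℝ) ^ (2 * p) →
    ∀ H : Finset ℤ, (H.card : ℝ) ≤ Real.log N ^ W → (∀ τ ∈ H, |τ| ≤ B * N) →
    ∀ n : ℕ, (n : ℝ) ≤ Real.log N ^ T → ∀ (lam : Fin n → ℕ → ℝ) (y : Fin n → ℕ → ℕ) (h : Fin n → ℕ → ℤ),
    (∀ l q, |lam l q| ≤ Real.log N ^ T * (q.divisors.card : ℝ) ^ T) → (∀ l q, y l q ≤ B * N) →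
    (∀ l q, h l q ∈ H) →
    (((Icc 1 x).filter (fun m => ¬ ∀ l, ∀ Q : ℕ, (Q : ℝ) ≤ level K N → ∀ z : ℕ, z ≤ B * N →
      |wt D (lam l) (fun q => min z (y l q)) (h l) Q (s m)| ≤ (N : ℝ) / Real.log N ^ U)).card : ℝ) ≤ x / Real.log N ^ U := by
  obtain ⟨K, N0, h0⟩ := few D hD p B C T U W
  refine ⟨K, N0, fun N hN x s hs hE H hH1 hH2 n hn lam y h hlam hy hh => ?_⟩
  have h1 := h0 N hN (Ix x) (fun i => s i.1) (fun i => hs i.1 i.2) (by
    rw [card_sub]
    refine le_trans ?_ hE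
    apply mul_le_mul_of_nonneg_right _ (Nat.cast_nonneg _)
    exact_mod_cast En_le p x s) H hH1 hH2 n hn lam y h hlam hy hh
  rw [card_sub] at h1
  refine le_trans (le_of_eq ?_) h1
  congr 1
  exact filter_sub x _

open Classical in
/-- the dual form -/
theorem dual_fam (D : ℕ → ℕ → ℤ → ℝ) (hD : AllD D) (p B C T U W : ℕ) : ∃ K N0 : ℕ, ∀ N : ℕ, N0 ≤ N → ∀ (x : ℕ) (s : ℕ → ℤ),
    (∀ m ∈ Icc 1 x, |s m| ≤ B * N) → (energy p x s : ℝ) * N ≤ Real.log N ^ C * (x : ℝ) ^ (2 * p) →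
    ∀ H : Finset ℤ, (H.card : ℝ) ≤ Real.log N ^ W → (∀ τ ∈ H, |τ| ≤ B * N) →
    ∀ c : ℕ → ℝ, (∀ m, |c m| ≤ Real.log N ^ T) → ∀ Q : ℕ, (Q : ℝ) ≤ level K N → ∀ y : ℕ → ℕ, (∀ q, y q ≤ B * N) →
    ∀ h : ℕ → ℤ, (∀ q, h q ∈ H) →
    ∑ q ∈ Icc 1 Q, (q.divisors.card : ℝ) ^ T * |∑ m ∈ (Icc 1 x).filter (fun m : ℕ => Int.gcd (s m + h q) q = 1),
      c m * D (y q) q (s m + h q)| ≤ N * x / Real.log N ^ U := by
  obtain ⟨K, N0, h0⟩ := dual D hD p B C T U W
  refine ⟨K, N0, fun N hN x s hs hE H hH1 hH2 c hc Q hQ y hy h hh => ?_⟩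
  have h1 := h0 N hN (Ix x) (fun i => s i.1) (fun i => hs i.1 i.2) (by
    rw [card_sub]
    refine le_trans ?_ hE
    apply mul_le_mul_of_nonneg_right _ (Nat.cast_nonneg _)
    exact_mod_cast En_le p x s) H hH1 hH2 (fun i => c i.1) (fun i => hc _) Q hQ y hy h hh
  rw [card_sub] at h1
  refine le_trans (le_of_eq ?_) h1
  apply sum_congr rfl
  intro q _
  congr 2
  rw [sum_filter, sum_filter]
  exact (Finset.sum_coe_sort (Icc 1 x) (fun m => if Int.gcd (s m + h q) q = 1 then c m * D (y q) q (s m + h q) else 0)).symm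

end Pool.Agent.U856.EH
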