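import Pool.Agent.U856.EH.M12

set_option autoImplicit false

/-! A lower bound for the weighted sums of the discrepancies. -/

namespace Pool.Agent.U856.EH
open Finset
open Pool.Agent.H373R2.T7 (ev_log')

/-- the lengths whose residue modulo `q` is between `q / 4` and `q / 2` -/
def mid (y q : ℕ) : Prop := q ≤ 4 * (y % q) ∧ 2 * (y % q) ≤ q

instance (y q : ℕ) : Decidable (mid y q) := by unfold mid; infer_instance

lemma mid_count (N q : ℕ) (hq : 2 ≤ q) (hqN : q ≤ N) : N ≤ 8 * ((range (2 * N)).filter (fun y => mid y q)).card := by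
  obtain ⟨S, hS⟩ : ∃ S, S = Icc ((q + 3) / 4) (q / 2) := ⟨_, rfl⟩
  have hSc : q ≤ 8 * S.card := by
    rw [hS, Nat.card_Icc]
    omega
  have h1 : (range (2 * N / q) ×ˢ S).card ≤ ((range (2 * N)).filter (fun y => mid y q)).card := by
    apply card_le_card_of_injOn (fun t => q * t.1 + t.2)
    · intro t ht
      rw [mem_coe, mem_product, mem_range, hS, mem_Icc] at ht
      obtain ⟨h2, h3, h4⟩ := ht
      have h5 : t.2 < q := by omega
      rw [mem_coe, mem_filter, mem_range]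
      refine ⟨?_, ?_⟩
      · have h6 : q * (t.1 + 1) ≤ q * (2 * N / q) := Nat.mul_le_mul_left _ h2
        have h7 : q * (2 * N / q) ≤ 2 * N := Nat.mul_div_le _ _
        have h8 : q * (t.1 + 1) = q * t.1 + q := by ring
        show q * t.1 + t.2 < 2 * N
        omega
      · unfold mid
        simp only
        rw [Nat.mul_add_mod, Nat.mod_eq_of_lt h5]
        omega
    · intro t ht t' ht' h
      rw [mem_coe, mem_product, mem_range, hS, mem_Icc] at ht ht'
      simp only at h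
      have h5 : t.2 < q := by omega
      have h5' : t'.2 < q := by omega
      have h6 : t.2 = t'.2 := by
        have := congrArg (· % q) h
        simp only [Nat.mul_add_mod, Nat.mod_eq_of_lt h5, Nat.mod_eq_of_lt h5'] at this
        exact this
      have h7 : q * t.1 = q * t'.1 := by omega
      have h8 : t.1 = t'.1 := Nat.eq_of_mul_eq_mul_left (by omega) h7
      exact Prod.ext h8 h6
  rw [card_product, card_range] at h1
  have h2 : q * (2 * N / q) + 2 * N % q = 2 * N := Nat.div_add_mod _ _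
  have h3 : 2 * N % q < q := Nat.mod_lt _ (by omega)
  calc N ≤ q * (2 * N / q) := by omega
    _ = (2 * N / q) * q := by ring
    _ ≤ (2 * N / q) * (8 * S.card) := Nat.mul_le_mul_left _ hSc
    _ = 8 * (2 * N / q * S.card) := by ring
    _ ≤ _ := Nat.mul_le_mul_left _ h1

/-- the primes of the upper part -/
def PQ (Q : ℕ) : Finset ℕ := (Ioc (Q / 4) Q).filter Nat.Prime

lemma PQ_sum : ∃ Q0 : ℕ, ∀ Q : ℕ, Q0 ≤ Q → 3 / 10 * (Q : ℝ) ≤ ∑ p ∈ PQ Q, Real.log p := by
  obtain ⟨n1, h1⟩ := ev_log' 1 100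
  refine ⟨n1 + 3, fun Q hQ => ?_⟩
  have c1 := h1 Q (by omega)
  rw [pow_one] at c1
  have hQ0 : (0 : ℝ) < Q := by exact_mod_cast (by omega : 0 < Q)
  have hQ1 : (1 : ℝ) ≤ Q := by exact_mod_cast (by omega : 1 ≤ Q)
  have e1 := Chebyshev.theta_ge Q
  have e2 := Chebyshev.theta_le_log4_mul_x (x := ((Q / 4 : ℕ) : ℝ)) (Nat.cast_nonneg _)
  have e3 : Chebyshev.theta (Q : ℝ) - Chebyshev.theta ((Q / 4 : ℕ) : ℝ) = ∑ p ∈ PQ Q, Real.log p := by
    unfold Chebyshev.theta PQ
    rw [Nat.floor_natCast, Nat.floor_natCast]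
    have f1 : (Ioc 0 Q).filter Nat.Prime = (Ioc 0 (Q / 4)).filter Nat.Prime ∪ (Ioc (Q / 4) Q).filter Nat.Prime := by
      rw [← filter_union, Ioc_union_Ioc_eq_Ioc (Nat.zero_le _) (Nat.div_le_self _ _)]
    have f2 : Disjoint ((Ioc 0 (Q / 4)).filter Nat.Prime) ((Ioc (Q / 4) Q).filter Nat.Prime) := by
      rw [disjoint_left]
      intro n h3 h4
      rw [mem_filter, mem_Ioc] at h3 h4
      omega
    rw [f1, sum_union f2, add_sub_cancel_left]
  rw [← e3]
  have e4 : ((Q / 4 : ℕ) : ℝ) ≤ Q / 4 := Nat.cast_div_le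
  have e5 : Real.log 4 = 2 * Real.log 2 := by
    rw [show (4 : ℝ) = 2 ^ 2 by norm_num, Real.log_pow]
    norm_num
  have e6 : Real.log 4 * ((Q / 4 : ℕ) : ℝ) ≤ Real.log 2 * Q / 2 := by
    rw [e5]
    have := log2_pos
    calc 2 * Real.log 2 * ((Q / 4 : ℕ) : ℝ) ≤ 2 * Real.log 2 * (Q / 4) := mul_le_mul_of_nonneg_left e4 (by positivity)
      _ = _ := by ring
  have e7 : √(Q : ℝ) * √(Q : ℝ) = Q := Real.mul_self_sqrt hQ0.le
  have e8 : 1 ≤ √(Q : ℝ) := by rw [Real.one_le_sqrt]; exact hQ1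
  have e9 : √(Q : ℝ) * Real.log Q ≤ Q / 100 := by
    have : √(Q : ℝ) * (100 * Real.log Q) ≤ √(Q : ℝ) * √(Q : ℝ) := mul_le_mul_of_nonneg_left c1 (by positivity)
    rw [e7] at this
    linarith
  have e10 : Real.log ((Q : ℝ) + 1) ≤ 2 * Real.log Q := by
    have f1 : Real.log ((Q : ℝ) + 1) ≤ Real.log ((Q : ℝ) ^ 2) := by
      apply Real.log_le_log (by positivity)
      have : (2 : ℝ) ≤ Q := by exact_mod_cast (by omega : 2 ≤ Q)
      nlinarith
    rw [Real.log_pow] at f1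
    exact_mod_cast f1
  have e11 : Real.log Q ≤ Q / 100 := by
    have : √(Q : ℝ) ≤ Q := by nlinarith
    linarith
  have e12 := Real.log_two_gt_d9
  nlinarith

lemma DS_step (y q d m : ℕ) (hq : q.Prime) (hm : 4 * m ≤ q) (hd : 4 * d < q) (hy : mid y q) :
    DS y q (m : ℤ) - DS (y + d) q (m : ℤ) = d / Nat.totient q := by
  have h1 : FZ (fun n => ArithmeticFunction.vonMangoldt n) (y + d) q (m : ℤ) = FZ (fun n => ArithmeticFunction.vonMangoldt n) y q (m : ℤ) := by
    unfold FZ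
    apply sum_congr _ (fun _ _ => rfl)
    ext n
    rw [mem_filter, mem_filter, mem_Icc, mem_Icc]
    constructor
    · rintro ⟨⟨h2, h3⟩, h4⟩
      refine ⟨⟨h2, ?_⟩, h4⟩
      by_contra h5
      obtain ⟨e, rfl⟩ : ∃ e, n = y + e := ⟨n - y, by omega⟩
      unfold mid at hy
      have h6 : ((y + e : ℕ) : ℤ) ≡ (m : ℤ) [ZMOD q] := h4
      rw [Int.natCast_modEq_iff] at h6
      unfold Nat.ModEq at h6
      have h7 : y + e = q * (y / q) + (y % q + e) := by
        have := Nat.div_add_mod y q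
        omega
      have h9 := hq.two_le
      have h8 : y % q + e < q := by omega
      have h10 : (y + e) % q = y % q + e := by
        rw [h7, Nat.mul_add_mod, Nat.mod_eq_of_lt h8]
      have h11 : m % q = m := Nat.mod_eq_of_lt (by omega)
      rw [h10, h11] at h6
      omega
    · rintro ⟨⟨h2, h3⟩, h4⟩
      exact ⟨⟨h2, by omega⟩, h4⟩
  unfold DS
  rw [h1]
  push_cast
  ring

/-- the lower bound -/
theorem lower : ∃ Q0 : ℕ, ∀ Q : ℕ, Q0 ≤ Q → ∀ N : ℕ, Q ≤ N → ∃ lam : ℕ → ℝ, (∀ q, 0 ≤ lam q ∧ lam q ≤ Real.log q) ∧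
    ∀ m : ℕ, 1 ≤ m → 16 * m ≤ Q → ∃ z : ℕ, z ≤ 3 * N ∧ (Q : ℝ) / 2100 ≤ |wt DS lam (fun _ => z) (fun _ => 0) Q (m : ℤ)| := by
  obtain ⟨n1, h1⟩ := PQ_sum
  refine ⟨n1 + 1000, fun Q hQ N hN => ?_⟩
  have c1 := h1 Q (by omega)
  have hQ0 : (0 : ℝ) < Q := by exact_mod_cast (by omega : 0 < Q)
  have hN0 : (0 : ℝ) < N := by exact_mod_cast (by omega : 0 < N)
  have hPQ : ∀ p ∈ PQ Q, p.Prime ∧ Q / 4 < p ∧ p ≤ Q := by
    intro p hp
    unfold PQ at hp
    rw [mem_filter, mem_Ioc] at hp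
    exact ⟨hp.2, hp.1.1, hp.1.2⟩
  -- the choice of the length
  have h2 : ∃ y ∈ range (2 * N), 3 / 160 * (Q : ℝ) ≤ ∑ p ∈ (PQ Q).filter (fun p => mid y p), Real.log p := by
    by_contra hcon
    push Not at hcon
    have e1 : ∑ y ∈ range (2 * N), ∑ p ∈ (PQ Q).filter (fun p => mid y p), Real.log p < ∑ y ∈ range (2 * N), 3 / 160 * (Q : ℝ) := by
      apply sum_lt_sum_of_nonempty _ hcon
      rw [nonempty_range_iff]
      omega
    have e2 : ∑ y ∈ range (2 * N), ∑ p ∈ (PQ Q).filter (fun p => mid y p), Real.log p =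
        ∑ p ∈ PQ Q, (((range (2 * N)).filter (fun y => mid y p)).card : ℝ) * Real.log p := by
      simp only [sum_filter]
      rw [sum_comm]
      apply sum_congr rfl
      intro p _
      rw [← sum_filter, sum_const, nsmul_eq_mul]
    have e3 : ∑ p ∈ PQ Q, ((N : ℝ) / 8) * Real.log p ≤ ∑ p ∈ PQ Q, (((range (2 * N)).filter (fun y => mid y p)).card : ℝ) * Real.log p := by
      apply sum_le_sum
      intro p hp
      obtain ⟨f1, f2, f3⟩ := hPQ p hp
      apply mul_le_mul_of_nonneg_right _ (Real.log_natCast_nonneg p)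
      have f4 := mid_count N p f1.two_le (f3.trans hN)
      have f5 : (N : ℝ) ≤ 8 * (((range (2 * N)).filter (fun y => mid y p)).card : ℝ) := by exact_mod_cast f4
      linarith
    rw [← mul_sum] at e3
    rw [e2, sum_const, card_range, nsmul_eq_mul] at e1
    push_cast at e1
    have e4 : (N : ℝ) / 8 * (3 / 10 * Q) ≤ N / 8 * ∑ p ∈ PQ Q, Real.log p := mul_le_mul_of_nonneg_left c1 (by positivity)
    linarith
  obtain ⟨y, hy, hy2⟩ := h2
  rw [mem_range] at hy
  refine ⟨fun q => if q ∈ PQ Q ∧ mid y q then Real.log q else 0, ?_, fun m hm1 hm2 => ?_⟩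
  · intro q
    have := Real.log_natCast_nonneg q
    simp only
    split_ifs
    · exact ⟨this, le_rfl⟩
    · exact ⟨le_rfl, this⟩
  have hwt : ∀ z, wt DS (fun q => if q ∈ PQ Q ∧ mid y q then Real.log q else 0) (fun _ => z) (fun _ => 0) Q (m : ℤ) =
      ∑ q ∈ (PQ Q).filter (fun p => mid y p), Real.log q * DS z q (m : ℤ) := by
    intro z
    unfold wt
    have e1 : (PQ Q).filter (fun p => mid y p) = ((Icc 1 Q).filter (fun q : ℕ => Int.gcd ((m : ℤ) + 0) q = 1)).filter (fun q => q ∈ PQ Q ∧ mid y q) := by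
      ext q
      rw [mem_filter, mem_filter, mem_filter, mem_Icc]
      constructor
      · rintro ⟨f1, f2⟩
        obtain ⟨g1, g2, g3⟩ := hPQ q f1
        refine ⟨⟨⟨g1.one_lt.le, g3⟩, ?_⟩, f1, f2⟩
        rw [add_zero, Int.gcd_natCast_natCast]
        apply Nat.Coprime.symm
        rw [Nat.Prime.coprime_iff_not_dvd g1]
        intro h
        have := Nat.le_of_dvd (by omega) h
        omega
      · rintro ⟨_, f1, f2⟩
        exact ⟨f1, f2⟩
    rw [e1]
    symm
    rw [sum_filter]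
    apply sum_congr rfl
    intro q _
    by_cases h : q ∈ PQ Q ∧ mid y q
    · simp only [if_pos h, add_zero]
    · simp only [if_neg h, zero_mul]
  obtain ⟨d, hd⟩ : ∃ d, d = Q / 16 := ⟨_, rfl⟩
  have hd1 : (Q : ℝ) / 17 ≤ d := by
    have f1 : Q ≤ 17 * d := by omega
    have f2 : (Q : ℝ) ≤ 17 * d := by exact_mod_cast f1
    linarith
  have hdiff : (Q : ℝ) / 1050 ≤ wt DS (fun q => if q ∈ PQ Q ∧ mid y q then Real.log q else 0) (fun _ => y) (fun _ => 0) Q (m : ℤ) -
      wt DS (fun q => if q ∈ PQ Q ∧ mid y q then Real.log q else 0) (fun _ => y + d) (fun _ => 0) Q (m : ℤ) := by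
    rw [hwt, hwt, ← sum_sub_distrib]
    have e1 : ∀ q ∈ (PQ Q).filter (fun p => mid y p), Real.log q * (d / Q) ≤ Real.log q * DS y q (m : ℤ) - Real.log q * DS (y + d) q (m : ℤ) := by
      intro q hq
      rw [mem_filter] at hq
      obtain ⟨g1, g2, g3⟩ := hPQ q hq.1
      rw [← mul_sub, DS_step y q d m g1 (by omega) (by omega) hq.2]
      apply mul_le_mul_of_nonneg_left _ (Real.log_natCast_nonneg q)
      apply div_le_div_of_nonneg_left (Nat.cast_nonneg _) (by exact_mod_cast Nat.totient_pos.2 g1.pos)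
      exact_mod_cast (Nat.totient_le q).trans g3
    refine le_trans ?_ (sum_le_sum e1)
    rw [← sum_mul]
    have e2 : (Q : ℝ) / 1050 ≤ 3 / 160 * (Q : ℝ) * (d / Q) := by
      have : 3 / 160 * (Q : ℝ) * (d / Q) = 3 / 160 * d := by field_simp
      rw [this]
      linarith
    exact e2.trans (mul_le_mul_of_nonneg_right hy2 (by positivity))
  obtain ⟨w1, hw1⟩ : ∃ w, w = wt DS (fun q => if q ∈ PQ Q ∧ mid y q then Real.log q else 0) (fun _ => y) (fun _ => 0) Q (m : ℤ) := ⟨_, rfl⟩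
  obtain ⟨w2, hw2⟩ : ∃ w, w = wt DS (fun q => if q ∈ PQ Q ∧ mid y q then Real.log q else 0) (fun _ => y + d) (fun _ => 0) Q (m : ℤ) := ⟨_, rfl⟩
  rw [← hw1, ← hw2] at hdiff
  rcases le_or_gt ((Q : ℝ) / 2100) |w1| with h3 | h3
  · exact ⟨y, by omega, by rw [← hw1]; exact h3⟩
  · refine ⟨y + d, by omega, ?_⟩
    rw [← hw2]
    have f1 : w1 < Q / 2100 := (abs_lt.1 h3).2
    have f2 : (Q : ℝ) / 2100 ≤ -w2 := by linarith
    exact f2.trans (neg_le_abs w2)

end Pool.Agent.U856.EH
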