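import Pool.Agent.U856.EH.M15

set_option autoImplicit false

/-! Exceptional sets, the dual form, up to the original level. -/

namespace Pool.Agent.U856.EH
open Finset
open Pool.Agent.TH212.EH (En large markov)

open Classical in
/-- few exceptions, for one system of weights -/
theorem few_one (D : ℕ → ℕ → ℤ → ℝ) (hD : AllD D) (p B C T U U1 W : ℕ) : ∃ K N0 : ℕ, ∀ N : ℕ, N0 ≤ N → ∀ (ι : Type) [Fintype ι] (v : ι → ℤ),
    (∀ i, |v i| ≤ B * N) → (En p v : ℝ) * N ≤ Real.log N ^ C * (Fintype.card ι : ℝ) ^ (2 * p) →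
    ∀ H : Finset ℤ, (H.card : ℝ) ≤ Real.log N ^ W → (∀ τ ∈ H, |τ| ≤ B * N) →
    ∀ lam : ℕ → ℝ, (∀ q, |lam q| ≤ Real.log N ^ T * (q.divisors.card : ℝ) ^ T) → ∀ y : ℕ → ℕ, (∀ q, y q ≤ B * N) →
    ∀ h : ℕ → ℤ, (∀ q, h q ∈ H) →
    ((univ.filter (fun i : ι => ∃ Q : ℕ, (Q : ℝ) ≤ level K N ∧ ∃ z : ℕ, z ≤ B * N ∧
      (N : ℝ) / Real.log N ^ U < |wt D lam (fun q => min z (y q)) h Q (v i)|)).card : ℝ) ≤ Fintype.card ι / Real.log N ^ U1 := by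
  obtain ⟨K, n0, h0⟩ := hD p B C T (U1 + U) W
  obtain ⟨n1, h1⟩ := large 3 (n0 + 3)
  refine ⟨K, n1, fun N hN ι _ v hv hE H hHc hHB lam hlam y hy h hh => ?_⟩
  obtain ⟨hN1, hL3, hL1⟩ := h1 N hN
  have c0 := h0 N (by omega) ι v hv hE H hHc hHB lam hlam y hy h hh
  have hN0 : (0 : ℝ) < N := by exact_mod_cast (by omega : 0 < N)
  obtain ⟨L, hL⟩ : ∃ L, L = Real.log (N : ℝ) := ⟨_, rfl⟩
  rw [← hL] at hL3 hL1 c0 ⊢
  have hL0 : 0 < L := by linarith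
  have hlev : (0 : ℝ) ≤ level K N := level_nonneg _ _
  have e : (N : ℝ) * Fintype.card ι / L ^ (U1 + U) / (N / L ^ U) = Fintype.card ι / L ^ U1 := by
    rw [pow_add]
    field_simp
  have hch : ∀ i : ι, ∃ t : ℕ × ℕ, (t.1 : ℝ) ≤ level K N ∧ t.2 ≤ B * N ∧
      ((∃ Q : ℕ, (Q : ℝ) ≤ level K N ∧ ∃ z : ℕ, z ≤ B * N ∧ (N : ℝ) / L ^ U < |wt D lam (fun q => min z (y q)) h Q (v i)|) →
        (N : ℝ) / L ^ U < |wt D lam (fun q => min t.2 (y q)) h t.1 (v i)|) := by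
    intro i
    by_cases h : ∃ Q : ℕ, (Q : ℝ) ≤ level K N ∧ ∃ z : ℕ, z ≤ B * N ∧ (N : ℝ) / L ^ U < |wt D lam (fun q => min z (y q)) h Q (v i)|
    · obtain ⟨Q, h1, y, h2, h3⟩ := h
      exact ⟨(Q, y), h1, h2, fun _ => h3⟩
    · exact ⟨(0, 0), by simpa using hlev, Nat.zero_le _, fun h' => absurd h' h⟩
  choose t ht1 ht2 ht3 using hch
  have k1 := c0 (fun i => (t i).1) ht1 (fun i => (t i).2) ht2
  have := markov (fun i : ι => ∃ Q : ℕ, (Q : ℝ) ≤ level K N ∧ ∃ z : ℕ, z ≤ B * N ∧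
    (N : ℝ) / L ^ U < |wt D lam (fun q => min z (y q)) h Q (v i)|) _ (N / L ^ U) _ (by positivity) (by
      intro i hi2
      exact (ht3 i hi2).le) (by
      intro i
      exact abs_nonneg _) k1
  rw [e] at this
  exact this

open Classical in
/-- few exceptions, for several systems -/
theorem few (D : ℕ → ℕ → ℤ → ℝ) (hD : AllD D) (p B C T U W : ℕ) : ∃ K N0 : ℕ, ∀ N : ℕ, N0 ≤ N → ∀ (ι : Type) [Fintype ι] (v : ι → ℤ),
    (∀ i, |v i| ≤ B * N) → (En p v : ℝ) * N ≤ Real.log N ^ C * (Fintype.card ι : ℝ) ^ (2 * p) →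
    ∀ H : Finset ℤ, (H.card : ℝ) ≤ Real.log N ^ W → (∀ τ ∈ H, |τ| ≤ B * N) →
    ∀ n : ℕ, (n : ℝ) ≤ Real.log N ^ T → ∀ (lam : Fin n → ℕ → ℝ) (y : Fin n → ℕ → ℕ) (h : Fin n → ℕ → ℤ),
    (∀ l q, |lam l q| ≤ Real.log N ^ T * (q.divisors.card : ℝ) ^ T) → (∀ l q, y l q ≤ B * N) →
    (∀ l q, h l q ∈ H) →
    ((univ.filter (fun i : ι => ¬ ∀ l, ∀ Q : ℕ, (Q : ℝ) ≤ level K N → ∀ z : ℕ, z ≤ B * N →
      |wt D (lam l) (fun q => min z (y l q)) (h l) Q (v i)| ≤ (N : ℝ) / Real.log N ^ U)).card : ℝ) ≤ Fintype.card ι / Real.log N ^ U := by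
  obtain ⟨K, n0, h0⟩ := few_one D hD p B C T U (T + U) W
  obtain ⟨n1, h1⟩ := large 3 (n0 + 3)
  refine ⟨K, n1, fun N hN ι _ v hv hE H hHc hHB n hn lam y h hlam hy hh => ?_⟩
  obtain ⟨hN1, hL3, hL1⟩ := h1 N hN
  have c0 := fun l => h0 N (by omega) ι v hv hE H hHc hHB (lam l) (hlam l) (y l) (hy l) (h l) (hh l)
  have hN0 : (0 : ℝ) < N := by exact_mod_cast (by omega : 0 < N)
  obtain ⟨L, hL⟩ : ∃ L, L = Real.log (N : ℝ) := ⟨_, rfl⟩
  rw [← hL] at hL3 hL1 c0 hn ⊢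
  have hL0 : 0 < L := by linarith
  have hsub : univ.filter (fun i : ι => ¬ ∀ l, ∀ Q : ℕ, (Q : ℝ) ≤ level K N → ∀ z : ℕ, z ≤ B * N →
      |wt D (lam l) (fun q => min z (y l q)) (h l) Q (v i)| ≤ (N : ℝ) / L ^ U) ⊆
      (univ : Finset (Fin n)).biUnion (fun l => univ.filter (fun i : ι => ∃ Q : ℕ, (Q : ℝ) ≤ level K N ∧ ∃ z : ℕ, z ≤ B * N ∧
      (N : ℝ) / L ^ U < |wt D (lam l) (fun q => min z (y l q)) (h l) Q (v i)|)) := by
    intro i hi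
    rw [mem_filter] at hi
    obtain ⟨_, h2⟩ := hi
    push Not at h2
    obtain ⟨l, Q, hQ, z, hz, h3⟩ := h2
    rw [mem_biUnion]
    exact ⟨l, mem_univ _, mem_filter.2 ⟨mem_univ _, Q, hQ, z, hz, h3⟩⟩
  have h2 : ((univ.filter (fun i : ι => ¬ ∀ l, ∀ Q : ℕ, (Q : ℝ) ≤ level K N → ∀ z : ℕ, z ≤ B * N →
      |wt D (lam l) (fun q => min z (y l q)) (h l) Q (v i)| ≤ (N : ℝ) / L ^ U)).card : ℝ) ≤
      ∑ l : Fin n, ((univ.filter (fun i : ι => ∃ Q : ℕ, (Q : ℝ) ≤ level K N ∧ ∃ z : ℕ, z ≤ B * N ∧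
      (N : ℝ) / L ^ U < |wt D (lam l) (fun q => min z (y l q)) (h l) Q (v i)|)).card : ℝ) := by
    exact_mod_cast (card_le_card hsub).trans card_biUnion_le
  calc _ ≤ ∑ _l : Fin n, (Fintype.card ι : ℝ) / L ^ (T + U) := h2.trans (sum_le_sum fun l _ => c0 l)
    _ = n * (Fintype.card ι / L ^ (T + U)) := by
        rw [sum_const, card_univ, Fintype.card_fin, nsmul_eq_mul]
    _ ≤ L ^ T * (Fintype.card ι / L ^ (T + U)) := mul_le_mul_of_nonneg_right hn (by positivity)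
    _ = Fintype.card ι / L ^ U := by
        rw [pow_add]
        field_simp

open Classical in
/-- the dual form: absolute values over the moduli -/
theorem dual (D : ℕ → ℕ → ℤ → ℝ) (hD : AllD D) (p B C T U W : ℕ) : ∃ K N0 : ℕ, ∀ N : ℕ, N0 ≤ N → ∀ (ι : Type) [Fintype ι] (v : ι → ℤ),
    (∀ i, |v i| ≤ B * N) → (En p v : ℝ) * N ≤ Real.log N ^ C * (Fintype.card ι : ℝ) ^ (2 * p) →
    ∀ H : Finset ℤ, (H.card : ℝ) ≤ Real.log N ^ W → (∀ τ ∈ H, |τ| ≤ B * N) →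
    ∀ c : ι → ℝ, (∀ i, |c i| ≤ Real.log N ^ T) → ∀ Q : ℕ, (Q : ℝ) ≤ level K N → ∀ y : ℕ → ℕ, (∀ q, y q ≤ B * N) →
    ∀ h : ℕ → ℤ, (∀ q, h q ∈ H) →
    ∑ q ∈ Icc 1 Q, (q.divisors.card : ℝ) ^ T * |∑ i ∈ univ.filter (fun i => Int.gcd (v i + h q) q = 1),
      c i * D (y q) q (v i + h q)| ≤
      N * Fintype.card ι / Real.log N ^ U := by
  obtain ⟨K, n0, h0⟩ := hD p B C T (U + T) W
  obtain ⟨n1, h1⟩ := large 3 (n0 + 3)
  refine ⟨K, n1, fun N hN ι _ v hv hE H hHc hHB c hc Q hQ y hy h hh => ?_⟩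
  obtain ⟨hN1, hL3, hL1⟩ := h1 N hN
  have c0 := h0 N (by omega) ι v hv hE H hHc hHB
  have hN0 : (0 : ℝ) < N := by exact_mod_cast (by omega : 0 < N)
  obtain ⟨L, hL⟩ : ∃ L, L = Real.log (N : ℝ) := ⟨_, rfl⟩
  rw [← hL] at hL3 hL1 c0 hc ⊢
  have hL0 : 0 < L := by linarith
  obtain ⟨F, hF⟩ : ∃ F : ℕ → ι → ℝ, F = fun q i => D (y q) q (v i + h q) := ⟨_, rfl⟩
  obtain ⟨I, hI⟩ : ∃ I : ℕ → ℝ, I = fun q => ∑ i ∈ univ.filter (fun i => Int.gcd (v i + h q) q = 1), c i * F q i := ⟨_, rfl⟩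
  obtain ⟨s, hs⟩ : ∃ s : ℕ → ℝ, s = fun q => if 0 ≤ I q then (q.divisors.card : ℝ) ^ T else -(q.divisors.card : ℝ) ^ T := ⟨_, rfl⟩
  have hs1 : ∀ q, |s q| ≤ L ^ T * (q.divisors.card : ℝ) ^ T := by
    intro q
    have h0 : (0 : ℝ) ≤ (q.divisors.card : ℝ) ^ T := by positivity
    have h1 : |s q| = (q.divisors.card : ℝ) ^ T := by
      rw [hs]
      simp only
      split_ifs
      · exact abs_of_nonneg h0
      · rw [abs_neg, abs_of_nonneg h0]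
    rw [h1]
    exact le_mul_of_one_le_left h0 (one_le_pow₀ hL1)
  have hsI : ∀ q, s q * I q = (q.divisors.card : ℝ) ^ T * |I q| := by
    intro q
    rw [hs]
    simp only
    split_ifs with h
    · rw [abs_of_nonneg h]
    · rw [abs_of_neg (lt_of_not_ge h)]
      ring
  have k1 := c0 s hs1 y hy h hh (fun _ => Q) (fun _ => hQ) (fun _ => B * N) (fun _ => le_rfl)
  have hmin : (fun q => min (B * N) (y q)) = y := by
    funext q
    exact min_eq_right (hy q)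
  simp only [hmin] at k1
  have e1 : ∑ q ∈ Icc 1 Q, (q.divisors.card : ℝ) ^ T * |I q| = ∑ i, c i * wt D s y h Q (v i) := by
    simp only [← hsI]
    rw [hI]
    unfold wt
    simp only [mul_sum, sum_filter]
    rw [sum_comm]
    apply sum_congr rfl
    intro i _
    apply sum_congr rfl
    intro q _
    split_ifs
    · rw [hF]
      ring
    · ring
  have e2 : ∑ q ∈ Icc 1 Q, (q.divisors.card : ℝ) ^ T * |∑ i ∈ univ.filter (fun i => Int.gcd (v i + h q) q = 1),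
      c i * D (y q) q (v i + h q)| =
      ∑ q ∈ Icc 1 Q, (q.divisors.card : ℝ) ^ T * |I q| := by
    rw [hI, hF]
  rw [e2, e1]
  calc ∑ i, c i * wt D s y h Q (v i)
      ≤ ∑ i, L ^ T * |wt D s y h Q (v i)| := by
        apply sum_le_sum
        intro i _
        refine (le_abs_self _).trans ?_
        rw [abs_mul]
        exact mul_le_mul_of_nonneg_right (hc i) (abs_nonneg _)
    _ = L ^ T * ∑ i, |wt D s y h Q (v i)| := by rw [mul_sum]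
    _ ≤ L ^ T * (N * Fintype.card ι / L ^ (U + T)) := mul_le_mul_of_nonneg_left k1 (by positivity)
    _ = _ := by rw [pow_add]; field_simp

end Pool.Agent.U856.EH
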