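import Pool.Agent.U856.EH.M9
import Pool.Agent.TH212.EH.A6

set_option autoImplicit false

/-! Residues depending on the modulus, exceptional sets, the dual form, up to the original level. -/

namespace Pool.Agent.U856.EH
open Finset
open Pool.Agent.W93.LV
open Pool.Agent.H373R2.T7 (ev_log')
open Pool.Agent.TH212.EH (En large W WW markov E_le sum_filter_le tau_pow_div)

/-- the weighted discrepancy: the residues `b + h q` and the lengths `y q` depend on the modulus -/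
noncomputable def WH (lam : ℕ → ℝ) (y : ℕ → ℕ) (h : ℕ → ℤ) (Q : ℕ) (b : ℤ) : ℝ :=
  ∑ q ∈ (Icc 1 Q).filter (fun q : ℕ => Int.gcd (b + h q) q = 1),
    lam q * (FZ (fun n => ArithmeticFunction.vonMangoldt n) (y q) q (b + h q) - (y q : ℝ) / Nat.totient q)

lemma WH_split (lam : ℕ → ℝ) (y : ℕ → ℕ) (h : ℕ → ℤ) (Q : ℕ) (b : ℤ) (H : Finset ℤ) (hh : ∀ q, h q ∈ H) :
    WH lam y h Q b = ∑ τ ∈ H, WZ (fun q => if h q = τ then lam q else 0) y Q (b + τ) := by
  unfold WH WZ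
  simp only [sum_filter]
  rw [sum_comm]
  apply sum_congr rfl
  intro q _
  rw [sum_eq_single (h q)]
  · simp
  · intro τ _ hτ
    have h1 : ¬ h q = τ := fun h' => hτ h'.symm
    simp [h1]
  · intro h'
    exact absurd (hh q) h'

lemma En_shift (p : ℕ) {ι : Type} [Fintype ι] (v : ι → ℤ) (τ : ℤ) : En p (fun i => v i + τ) = En p v := by
  unfold En
  congr 2
  funext q
  simp only [sum_add_distrib, add_left_inj]

/-- the order of the energy is positive -/
lemma order_pos (p C : ℕ) : ∃ N0 : ℕ, ∀ N : ℕ, N0 ≤ N → ∀ (ι : Type) [Fintype ι] (v : ι → ℤ),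
    (En p v : ℝ) * N ≤ Real.log N ^ C * (Fintype.card ι : ℝ) ^ (2 * p) → 1 ≤ p := by
  classical
  obtain ⟨n3, h3⟩ := ev_log' C 1
  refine ⟨n3 + 3, fun N hN ι _ v hE => ?_⟩
  by_contra hp0
  have hp0' : p = 0 := by omega
  subst hp0'
  have hN0 : (0 : ℝ) < N := by exact_mod_cast (by omega : 0 < N)
  have c3 := h3 N (by omega)
  have h4 : (1 : ℝ) ≤ (En 0 v : ℝ) := by
    have h5 : 1 ≤ En 0 v := by
      unfold En
      rw [Nat.card_eq_fintype_card]
      exact Fintype.card_pos_iff.2 ⟨⟨(fun j => j.elim0, fun j => j.elim0), by simp⟩⟩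
    exact_mod_cast h5
  rw [mul_zero, pow_zero, mul_one] at hE
  have h5 : (N : ℝ) ≤ √(N : ℝ) := by
    calc (N : ℝ) ≤ (En 0 v : ℝ) * N := le_mul_of_one_le_left hN0.le h4
      _ ≤ Real.log N ^ C := hE
      _ ≤ √(N : ℝ) := by rw [one_mul] at c3; exact c3
  have h6 : √(N : ℝ) < N := by
    rw [Real.sqrt_lt' hN0]
    have : (1 : ℝ) < N := by exact_mod_cast (by omega : 1 < N)
    nlinarith
  linarith

open Classical in
lemma fibre_count (p : ℕ) {ι : Type} [Fintype ι] (v : ι → ℤ) (t : ℤ) :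
    ((univ.filter (fun i => v i = t)).card : ℝ) ^ (2 * p) ≤ (En p v : ℝ) := by
  obtain ⟨I, hI⟩ : ∃ I, I = univ.filter (fun i => v i = t) := ⟨_, rfl⟩
  obtain ⟨P, hP⟩ : ∃ P : Finset (Fin p → ι), P = Fintype.piFinset (fun _ : Fin p => I) := ⟨_, rfl⟩
  have hPc : P.card = I.card ^ p := by
    rw [hP, Fintype.card_piFinset]
    simp
  have h1 : (P ×ˢ P).card ≤ En p v := by
    unfold En
    rw [Nat.card_eq_fintype_card, Fintype.card_subtype]
    apply card_le_card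
    intro q hq
    rw [mem_product, hP, Fintype.mem_piFinset, Fintype.mem_piFinset] at hq
    rw [mem_filter]
    refine ⟨mem_univ _, ?_⟩
    have h2 : ∀ j, v (q.1 j) = t := fun j => by
      have := hq.1 j
      rw [hI, mem_filter] at this
      exact this.2
    have h3 : ∀ j, v (q.2 j) = t := fun j => by
      have := hq.2 j
      rw [hI, mem_filter] at this
      exact this.2
    simp only [h2, h3]
  rw [card_product, hPc, ← pow_add, ← two_mul] at h1
  rw [← hI]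
  exact_mod_cast h1

open Classical in
/-- few members of the family are in a small set -/
lemma small_count (p C W V : ℕ) : ∃ N0 : ℕ, ∀ N : ℕ, N0 ≤ N → ∀ (ι : Type) [Fintype ι] (v : ι → ℤ),
    (En p v : ℝ) * N ≤ Real.log N ^ C * (Fintype.card ι : ℝ) ^ (2 * p) → ∀ H : Finset ℤ, (H.card : ℝ) ≤ Real.log N ^ W →
    ((univ.filter (fun i => ∃ τ ∈ H, v i + τ = 0)).card : ℝ) ≤ Fintype.card ι / Real.log N ^ V := by
  obtain ⟨n1, h1⟩ := order_pos p C
  obtain ⟨n2, h2⟩ := ev_log' (C + (V + W) * (2 * p)) 1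
  obtain ⟨n3, h3⟩ := large 3 (n1 + n2 + 3)
  refine ⟨n3, fun N hN ι _ v hE H hH => ?_⟩
  obtain ⟨hN1, hL3, hL1⟩ := h3 N hN
  have hp := h1 N (by omega) ι v hE
  have c2 := h2 N (by omega)
  have hN0 : (0 : ℝ) < N := by exact_mod_cast (by omega : 0 < N)
  have hNr1 : (1 : ℝ) ≤ N := by exact_mod_cast (by omega : 1 ≤ N)
  obtain ⟨L, hL⟩ : ∃ L, L = Real.log (N : ℝ) := ⟨_, rfl⟩
  rw [← hL] at hL3 hL1 c2 hE hH ⊢
  have hL0 : 0 < L := by linarith
  have hone : ∀ t : ℤ, ((univ.filter (fun i => v i = t)).card : ℝ) ≤ Fintype.card ι / L ^ (V + W) := by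
    intro t
    have e1 := fibre_count p v t
    have e2 : (En p v : ℝ) ≤ (Fintype.card ι / L ^ (V + W)) ^ (2 * p) := by
      rw [div_pow, ← pow_mul, le_div_iff₀ (by positivity)]
      rw [one_mul, pow_add] at c2
      have hsN : √(N : ℝ) ≤ N := by
        rw [Real.sqrt_le_left (by positivity)]; nlinarith
      have e3 : (En p v : ℝ) * N * L ^ ((V + W) * (2 * p)) ≤ (Fintype.card ι : ℝ) ^ (2 * p) * N := by
        calc (En p v : ℝ) * N * L ^ ((V + W) * (2 * p)) ≤ L ^ C * (Fintype.card ι : ℝ) ^ (2 * p) * L ^ ((V + W) * (2 * p)) :=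
              mul_le_mul_of_nonneg_right hE (by positivity)
          _ = (Fintype.card ι : ℝ) ^ (2 * p) * (L ^ C * L ^ ((V + W) * (2 * p))) := by ring
          _ ≤ (Fintype.card ι : ℝ) ^ (2 * p) * N := mul_le_mul_of_nonneg_left (c2.trans hsN) (by positivity)
      have e4 : (En p v : ℝ) * L ^ ((V + W) * (2 * p)) * N ≤ (Fintype.card ι : ℝ) ^ (2 * p) * N := by
        calc _ = (En p v : ℝ) * N * L ^ ((V + W) * (2 * p)) := by ring
          _ ≤ _ := e3
      exact le_of_mul_le_mul_right e4 hN0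
    exact le_of_pow_le_pow_left₀ (by omega) (by positivity) (e1.trans e2)
  have hsub : univ.filter (fun i => ∃ τ ∈ H, v i + τ = 0) ⊆ H.biUnion (fun t => univ.filter (fun i => v i = -t)) := by
    intro i hi
    rw [mem_filter] at hi
    obtain ⟨_, τ, hτ, h5⟩ := hi
    rw [mem_biUnion]
    exact ⟨τ, hτ, mem_filter.2 ⟨mem_univ _, by omega⟩⟩
  have hc : ((univ.filter (fun i => ∃ τ ∈ H, v i + τ = 0)).card : ℝ) ≤ ∑ t ∈ H, (Fintype.card ι / L ^ (V + W) : ℝ) := by
    have g1 : (univ.filter (fun i => ∃ τ ∈ H, v i + τ = 0)).card ≤ ∑ t ∈ H, (univ.filter (fun i => v i = -t)).card :=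
      (card_le_card hsub).trans card_biUnion_le
    have g2 : ((univ.filter (fun i => ∃ τ ∈ H, v i + τ = 0)).card : ℝ) ≤ ∑ t ∈ H, ((univ.filter (fun i => v i = -t)).card : ℝ) := by
      exact_mod_cast g1
    exact g2.trans (sum_le_sum fun t _ => hone _)
  refine hc.trans ?_
  rw [sum_const, nsmul_eq_mul]
  calc (H.card : ℝ) * (Fintype.card ι / L ^ (V + W)) ≤ L ^ W * (Fintype.card ι / L ^ (V + W)) :=
        mul_le_mul_of_nonneg_right hH (by positivity)
    _ = _ := by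
        rw [pow_add]
        field_simp

/-- the trivial bound -/
lemma WH_triv (lam : ℕ → ℝ) (y : ℕ → ℕ) (h : ℕ → ℤ) (Q : ℕ) (b : ℤ) (X T : ℕ) (Bm Lx : ℝ) (hQX : Q ≤ X) (hy : ∀ q, y q ≤ X)
    (hBm : 0 ≤ Bm) (hlam : ∀ q, |lam q| ≤ Bm * (q.divisors.card : ℝ) ^ T) (hLx : Real.log X = Lx) (hLx1 : 1 ≤ Lx) :
    |WH lam y h Q b| ≤ 5 * Bm * Lx * X * (1 + Lx) ^ (2 ^ T) := by
  unfold WH
  refine (abs_sum_le_sum_abs _ _).trans ?_
  have h1 : ∑ q ∈ (Icc 1 Q).filter (fun q : ℕ => Int.gcd (b + h q) q = 1),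
      |lam q * (FZ (fun n => ArithmeticFunction.vonMangoldt n) (y q) q (b + h q) - (y q : ℝ) / Nat.totient q)| ≤
      ∑ q ∈ Icc 1 Q, 5 * Bm * Lx * X * ((q.divisors.card : ℝ) ^ T / q) := by
    apply sum_filter_le
    · intro q hq
      rw [mem_Icc] at hq
      have e0 := rep_modEq q (b + h q) q hq.1 le_rfl
      rw [FZ_nat _ _ _ (rep q (b + h q)) (b + h q) e0]
      have e1 := E_le q (y q) (rep q (b + h q)) X Lx hq.1 (hq.2.trans hQX) (hy q) hLx hLx1
      rw [abs_mul]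
      calc |lam q| * |Fu (fun n => ArithmeticFunction.vonMangoldt n) (y q) q (rep q (b + h q)) - (y q : ℝ) / Nat.totient q|
          ≤ (Bm * (q.divisors.card : ℝ) ^ T) * (5 * Lx * X * (1 / (q : ℝ))) := mul_le_mul (hlam q) e1 (abs_nonneg _) (by positivity)
        _ = _ := by ring
    · intro q _
      positivity
  refine h1.trans ?_
  rw [← mul_sum]
  apply mul_le_mul_of_nonneg_left _ (by positivity)
  have h2 : ∑ q ∈ Icc 1 Q, (q.divisors.card : ℝ) ^ T / q ≤ ∑ q ∈ Icc 1 X, (q.divisors.card : ℝ) ^ T / q :=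
    sum_le_sum_of_subset_of_nonneg (Icc_subset_Icc_right hQX) (fun q _ _ => by positivity)
  have h3 := tau_pow_div T X
  rw [hLx] at h3
  exact h2.trans h3

open Classical in
/-- residues depending on the modulus -/
theorem allH (p B C T U W : ℕ) : ∃ K N0 : ℕ, ∀ N : ℕ, N0 ≤ N → ∀ (ι : Type) [Fintype ι] (v : ι → ℤ),
    (∀ i, |v i| ≤ B * N) → (En p v : ℝ) * N ≤ Real.log N ^ C * (Fintype.card ι : ℝ) ^ (2 * p) →
    ∀ H : Finset ℤ, (H.card : ℝ) ≤ Real.log N ^ W → (∀ τ ∈ H, |τ| ≤ B * N) →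
    ∀ lam : ℕ → ℝ, (∀ q, |lam q| ≤ Real.log N ^ T * (q.divisors.card : ℝ) ^ T) → ∀ y : ℕ → ℕ, (∀ q, y q ≤ B * N) →
    ∀ h : ℕ → ℤ, (∀ q, h q ∈ H) →
    ∀ Q : ι → ℕ, (∀ i, (Q i : ℝ) ≤ level K N) → ∀ A : ι → ℕ, (∀ i, A i ≤ B * N) →
    ∑ i, |WH lam (fun q => min (A i) (y q)) h (Q i) (v i)| ≤ N * Fintype.card ι / Real.log N ^ U := by
  obtain ⟨m, hm⟩ : ∃ m, m = 2 ^ T := ⟨_, rfl⟩
  obtain ⟨K, n1, h1⟩ := allW p (2 * B) C T (U + W + 1)
  obtain ⟨n2, h2⟩ := small_count p C W (T + m + U + 3)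
  obtain ⟨n4, h4⟩ := large (max (10 * (B + 1) * 3 ^ m + 3) (Real.log (B + 1))) (n1 + n2 + 3)
  refine ⟨K, n4, fun N hN ι _ v hv hE H hHc hHB lam hlam y hy h hh Q hQ A hA => ?_⟩
  obtain ⟨hN1, hLK, hL1⟩ := h4 N hN
  have hN0 : (0 : ℝ) < N := by exact_mod_cast (by omega : 0 < N)
  have c1 := h1 N (by omega) ι
  have c2 := h2 N (by omega) ι v hE H hHc
  have hQN : ∀ i, (Q i : ℝ) ≤ N := fun i => (hQ i).trans (level_leN _ _ hL1)
  obtain ⟨L, hL⟩ : ∃ L, L = Real.log (N : ℝ) := ⟨_, rfl⟩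
  rw [← hL] at hLK hL1 hlam c1 c2 hE hHc ⊢
  have hB0 : (0 : ℝ) ≤ B := Nat.cast_nonneg _
  have hLl : Real.log ((B : ℝ) + 1) ≤ L := (le_max_right _ _).trans hLK
  have hLb : 10 * ((B : ℝ) + 1) * 3 ^ m + 3 ≤ L := (le_max_left _ _).trans hLK
  have h3m : (0 : ℝ) ≤ 10 * ((B : ℝ) + 1) * 3 ^ m := by positivity
  have hL3 : 3 ≤ L := by linarith
  have hL0 : 0 < L := by linarith
  obtain ⟨X, hX⟩ : ∃ X : ℕ, X = (B + 1) * N := ⟨_, rfl⟩
  obtain ⟨Lx, hLx⟩ : ∃ Lx, Lx = Real.log (X : ℝ) := ⟨_, rfl⟩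
  have hXN : (X : ℝ) = (B + 1) * N := by rw [hX]; push_cast; ring
  have hNX : N ≤ X := by rw [hX]; exact Nat.le_mul_of_pos_left _ (by omega)
  have hLx2 : Lx ≤ 2 * L := by
    rw [hLx, hXN, Real.log_mul (by positivity) hN0.ne', ← hL]
    linarith
  have hLx1 : L ≤ Lx := by
    rw [hL, hLx]
    exact Real.log_le_log hN0 (by exact_mod_cast hNX)
  have hQX : ∀ i, Q i ≤ X := by
    intro i
    have : Q i ≤ N := by exact_mod_cast hQN i
    omega
  have hBX : B * N ≤ X := by rw [hX]; exact Nat.mul_le_mul_right _ (by omega)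
  have hBB : B * N ≤ 2 * B * N := Nat.mul_le_mul_right _ (by omega)
  -- the members outside the set
  obtain ⟨lt, hlt⟩ : ∃ lt : ℤ → ℕ → ℝ, lt = fun τ q => if h q = τ then lam q else 0 := ⟨_, rfl⟩
  have hltb : ∀ τ q, |lt τ q| ≤ L ^ T * (q.divisors.card : ℝ) ^ T := by
    intro τ q
    rw [hlt]
    simp only
    split_ifs
    · exact hlam q
    · rw [abs_zero]; positivity
  have k1 : ∀ τ ∈ H, ∑ i ∈ univ.filter (fun i => v i + τ ≠ 0), |WZ (lt τ) (fun q => min (A i) (y q)) (Q i) (v i + τ)| ≤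
      N * Fintype.card ι / L ^ (U + W + 1) := by
    intro τ hτ
    exact c1 (fun i => v i + τ) (by
      intro i
      refine (abs_add_le _ _).trans ?_
      have e1 := hv i
      have e2 := hHB τ hτ
      push_cast
      linarith) (by rw [En_shift]; exact hE) (lt τ) (hltb τ) y (fun q => (hy q).trans hBB) Q hQ A (fun i => (hA i).trans hBB)
  have k2 : ∑ i ∈ univ.filter (fun i => ¬ ∃ τ ∈ H, v i + τ = 0), |WH lam (fun q => min (A i) (y q)) h (Q i) (v i)| ≤
      ∑ τ ∈ H, ∑ i ∈ univ.filter (fun i => v i + τ ≠ 0), |WZ (lt τ) (fun q => min (A i) (y q)) (Q i) (v i + τ)| := by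
    have e1 : ∀ i ∈ univ.filter (fun i => ¬ ∃ τ ∈ H, v i + τ = 0), |WH lam (fun q => min (A i) (y q)) h (Q i) (v i)| ≤
        ∑ τ ∈ H, |WZ (lt τ) (fun q => min (A i) (y q)) (Q i) (v i + τ)| := by
      intro i _
      rw [WH_split lam (fun q => min (A i) (y q)) h (Q i) (v i) H hh, hlt]
      exact abs_sum_le_sum_abs _ _
    refine (sum_le_sum e1).trans ?_
    rw [sum_comm]
    apply sum_le_sum
    intro τ hτ
    apply sum_le_sum_of_subset_of_nonneg
    · intro i hi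
      rw [mem_filter] at hi ⊢
      exact ⟨hi.1, fun h0 => hi.2 ⟨τ, hτ, h0⟩⟩
    · intro i _ _
      exact abs_nonneg _
  have k3 : ∑ τ ∈ H, ∑ i ∈ univ.filter (fun i => v i + τ ≠ 0), |WZ (lt τ) (fun q => min (A i) (y q)) (Q i) (v i + τ)| ≤
      1 / L * (N * Fintype.card ι / L ^ U) := by
    refine (sum_le_sum k1).trans ?_
    rw [sum_const, nsmul_eq_mul]
    calc (H.card : ℝ) * (N * Fintype.card ι / L ^ (U + W + 1)) ≤ L ^ W * (N * Fintype.card ι / L ^ (U + W + 1)) :=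
          mul_le_mul_of_nonneg_right hHc (by positivity)
      _ = _ := by
          rw [pow_succ L (U + W), pow_add L U]
          field_simp
  -- the members in the set
  have k4 : ∑ i ∈ univ.filter (fun i => ∃ τ ∈ H, v i + τ = 0), |WH lam (fun q => min (A i) (y q)) h (Q i) (v i)| ≤
      1 / L * (N * Fintype.card ι / L ^ U) := by
    have e1 : ∀ i ∈ univ.filter (fun i => ∃ τ ∈ H, v i + τ = 0), |WH lam (fun q => min (A i) (y q)) h (Q i) (v i)| ≤
        5 * L ^ T * Lx * X * (1 + Lx) ^ (2 ^ T) := by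
      intro i _
      exact WH_triv lam (fun q => min (A i) (y q)) h (Q i) (v i) X T (L ^ T) Lx (hQX i)
        (fun q => (min_le_right _ _).trans ((hy q).trans hBX)) (by positivity) hlam hLx.symm (by linarith)
    refine (sum_le_sum e1).trans ?_
    rw [sum_const, nsmul_eq_mul, ← hm]
    have e2 : 1 + Lx ≤ 3 * L := by linarith
    have e3 : 0 ≤ Lx := by linarith
    calc ((univ.filter (fun i => ∃ τ ∈ H, v i + τ = 0)).card : ℝ) * (5 * L ^ T * Lx * X * (1 + Lx) ^ m)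
        ≤ (Fintype.card ι / L ^ (T + m + U + 3)) * (5 * L ^ T * (2 * L) * ((B + 1) * N) * (3 * L) ^ m) := by
          rw [hXN]
          gcongr
      _ = (10 * (B + 1) * 3 ^ m / L) * (1 / L * (N * Fintype.card ι / L ^ U)) := by
          rw [mul_pow, show T + m + U + 3 = T + m + U + 1 + 1 + 1 by ring, pow_succ L (T + m + U + 1 + 1), pow_succ L (T + m + U + 1),
            pow_succ L (T + m + U), pow_add L (T + m), pow_add]
          field_simp
          ring
      _ ≤ 1 * (1 / L * (N * Fintype.card ι / L ^ U)) := by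
          apply mul_le_mul_of_nonneg_right _ (by positivity)
          rw [div_le_one hL0]
          linarith
      _ = _ := one_mul _
  have k5 : ∑ i, |WH lam (fun q => min (A i) (y q)) h (Q i) (v i)| =
      ∑ i ∈ univ.filter (fun i => ∃ τ ∈ H, v i + τ = 0), |WH lam (fun q => min (A i) (y q)) h (Q i) (v i)| +
      ∑ i ∈ univ.filter (fun i => ¬ ∃ τ ∈ H, v i + τ = 0), |WH lam (fun q => min (A i) (y q)) h (Q i) (v i)| :=
    (sum_filter_add_sum_filter_not _ _ _).symm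
  rw [k5]
  have k6 : 1 / L * (N * Fintype.card ι / L ^ U) + 1 / L * (N * Fintype.card ι / L ^ U) ≤ N * Fintype.card ι / L ^ U := by
    have e : 1 / L * ((N : ℝ) * Fintype.card ι / L ^ U) + 1 / L * (N * Fintype.card ι / L ^ U) = (2 / L) * (N * Fintype.card ι / L ^ U) := by ring
    rw [e]
    apply mul_le_of_le_one_left (by positivity)
    rw [div_le_one hL0]
    linarith
  linarith

end Pool.Agent.U856.EH
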