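import Pool.Agent.U856.EH.M14
import Pool.Agent.U856.EH.M10

set_option autoImplicit false

/-! The primes up to the original level. -/

namespace Pool.Agent.U856.EH
open Finset
open Pool.Agent.H373R2.T7 (ev_log')
open Pool.Agent.TH212.EH (En large tau_pow_div sum_filter_le)
open Pool.Agent.W93.LV (inv_phi_le)

open Classical in
/-- the first moments of the weighted sums of the discrepancies `D` along thin families -/
def AllD (D : ℕ → ℕ → ℤ → ℝ) : Prop := ∀ p B C T U W : ℕ, ∃ K N0 : ℕ, ∀ N : ℕ, N0 ≤ N → ∀ (ι : Type) [Fintype ι] (v : ι → ℤ),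
    (∀ i, |v i| ≤ B * N) → (En p v : ℝ) * N ≤ Real.log N ^ C * (Fintype.card ι : ℝ) ^ (2 * p) →
    ∀ H : Finset ℤ, (H.card : ℝ) ≤ Real.log N ^ W → (∀ τ ∈ H, |τ| ≤ B * N) →
    ∀ lam : ℕ → ℝ, (∀ q, |lam q| ≤ Real.log N ^ T * (q.divisors.card : ℝ) ^ T) → ∀ y : ℕ → ℕ, (∀ q, y q ≤ B * N) →
    ∀ h : ℕ → ℤ, (∀ q, h q ∈ H) →
    ∀ Q : ι → ℕ, (∀ i, (Q i : ℝ) ≤ level K N) → ∀ A : ι → ℕ, (∀ i, A i ≤ B * N) →
    ∑ i, |wt D lam (fun q => min (A i) (y q)) h (Q i) (v i)| ≤ N * Fintype.card ι / Real.log N ^ U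

theorem allS : AllD DS := fun p B C T U W => allH p B C T U W

lemma err2 (lam : ℕ → ℝ) (T N Q : ℕ) (L : ℝ) (hL : Real.log N = L) (hL1 : 1 ≤ L) (hQ : Q ≤ N)
    (hlam : ∀ q, |lam q| ≤ L ^ T * (q.divisors.card : ℝ) ^ T) :
    ∑ q ∈ Icc 1 Q, 2 * (|lam q| * (1 / Nat.totient q)) ≤ 2 * (L ^ T * (2 * L) ^ (2 ^ (T + 1))) := by
  have h1 : ∑ q ∈ Icc 1 Q, 2 * (|lam q| * (1 / Nat.totient q)) ≤ ∑ q ∈ Icc 1 N, 2 * L ^ T * ((q.divisors.card : ℝ) ^ (T + 1) / q) := by
    refine le_trans (sum_le_sum_of_subset_of_nonneg (Icc_subset_Icc_right hQ) (fun q _ _ => by positivity)) ?_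
    apply sum_le_sum
    intro q hq
    rw [mem_Icc] at hq
    have e1 := inv_phi_le q hq.1
    calc 2 * (|lam q| * (1 / Nat.totient q)) ≤ 2 * ((L ^ T * (q.divisors.card : ℝ) ^ T) * ((q.divisors.card : ℝ) / q)) := by
          apply mul_le_mul_of_nonneg_left _ (by norm_num)
          exact mul_le_mul (hlam q) e1 (by positivity) (by positivity)
      _ = _ := by rw [pow_succ]; ring
  refine h1.trans ?_
  rw [← mul_sum, mul_assoc]
  apply mul_le_mul_of_nonneg_left _ (by norm_num)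
  apply mul_le_mul_of_nonneg_left _ (by positivity)
  refine (tau_pow_div (T + 1) N).trans ?_
  rw [hL]
  exact pow_le_pow_left₀ (by linarith) (by linarith) _

lemma err1 (lam : ℕ → ℝ) (T N Q M Y : ℕ) (h : ℕ → ℤ) (b : ℤ) (H : Finset ℤ) (hh : ∀ q, h q ∈ H) (L : ℝ) (hL1 : 1 ≤ L)
    (hH : ∀ τ ∈ H, |b + τ| + M ≤ Y)
    (hlam : ∀ q, |lam q| ≤ L ^ T * (q.divisors.card : ℝ) ^ T) :
    ∑ q ∈ Icc 1 Q, |lam q| * (((PPs M).filter (fun m : ℕ => (m : ℤ) ≡ b + h q [ZMOD q])).card : ℝ) ≤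
    L ^ T * (H.card * (√((PPs M).card : ℝ) * √(2 * (Y * (1 + Real.log Y) ^ (2 ^ (2 * (T + 1))))) + Q * (1 + Real.log Q) ^ (2 ^ T))) := by
  have h1 : ∑ q ∈ Icc 1 Q, |lam q| * (((PPs M).filter (fun m : ℕ => (m : ℤ) ≡ b + h q [ZMOD q])).card : ℝ) ≤
      ∑ τ ∈ H, ∑ q ∈ Icc 1 Q, L ^ T * ((q.divisors.card : ℝ) ^ T * (((PPs M).filter (fun m : ℕ => (m : ℤ) ≡ b + τ [ZMOD q])).card : ℝ)) := by
    rw [sum_comm]
    apply sum_le_sum
    intro q _
    calc |lam q| * (((PPs M).filter (fun m : ℕ => (m : ℤ) ≡ b + h q [ZMOD q])).card : ℝ)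
        ≤ L ^ T * (q.divisors.card : ℝ) ^ T * (((PPs M).filter (fun m : ℕ => (m : ℤ) ≡ b + h q [ZMOD q])).card : ℝ) :=
          mul_le_mul_of_nonneg_right (hlam q) (Nat.cast_nonneg _)
      _ = L ^ T * ((q.divisors.card : ℝ) ^ T * (((PPs M).filter (fun m : ℕ => (m : ℤ) ≡ b + h q [ZMOD q])).card : ℝ)) := by ring
      _ ≤ _ := single_le_sum (f := fun τ => L ^ T * ((q.divisors.card : ℝ) ^ T * (((PPs M).filter (fun m : ℕ => (m : ℤ) ≡ b + τ [ZMOD q])).card : ℝ)))
          (fun τ _ => by positivity) (hh q)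
  refine h1.trans ?_
  have h2 : ∀ τ ∈ H, ∑ q ∈ Icc 1 Q, L ^ T * ((q.divisors.card : ℝ) ^ T * (((PPs M).filter (fun m : ℕ => (m : ℤ) ≡ b + τ [ZMOD q])).card : ℝ)) ≤
      L ^ T * (√((PPs M).card : ℝ) * √(2 * (Y * (1 + Real.log Y) ^ (2 ^ (2 * (T + 1))))) + Q * (1 + Real.log Q) ^ (2 ^ T)) := by
    intro τ hτ
    rw [← mul_sum]
    exact mul_le_mul_of_nonneg_left (pp_sum T M Y Q (b + τ) (hH τ hτ)) (by positivity)
  refine (sum_le_sum h2).trans (le_of_eq ?_)
  rw [sum_const, nsmul_eq_mul]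
  ring

open Classical in
theorem allP : AllD DP := by
  intro p B C T U W
  obtain ⟨m, hm⟩ : ∃ m, m = 2 ^ T := ⟨_, rfl⟩
  obtain ⟨E, hE0⟩ : ∃ E, E = 2 ^ (2 * (T + 1)) := ⟨_, rfl⟩
  obtain ⟨m1, hm1⟩ : ∃ m1, m1 = 2 ^ (T + 1) := ⟨_, rfl⟩
  obtain ⟨V, hV⟩ : ∃ V, V = T + W + U + 3 := ⟨_, rfl⟩
  obtain ⟨K0, n0, h0⟩ := allH p (B + 1) C T (U + 2) W
  obtain ⟨n1, h1⟩ := ev_log' (E + 1 + 2 * V) (8 * ((B : ℝ) + 1) * (3 * B + 1) * 3 ^ E)
  obtain ⟨n2, h2⟩ := ev_log' (T + m1 + (U + 3)) (2 * 2 ^ m1)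
  obtain ⟨n4, h4⟩ := large (max (2 ^ m + 3) (Real.log (3 * B + 1))) (n0 + n1 + n2 + 3)
  refine ⟨K0 + (m + V + 1), n4, fun N hN ι _ v hv hE H hHc hHB lam hlam y hy h hh Q hQ z hz => ?_⟩
  obtain ⟨hN1, hLK, hL1⟩ := h4 N hN
  have hN0 : (0 : ℝ) < N := by exact_mod_cast (by omega : 0 < N)
  have hNr1 : (1 : ℝ) ≤ N := by exact_mod_cast (by omega : 1 ≤ N)
  have c0 := h0 N (by omega) ι v
  have c1 := h1 N (by omega)
  have c2 := h2 N (by omega)
  have hQK : ∀ i, (Q i : ℝ) ≤ level (m + V + 1) N := fun i => (hQ i).trans (level_anti _ _ _ (by omega) hL1)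
  have hQK0 : ∀ i, (Q i : ℝ) ≤ level K0 N := fun i => (hQ i).trans (level_anti _ _ _ (by omega) hL1)
  have hQN : ∀ i, (Q i : ℝ) ≤ N := fun i => (hQ i).trans (level_leN _ _ hL1)
  unfold level at hQK
  obtain ⟨L, hL⟩ : ∃ L, L = Real.log (N : ℝ) := ⟨_, rfl⟩
  rw [← hL] at hLK hL1 hlam c0 c1 c2 hE hHc ⊢
  simp only [← hL] at hQK
  have hB0 : (0 : ℝ) ≤ B := Nat.cast_nonneg _
  have hLl : Real.log (3 * (B : ℝ) + 1) ≤ L := (le_max_right _ _).trans hLK
  have hLb : 2 ^ m + 3 ≤ L := (le_max_left _ _).trans hLK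
  have h2m : (0 : ℝ) ≤ 2 ^ m := by positivity
  have hL3 : 3 ≤ L := by linarith
  have hL0 : 0 < L := by linarith
  have hBB : B * N ≤ (B + 1) * N := Nat.mul_le_mul_right _ (by omega)
  obtain ⟨M, hM⟩ : ∃ M, M = (B + 1) * N := ⟨_, rfl⟩
  obtain ⟨Y, hY⟩ : ∃ Y, Y = (3 * B + 1) * N := ⟨_, rfl⟩
  have hM1 : 1 ≤ M := by rw [hM]; exact Nat.mul_pos (by omega) (by omega)
  have hYr : (Y : ℝ) = (3 * B + 1) * N := by rw [hY]; push_cast; ring
  have hMr : (M : ℝ) = (B + 1) * N := by rw [hM]; push_cast; ring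
  have hMY : M ≤ Y := by rw [hM, hY]; exact Nat.mul_le_mul_right _ (by omega)
  have hlogY : Real.log Y ≤ 2 * L := by
    rw [hYr, Real.log_mul (by positivity) hN0.ne', ← hL]
    linarith
  have hlogM : Real.log M ≤ 2 * L := (Real.log_le_log (by exact_mod_cast hM1) (by exact_mod_cast hMY)).trans hlogY
  -- the choice of the lengths
  have hch : ∀ i, ∃ n : ℕ, ∀ n', 1 ≤ n' → n' ≤ M → |WH lam (fun q => min n' (min (z i) (y q))) h (Q i) (v i)| ≤
      |WH lam (fun q => min n (min (z i) (y q))) h (Q i) (v i)| := by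
    intro i
    obtain ⟨n, _, hn2⟩ := exists_max_image (Icc 1 M) (fun n => |WH lam (fun q => min n (min (z i) (y q))) h (Q i) (v i)|) ⟨1, mem_Icc.2 ⟨le_rfl, hM1⟩⟩
    exact ⟨n, fun n' h1 h2 => hn2 n' (mem_Icc.2 ⟨h1, h2⟩)⟩
  choose n hn using hch
  have k1 := c0 (fun i => (hv i).trans (by exact_mod_cast hBB)) hE H hHc (fun τ hτ => (hHB τ hτ).trans (by exact_mod_cast hBB)) lam hlam y
    (fun q => (hy q).trans hBB) h hh Q hQK0 (fun i => min (n i) (z i)) (fun i => (min_le_right _ _).trans ((hz i).trans hBB))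
  have k2 : ∀ i, |wt DP lam (fun q => min (z i) (y q)) h (Q i) (v i)| ≤
      3 * |WH lam (fun q => min (min (n i) (z i)) (y q)) h (Q i) (v i)| + 3 * (N / L ^ (U + 3)) := by
    intro i
    have e1 := WP_le lam (fun q => min (z i) (y q)) h (Q i) (v i) M _ hM1 (fun q => (min_le_left _ _).trans ((hz i).trans (hBB.trans hM.ge))) (hn i)
    refine e1.trans ?_
    have e2 : ∑ q ∈ Icc 1 (Q i), |lam q| * (((PPs M).filter (fun m : ℕ => (m : ℤ) ≡ v i + h q [ZMOD q])).card : ℝ) ≤ 2 * (N / L ^ (U + 3)) := by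
      refine (err1 lam T N (Q i) M Y h (v i) H hh L hL1 (by
        intro τ hτ
        have f1 := hHB τ hτ
        have f2 := hv i
        have f3 := abs_add_le (v i) τ
        rw [hM, hY]
        push_cast
        linarith) hlam).trans ?_
      have g1 : √((PPs M).card : ℝ) * √(2 * (Y * (1 + Real.log Y) ^ (2 ^ (2 * (T + 1))))) ≤ N / L ^ V := by
        rw [← Real.sqrt_mul (Nat.cast_nonneg _), ← hE0]
        apply Real.sqrt_le_iff.2
        refine ⟨by positivity, ?_⟩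
        have f1 := PPs_card_real M hM1
        have f2 : √(M : ℝ) ≤ (B + 1) * √(N : ℝ) := by
          rw [hMr, Real.sqrt_mul (by positivity)]
          apply mul_le_mul_of_nonneg_right _ (Real.sqrt_nonneg _)
          rw [Real.sqrt_le_left (by positivity)]
          nlinarith
        have f3 : 0 ≤ Real.log M := Real.log_natCast_nonneg _
        have f4 : 0 ≤ Real.log Y := Real.log_natCast_nonneg _
        have f5 : 1 + Real.log Y ≤ 3 * L := by linarith
        have f6 : √(N : ℝ) * √(N : ℝ) = N := Real.mul_self_sqrt hN0.le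
        calc ((PPs M).card : ℝ) * (2 * (Y * (1 + Real.log Y) ^ E))
            ≤ (((B + 1) * √(N : ℝ)) * (2 * (2 * L))) * (2 * (((3 * B + 1) * N) * (3 * L) ^ E)) := by
              rw [hYr] at f5 ⊢
              apply mul_le_mul _ _ (by rw [← hYr]; positivity) (by positivity)
              · refine f1.trans ?_
                exact mul_le_mul f2 (by linarith) (by positivity) (by positivity)
              · rw [← hYr] at f5 ⊢
                gcongr
          _ = (8 * (B + 1) * (3 * B + 1) * 3 ^ E * L ^ (E + 1)) * (√(N : ℝ) * N) := by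
              rw [mul_pow, pow_succ]
              ring
          _ ≤ (√(N : ℝ) / L ^ (2 * V)) * (√(N : ℝ) * N) := by
              apply mul_le_mul_of_nonneg_right _ (by positivity)
              rw [le_div_iff₀ (by positivity)]
              calc 8 * ((B : ℝ) + 1) * (3 * B + 1) * 3 ^ E * L ^ (E + 1) * L ^ (2 * V) = 8 * (B + 1) * (3 * B + 1) * 3 ^ E * L ^ (E + 1 + 2 * V) := by
                    rw [pow_add L (E + 1)]; ring
                _ ≤ _ := c1
          _ = (N / L ^ V) ^ 2 := by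
              rw [show √(N : ℝ) / L ^ (2 * V) * (√(N : ℝ) * N) = (√(N : ℝ) * √(N : ℝ)) * N / L ^ (2 * V) by ring, f6, div_pow, ← pow_mul, mul_comm V 2]
              ring
      have g2 : (Q i : ℝ) * (1 + Real.log (Q i)) ^ (2 ^ T) ≤ N / L ^ V := by
        rw [← hm]
        rcases Nat.eq_zero_or_pos (Q i) with hq | hq
        · rw [hq]
          simp only [Nat.cast_zero, zero_mul]
          positivity
        · have f1 : Real.log (Q i) ≤ L := by rw [hL]; exact Real.log_le_log (by exact_mod_cast hq) (hQN i)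
          have f2 : 0 ≤ Real.log (Q i) := Real.log_natCast_nonneg _
          calc (Q i : ℝ) * (1 + Real.log (Q i)) ^ m ≤ (N / L ^ (m + V + 1)) * (2 * L) ^ m := by
                apply mul_le_mul (hQK i) _ (by positivity) (by positivity)
                exact pow_le_pow_left₀ (by linarith) (by linarith) _
            _ = (2 ^ m / L) * (N / L ^ V) := by
                rw [mul_pow, pow_succ, pow_add]
                field_simp
            _ ≤ 1 * (N / L ^ V) := by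
                apply mul_le_mul_of_nonneg_right _ (by positivity)
                rw [div_le_one hL0]
                linarith
            _ = _ := one_mul _
      calc L ^ T * (H.card * (√((PPs M).card : ℝ) * √(2 * (Y * (1 + Real.log Y) ^ (2 ^ (2 * (T + 1))))) + Q i * (1 + Real.log (Q i)) ^ (2 ^ T)))
          ≤ L ^ T * (L ^ W * (N / L ^ V + N / L ^ V)) := by
            have g0 : 0 ≤ √((PPs M).card : ℝ) * √(2 * (Y * (1 + Real.log Y) ^ (2 ^ (2 * (T + 1))))) + Q i * (1 + Real.log (Q i)) ^ (2 ^ T) := by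
              have := Real.log_natCast_nonneg (Q i)
              positivity
            apply mul_le_mul_of_nonneg_left _ (by positivity)
            exact mul_le_mul hHc (add_le_add g1 g2) g0 (by positivity)
        _ = 2 * (N / L ^ (U + 3)) := by
            rw [hV, show T + W + U + 3 = T + W + (U + 3) by ring, pow_add L (T + W), pow_add L T]
            field_simp
            ring
    have e3 : ∑ q ∈ Icc 1 (Q i), 2 * (|lam q| * (1 / Nat.totient q)) ≤ N / L ^ (U + 3) := by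
      refine (err2 lam T N (Q i) L hL.symm hL1 (by exact_mod_cast hQN i) hlam).trans ?_
      rw [← hm1, le_div_iff₀ (by positivity)]
      have hsN : √(N : ℝ) ≤ N := by
        rw [Real.sqrt_le_left (by positivity)]; nlinarith
      calc 2 * (L ^ T * (2 * L) ^ m1) * L ^ (U + 3) = 2 * 2 ^ m1 * L ^ (T + m1 + (U + 3)) := by
            rw [mul_pow, pow_add, pow_add]; ring
        _ ≤ √(N : ℝ) := c2
        _ ≤ N := hsN
    have e4 : (fun q => min (n i) (min (z i) (y q))) = (fun q => min (min (n i) (z i)) (y q)) := by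
      funext q
      rw [min_assoc]
    rw [e4]
    linarith
  refine (sum_le_sum fun i _ => k2 i).trans ?_
  rw [sum_add_distrib, ← mul_sum, sum_const, card_univ, nsmul_eq_mul]
  have k3 : (Fintype.card ι : ℝ) * (3 * (N / L ^ (U + 3))) = (3 / L ^ 3) * (N * Fintype.card ι / L ^ U) := by
    rw [pow_add]; field_simp
  have k4 : 3 * (N * Fintype.card ι / L ^ (U + 2)) = (3 / L ^ 2) * (N * Fintype.card ι / L ^ U) := by
    rw [pow_add]; field_simp
  have k5 : 3 / L ^ 2 + 3 / L ^ 3 ≤ 1 := by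
    have f1 : 3 / L ^ 2 ≤ 3 / 3 ^ 2 := by gcongr
    have f2 : 3 / L ^ 3 ≤ 3 / 3 ^ 3 := by gcongr
    norm_num at f1 f2
    linarith
  calc _ ≤ 3 * (N * Fintype.card ι / L ^ (U + 2)) + (Fintype.card ι : ℝ) * (3 * (N / L ^ (U + 3))) := by
        apply add_le_add_left
        exact mul_le_mul_of_nonneg_left k1 (by norm_num)
    _ = (3 / L ^ 2 + 3 / L ^ 3) * (N * Fintype.card ι / L ^ U) := by rw [k3, k4]; ring
    _ ≤ 1 * (N * Fintype.card ι / L ^ U) := mul_le_mul_of_nonneg_right k5 (by positivity)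
    _ = _ := one_mul _

end Pool.Agent.U856.EH
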