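import Pool.Agent.TH212.EH.A0

set_option autoImplicit false

/-! The truncated Ramanujan model of the von Mangoldt function: size, sums over intervals. -/

namespace Pool.Agent.U856.EH
open Finset
open Pool.Agent.TH212.EH (inv_phi card_ap)

lemma harm0 (Q X : ℕ) (h : Q ≤ X) : ∑ q ∈ Icc 1 Q, 1 / (q : ℝ) ≤ 1 + Real.log X := by
  have hX : 0 ≤ Real.log (X : ℝ) := Real.log_natCast_nonneg X
  rcases Nat.eq_zero_or_pos Q with h0 | h0
  · subst h0
    simp
    linarith
  · have h1 := harmonic_le_one_add_log Q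
    have h2 : ((harmonic Q : ℚ) : ℝ) = ∑ q ∈ Icc 1 Q, 1 / (q : ℝ) := by
      rw [harmonic_eq_sum_Icc]
      push_cast
      apply sum_congr rfl
      intro q _
      rw [one_div]
    rw [← h2]
    refine h1.trans ?_
    have := Real.log_le_log (by exact_mod_cast h0 : (0 : ℝ) < Q) (by exact_mod_cast h : (Q : ℝ) ≤ X)
    linarith

/-- sums over multiples -/
lemma sum_mulR (N d : ℕ) (hd : 1 ≤ d) (G : ℕ → ℝ) :
    ∑ n ∈ (Icc 1 N).filter (fun n => d ∣ n), G n = ∑ m ∈ Icc 1 (N / d), G (d * m) := by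
  symm
  apply sum_bij (fun m _ => d * m)
  · intro m hm
    rw [mem_Icc] at hm
    rw [mem_filter, mem_Icc]
    refine ⟨⟨Nat.mul_pos hd hm.1, ?_⟩, dvd_mul_right _ _⟩
    calc d * m ≤ d * (N / d) := Nat.mul_le_mul_left _ hm.2
      _ ≤ N := Nat.mul_div_le _ _
  · intro a _ b _ h
    exact Nat.eq_of_mul_eq_mul_left hd h
  · intro n hn
    rw [mem_filter, mem_Icc] at hn
    obtain ⟨m, rfl⟩ := hn.2
    refine ⟨m, ?_, rfl⟩
    rw [mem_Icc]
    constructor
    · rcases Nat.eq_zero_or_pos m with h | h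
      · rw [h] at hn; omega
      · exact h
    · rw [Nat.le_div_iff_mul_le hd]
      linarith [mul_comm d m]
  · intro m _; rfl

/-- The coefficients of the model. -/
noncomputable def gR (R d : ℕ) : ℝ :=
  (ArithmeticFunction.moebius d : ℝ) * d *
    ∑ r ∈ (Icc 1 R).filter (fun r => Squarefree r ∧ d ∣ r), 1 / (Nat.totient r : ℝ)

/-- The model: the sum of the first terms of the Ramanujan expansion of the von Mangoldt function. -/
noncomputable def mR (R n : ℕ) : ℝ := ∑ d ∈ (Icc 1 R).filter (fun d => d ∣ n), gR R d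

/-- the bound for the coefficients -/
noncomputable def bR (R : ℕ) : ℝ := (1 + 2 * Real.log R) * (1 + Real.log R)

lemma bR_ge (R : ℕ) : 1 ≤ bR R := by
  have := Real.log_natCast_nonneg R
  unfold bR
  nlinarith

lemma moeb_le (d : ℕ) : |(ArithmeticFunction.moebius d : ℝ)| ≤ 1 := by
  have h := ArithmeticFunction.abs_moebius_le_one (n := d)
  exact_mod_cast h

lemma gR_le (R d : ℕ) (hd : 1 ≤ d) : |gR R d| ≤ bR R := by
  have hd0 : (0 : ℝ) < d := by exact_mod_cast hd
  have hl := Real.log_natCast_nonneg R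
  unfold gR bR
  have h1 : ∑ r ∈ (Icc 1 R).filter (fun r => Squarefree r ∧ d ∣ r), 1 / (Nat.totient r : ℝ) ≤
      (1 + 2 * Real.log R) * (1 / d * (1 + Real.log R)) := by
    calc ∑ r ∈ (Icc 1 R).filter (fun r => Squarefree r ∧ d ∣ r), 1 / (Nat.totient r : ℝ)
        ≤ ∑ r ∈ (Icc 1 R).filter (fun r => d ∣ r), 1 / (Nat.totient r : ℝ) := by
          apply sum_le_sum_of_subset_of_nonneg
          · intro r hr
            rw [mem_filter] at hr ⊢
            exact ⟨hr.1, hr.2.2⟩
          · intro r _ _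
            positivity
      _ ≤ ∑ r ∈ (Icc 1 R).filter (fun r => d ∣ r), (1 + 2 * Real.log R) * (1 / (r : ℝ)) := by
          apply sum_le_sum
          intro r hr
          rw [mem_filter, mem_Icc] at hr
          exact inv_phi r hr.1.1 R hr.1.2
      _ = (1 + 2 * Real.log R) * ∑ m ∈ Icc 1 (R / d), 1 / d * (1 / (m : ℝ)) := by
          rw [← mul_sum, sum_mulR R d hd]
          congr 1
          apply sum_congr rfl
          intro m _
          push_cast
          rw [div_mul_div_comm, one_mul]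
      _ ≤ (1 + 2 * Real.log R) * (1 / d * (1 + Real.log R)) := by
          rw [← mul_sum]
          apply mul_le_mul_of_nonneg_left _ (by linarith)
          exact mul_le_mul_of_nonneg_left (harm0 _ R (Nat.div_le_self _ _)) (by positivity)
  have h2 : 0 ≤ ∑ r ∈ (Icc 1 R).filter (fun r => Squarefree r ∧ d ∣ r), 1 / (Nat.totient r : ℝ) :=
    sum_nonneg fun _ _ => by positivity
  rw [abs_mul, abs_mul, abs_of_nonneg h2, abs_of_pos hd0]
  calc |(ArithmeticFunction.moebius d : ℝ)| * d * ∑ r ∈ (Icc 1 R).filter (fun r => Squarefree r ∧ d ∣ r), 1 / (Nat.totient r : ℝ)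
      ≤ 1 * d * ((1 + 2 * Real.log R) * (1 / d * (1 + Real.log R))) := by
        apply mul_le_mul _ h1 h2 (by positivity)
        exact mul_le_mul_of_nonneg_right (moeb_le d) hd0.le
    _ = _ := by field_simp

lemma mR_le_tau (R n : ℕ) (hn : 1 ≤ n) : |mR R n| ≤ bR R * (n.divisors.card : ℝ) := by
  unfold mR
  refine (abs_sum_le_sum_abs _ _).trans ?_
  have h1 : ∀ d ∈ (Icc 1 R).filter (fun d => d ∣ n), |gR R d| ≤ bR R := by
    intro d hd
    rw [mem_filter, mem_Icc] at hd
    exact gR_le R d hd.1.1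
  refine (sum_le_sum h1).trans ?_
  rw [sum_const, nsmul_eq_mul, mul_comm]
  apply mul_le_mul_of_nonneg_left _ (by linarith [bR_ge R])
  exact_mod_cast card_le_card (by
    intro d hd
    rw [mem_filter] at hd
    exact Nat.mem_divisors.2 ⟨hd.2, by omega⟩)

lemma mR_le_R (R n : ℕ) : |mR R n| ≤ bR R * R := by
  unfold mR
  refine (abs_sum_le_sum_abs _ _).trans ?_
  have h1 : ∀ d ∈ (Icc 1 R).filter (fun d => d ∣ n), |gR R d| ≤ bR R := by
    intro d hd
    rw [mem_filter, mem_Icc] at hd
    exact gR_le R d hd.1.1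
  refine (sum_le_sum h1).trans ?_
  rw [sum_const, nsmul_eq_mul, mul_comm]
  apply mul_le_mul_of_nonneg_left _ (by linarith [bR_ge R])
  have h2 : ((Icc 1 R).filter (fun d => d ∣ n)).card ≤ R := (card_filter_le _ _).trans (by simp)
  exact_mod_cast h2

lemma sum_gR_le (R : ℕ) : ∑ d ∈ Icc 1 R, |gR R d| ≤ bR R * R := by
  refine (sum_le_sum (fun d hd => gR_le R d (mem_Icc.1 hd).1)).trans ?_
  rw [sum_const, nsmul_eq_mul, mul_comm, Nat.card_Icc, Nat.add_sub_cancel]

/-- the model in the integers -/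
noncomputable def mI (R : ℕ) (k : ℤ) : ℝ := if 1 ≤ k then mR R k.toNat else 0

/-- short sums of the absolute value of the model along `n + v` -/
lemma short_plus (R y' y : ℕ) (v : ℤ) :
    ∑ n ∈ Ioc y' y, |mI R ((n : ℤ) + v)| ≤ bR R * (((y - y' : ℕ) : ℝ) * (1 + Real.log R) + R) := by
  have hb := bR_ge R
  have h1 : ∀ n ∈ Ioc y' y, |mI R ((n : ℤ) + v)| ≤ ∑ d ∈ Icc 1 R, if (d : ℤ) ∣ (n : ℤ) + v then bR R else 0 := by
    intro n _
    unfold mI
    split_ifs with h
    · unfold mR
      refine (abs_sum_le_sum_abs _ _).trans ?_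
      rw [sum_filter]
      apply sum_le_sum
      intro d hd
      rw [mem_Icc] at hd
      by_cases hdv : d ∣ ((n : ℤ) + v).toNat
      · have h2 : (d : ℤ) ∣ (n : ℤ) + v := by
          have := Int.natCast_dvd_natCast.2 hdv
          rwa [Int.toNat_of_nonneg (by omega)] at this
        rw [if_pos hdv, if_pos h2]
        exact gR_le R d hd.1
      · rw [if_neg hdv]
        split_ifs <;> linarith
    · rw [abs_zero]
      apply sum_nonneg
      intro d _
      split_ifs <;> linarith
  refine (sum_le_sum h1).trans ?_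
  rw [sum_comm]
  have h2 : ∀ d ∈ Icc 1 R, ∑ n ∈ Ioc y' y, (if (d : ℤ) ∣ (n : ℤ) + v then bR R else 0) ≤
      bR R * (((y - y' : ℕ) : ℝ) * (1 / d) + 1) := by
    intro d hd
    rw [mem_Icc] at hd
    rw [← sum_filter, sum_const, nsmul_eq_mul, mul_comm]
    apply mul_le_mul_of_nonneg_left _ (by linarith)
    have hd0 : (0 : ℤ) < d := by exact_mod_cast hd.1
    have h3 : (Ioc y' y).filter (fun n : ℕ => (d : ℤ) ∣ (n : ℤ) + v) =
        (Ioc y' y).filter (fun n => n ≡ ((-v) % d).toNat [MOD d]) := by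
      apply filter_congr
      intro n _
      have h4 : (0 : ℤ) ≤ (-v) % d := Int.emod_nonneg _ hd0.ne'
      rw [← Int.natCast_modEq_iff, Int.toNat_of_nonneg h4]
      unfold Int.ModEq
      rw [Int.emod_emod_of_dvd _ dvd_rfl]
      constructor
      · intro h
        have : (n : ℤ) ≡ -v [ZMOD d] := by
          apply Int.ModEq.symm
          rw [Int.modEq_iff_dvd, sub_neg_eq_add]
          exact h
        exact this
      · intro h
        have : (n : ℤ) ≡ -v [ZMOD d] := h
        have := this.symm.dvd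
        rwa [sub_neg_eq_add] at this
    rw [h3]
    have := card_ap y' y d ((-v) % d).toNat
    rw [mul_one_div]
    exact this
  refine (sum_le_sum h2).trans ?_
  rw [← mul_sum]
  apply mul_le_mul_of_nonneg_left _ (by linarith)
  rw [sum_add_distrib, ← mul_sum, sum_const, Nat.card_Icc, Nat.add_sub_cancel, nsmul_eq_mul, mul_one]
  exact add_le_add (mul_le_mul_of_nonneg_left (harm0 R R le_rfl) (Nat.cast_nonneg _)) le_rfl

/-- short sums of the absolute value of the model along `v - n` -/
lemma short_minus (R y' y : ℕ) (v : ℤ) :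
    ∑ n ∈ Ioc y' y, |mI R (v - (n : ℤ))| ≤ bR R * (((y - y' : ℕ) : ℝ) * (1 + Real.log R) + R) := by
  have hb := bR_ge R
  have h1 : ∀ n ∈ Ioc y' y, |mI R (v - (n : ℤ))| ≤ ∑ d ∈ Icc 1 R, if (d : ℤ) ∣ v - (n : ℤ) then bR R else 0 := by
    intro n _
    unfold mI
    split_ifs with h
    · unfold mR
      refine (abs_sum_le_sum_abs _ _).trans ?_
      rw [sum_filter]
      apply sum_le_sum
      intro d hd
      rw [mem_Icc] at hd
      by_cases hdv : d ∣ (v - (n : ℤ)).toNat
      · have h2 : (d : ℤ) ∣ v - (n : ℤ) := by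
          have := Int.natCast_dvd_natCast.2 hdv
          rwa [Int.toNat_of_nonneg (by omega)] at this
        rw [if_pos hdv, if_pos h2]
        exact gR_le R d hd.1
      · rw [if_neg hdv]
        split_ifs <;> linarith
    · rw [abs_zero]
      apply sum_nonneg
      intro d _
      split_ifs <;> linarith
  refine (sum_le_sum h1).trans ?_
  rw [sum_comm]
  have h2 : ∀ d ∈ Icc 1 R, ∑ n ∈ Ioc y' y, (if (d : ℤ) ∣ v - (n : ℤ) then bR R else 0) ≤
      bR R * (((y - y' : ℕ) : ℝ) * (1 / d) + 1) := by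
    intro d hd
    rw [mem_Icc] at hd
    rw [← sum_filter, sum_const, nsmul_eq_mul, mul_comm]
    apply mul_le_mul_of_nonneg_left _ (by linarith)
    have hd0 : (0 : ℤ) < d := by exact_mod_cast hd.1
    have h3 : (Ioc y' y).filter (fun n : ℕ => (d : ℤ) ∣ v - (n : ℤ)) =
        (Ioc y' y).filter (fun n => n ≡ (v % d).toNat [MOD d]) := by
      apply filter_congr
      intro n _
      have h4 : (0 : ℤ) ≤ v % d := Int.emod_nonneg _ hd0.ne'
      rw [← Int.natCast_modEq_iff, Int.toNat_of_nonneg h4]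
      constructor
      · intro h
        have h5 : (n : ℤ) ≡ v [ZMOD d] := by
          rw [Int.modEq_iff_dvd]
          exact h
        exact h5.trans (Int.mod_modEq _ _).symm
      · intro h
        have h5 : (n : ℤ) ≡ v [ZMOD d] := h.trans (Int.mod_modEq _ _)
        exact h5.dvd
    rw [h3]
    have := card_ap y' y d (v % d).toNat
    rw [mul_one_div]
    exact this
  refine (sum_le_sum h2).trans ?_
  rw [← mul_sum]
  apply mul_le_mul_of_nonneg_left _ (by linarith)
  rw [sum_add_distrib, ← mul_sum, sum_const, Nat.card_Icc, Nat.add_sub_cancel, nsmul_eq_mul, mul_one]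
  exact add_le_add (mul_le_mul_of_nonneg_left (harm0 R R le_rfl) (Nat.cast_nonneg _)) le_rfl

end Pool.Agent.U856.EH
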