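import Pool.Agent.U856.EH.M10

set_option autoImplicit false

/-! From the function of von Mangoldt to the primes: summation by parts. -/

namespace Pool.Agent.U856.EH
open Finset
open Pool.Agent.W93.LV

/-- the weighted sum of the discrepancies `D` of the residues `b + h q`, for the lengths `y q` -/
noncomputable def wt (D : ℕ → ℕ → ℤ → ℝ) (lam : ℕ → ℝ) (y : ℕ → ℕ) (h : ℕ → ℤ) (Q : ℕ) (b : ℤ) : ℝ :=
  ∑ q ∈ (Icc 1 Q).filter (fun q : ℕ => Int.gcd (b + h q) q = 1), lam q * D (y q) q (b + h q)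

/-- `ψ(y; q, b) - y / φ(q)` -/
noncomputable def DS (y q : ℕ) (b : ℤ) : ℝ := FZ (fun n => ArithmeticFunction.vonMangoldt n) y q b - (y : ℝ) / Nat.totient q

/-- the indicator function of the primes -/
noncomputable def pr (n : ℕ) : ℝ := if n.Prime then 1 else 0

/-- the logarithmic integral -/
noncomputable def li (y : ℕ) : ℝ := if 2 ≤ y then ∫ t in (2 : ℝ)..y, 1 / Real.log t else 0

/-- `π(y; q, b) - li y / φ(q)` -/
noncomputable def DP (y q : ℕ) (b : ℤ) : ℝ := FZ pr y q b - li y / Nat.totient q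

lemma WH_wt (lam : ℕ → ℝ) (y : ℕ → ℕ) (h : ℕ → ℤ) (Q : ℕ) (b : ℤ) : WH lam y h Q b = wt DS lam y h Q b := rfl

lemma abel (c s : ℕ → ℝ) (M : ℕ) (hM : 1 ≤ M) : ∑ n ∈ Icc 2 M, c n * (s n - s (n - 1)) =
    ∑ n ∈ Icc 2 M, (c n - c (n + 1)) * (s n - s 1) + c (M + 1) * (s M - s 1) := by
  induction M, hM using Nat.le_induction with
  | base => simp
  | succ M hM ih =>
    rw [sum_Icc_succ_top (by omega), sum_Icc_succ_top (by omega), ih, Nat.add_sub_cancel]
    ring

lemma abel_le (c s : ℕ → ℝ) (M : ℕ) (hM : 1 ≤ M) (S : ℝ) (hc : ∀ n, 2 ≤ n → c (n + 1) ≤ c n) (hc0 : ∀ n, 2 ≤ n → 0 ≤ c n)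
    (hS : ∀ n, 1 ≤ n → n ≤ M → |s n| ≤ S) : |∑ n ∈ Icc 2 M, c n * (s n - s (n - 1))| ≤ 2 * c 2 * S := by
  rw [abel c s M hM]
  have h1 : ∀ n, 1 ≤ n → n ≤ M → |s n - s 1| ≤ 2 * S := by
    intro n h1 h2
    refine (abs_sub _ _).trans ?_
    have e1 := hS n h1 h2
    have e2 := hS 1 le_rfl hM
    linarith
  have h2 : |∑ n ∈ Icc 2 M, (c n - c (n + 1)) * (s n - s 1)| ≤ (∑ n ∈ Icc 2 M, (c n - c (n + 1))) * (2 * S) := by
    rw [sum_mul]
    refine (abs_sum_le_sum_abs _ _).trans (sum_le_sum fun n hn => ?_)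
    rw [mem_Icc] at hn
    rw [abs_mul, abs_of_nonneg (by linarith [hc n hn.1])]
    exact mul_le_mul_of_nonneg_left (h1 n (by omega) hn.2) (by linarith [hc n hn.1])
  have h3 : |c (M + 1) * (s M - s 1)| ≤ c (M + 1) * (2 * S) := by
    rw [abs_mul, abs_of_nonneg (hc0 _ (by omega))]
    exact mul_le_mul_of_nonneg_left (h1 M hM le_rfl) (hc0 _ (by omega))
  have h4 : ∑ n ∈ Icc 2 M, (c n - c (n + 1)) + c (M + 1) = c 2 := by
    clear h1 h2 h3 hS
    induction M, hM using Nat.le_induction with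
    | base => simp
    | succ M hM ih =>
      rw [sum_Icc_succ_top (by omega)]
      linarith
  refine (abs_add_le _ _).trans ?_
  calc _ ≤ (∑ n ∈ Icc 2 M, (c n - c (n + 1))) * (2 * S) + c (M + 1) * (2 * S) := add_le_add h2 h3
    _ = (∑ n ∈ Icc 2 M, (c n - c (n + 1)) + c (M + 1)) * (2 * S) := by ring
    _ = _ := by rw [h4]; ring

/-- the sum of `1 / log n` -/
noncomputable def LIs (y : ℕ) : ℝ := ∑ n ∈ Icc 2 y, 1 / Real.log n

lemma log2_pos : 0 < Real.log 2 := Real.log_pos (by norm_num)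

lemma inv_log2 : 1 / Real.log 2 ≤ 3 / 2 := by
  rw [div_le_div_iff₀ log2_pos (by norm_num)]
  linarith [Real.log_two_gt_d9]

lemma inv_log_anti (y : ℕ) : AntitoneOn (fun t : ℝ => 1 / Real.log t) (Set.Icc (2 : ℝ) y) := by
  intro a ha b hb hab
  have h1 : 0 < Real.log a := Real.log_pos (by linarith [ha.1])
  exact one_div_le_one_div_of_le h1 (Real.log_le_log (by linarith [ha.1]) hab)

lemma li_diff (y : ℕ) : |LIs y - li y| ≤ 2 := by
  unfold LIs li
  split_ifs with h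
  · have h1 := AntitoneOn.integral_le_sum_Ico h (f := fun t : ℝ => 1 / Real.log t) (by exact_mod_cast inv_log_anti y)
    have h2 := AntitoneOn.sum_le_integral_Ico h (f := fun t : ℝ => 1 / Real.log t) (by exact_mod_cast inv_log_anti y)
    have h3 : ∑ n ∈ Icc 2 y, 1 / Real.log n = ∑ n ∈ Ico 2 y, 1 / Real.log (n : ℝ) + 1 / Real.log y := by
      have e0 : Icc 2 y = Ico 2 (y + 1) := by
        ext n
        rw [mem_Icc, mem_Ico]
        omega
      rw [e0, sum_Ico_succ_top h]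
    have h4 : ∑ n ∈ Icc 2 y, 1 / Real.log n = 1 / Real.log 2 + ∑ n ∈ Ico 2 y, 1 / Real.log ((n + 1 : ℕ) : ℝ) := by
      rw [sum_Ico_add' (fun n : ℕ => 1 / Real.log (n : ℝ)) 2 y 1, ← Finset.insert_Icc_add_one_left_eq_Icc h]
      rw [sum_insert (by simp)]
      congr 1
    have h5 : 0 ≤ 1 / Real.log y := by
      have := Real.log_natCast_nonneg y
      positivity
    have h6 := inv_log2
    have e : ((2 : ℕ) : ℝ) = 2 := by norm_num
    rw [e] at h1 h2
    rw [abs_le]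
    constructor
    · rw [h3]; linarith
    · rw [h4]; linarith
  · rw [Icc_eq_empty (by omega)]
    simp

end Pool.Agent.U856.EH
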