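import Pool.Agent.U856.EH.M12

set_option autoImplicit false

/-! From the function of von Mangoldt to the primes: the prime powers. -/

namespace Pool.Agent.U856.EH
open Finset
open Pool.Agent.W93.LV

/-- the proper prime powers -/
noncomputable def PPs (X : ℕ) : Finset ℕ := (Icc 1 X).filter (fun n => IsPrimePow n ∧ ¬ n.Prime)

/-- `Λ(n) / log n` minus the indicator function of the primes -/
noncomputable def rr (n : ℕ) : ℝ := ArithmeticFunction.vonMangoldt n / Real.log n - pr n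

lemma rr_bound (n X : ℕ) (hn : n ∈ Icc 2 X) : |rr n| ≤ if n ∈ PPs X then 1 else 0 := by
  rw [mem_Icc] at hn
  have hlog : 0 < Real.log n := Real.log_pos (by exact_mod_cast (by omega : 1 < n))
  unfold rr pr
  by_cases h1 : n.Prime
  · have h2 : n ∉ PPs X := by
      unfold PPs
      rw [mem_filter]
      tauto
    rw [if_pos h1, if_neg h2, ArithmeticFunction.vonMangoldt_apply_prime h1, div_self hlog.ne']
    simp
  · rw [if_neg h1, sub_zero]
    by_cases h2 : IsPrimePow n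
    · have h3 : n ∈ PPs X := by
        unfold PPs
        rw [mem_filter, mem_Icc]
        exact ⟨⟨by omega, hn.2⟩, h2, h1⟩
      rw [if_pos h3, abs_of_nonneg (div_nonneg ArithmeticFunction.vonMangoldt_nonneg hlog.le), div_le_one hlog]
      exact ArithmeticFunction.vonMangoldt_le_log
    · have h3 : ArithmeticFunction.vonMangoldt n = 0 := by
        rw [ArithmeticFunction.vonMangoldt_eq_zero_iff]
        exact h2
      rw [h3, zero_div, abs_zero]
      split_ifs <;> norm_num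

lemma FZ_sum (g : ℕ → ℝ) (y q : ℕ) (b : ℤ) : FZ g y q b = ∑ n ∈ Icc 1 y, if (n : ℤ) ≡ b [ZMOD q] then g n else 0 := by
  unfold FZ
  rw [sum_filter]

lemma FZ_succ (g : ℕ → ℝ) (y q : ℕ) (b : ℤ) : FZ g (y + 1) q b = FZ g y q b + if ((y + 1 : ℕ) : ℤ) ≡ b [ZMOD q] then g (y + 1) else 0 := by
  rw [FZ_sum, FZ_sum, sum_Icc_succ_top (by omega)]

lemma DS_diff (n q : ℕ) (b : ℤ) (hn : 1 ≤ n) : DS n q b - DS (n - 1) q b =
    (if (n : ℤ) ≡ b [ZMOD q] then ArithmeticFunction.vonMangoldt n else 0) - 1 / Nat.totient q := by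
  obtain ⟨k, rfl⟩ : ∃ k, n = k + 1 := ⟨n - 1, by omega⟩
  unfold DS
  rw [Nat.add_sub_cancel, FZ_succ]
  push_cast
  ring

lemma Icc1_split (g : ℕ → ℝ) (y : ℕ) (h : g 1 = 0) : ∑ n ∈ Icc 1 y, g n = ∑ n ∈ Icc 2 y, g n := by
  rcases Nat.eq_zero_or_pos y with h0 | h0
  · subst h0; simp
  · rw [← Finset.insert_Icc_add_one_left_eq_Icc h0, sum_insert (by simp), h, zero_add]
    rfl

lemma point (Y M q : ℕ) (b : ℤ) (h : Y ≤ M) :
    ∑ n ∈ Icc 2 M, (1 / Real.log n) * (DS (min n Y) q b - DS (min (n - 1) Y) q b) =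
    DP Y q b + ∑ n ∈ (Icc 2 Y).filter (fun n : ℕ => (n : ℤ) ≡ b [ZMOD q]), rr n - (LIs Y - li Y) * (1 / Nat.totient q) := by
  have e1 : ∑ n ∈ Icc 2 M, (1 / Real.log n) * (DS (min n Y) q b - DS (min (n - 1) Y) q b) =
      ∑ n ∈ Icc 2 Y, (1 / Real.log n) * ((if (n : ℤ) ≡ b [ZMOD q] then ArithmeticFunction.vonMangoldt n else 0) - 1 / Nat.totient q) := by
    have e2 : Icc 2 Y = (Icc 2 M).filter (fun n => n ≤ Y) := by
      ext n
      rw [mem_filter, mem_Icc, mem_Icc]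
      omega
    rw [e2, sum_filter]
    apply sum_congr rfl
    intro n hn
    rw [mem_Icc] at hn
    split_ifs with h1
    · rw [min_eq_left h1, min_eq_left (by omega), DS_diff n q b (by omega)]
      simp [*]
    · rw [min_eq_left h1, min_eq_left (by omega), DS_diff n q b (by omega)]
      simp [*]
    · rw [min_eq_right (by omega), min_eq_right (by omega), sub_self, mul_zero]
  rw [e1]
  unfold DP LIs
  rw [FZ_sum, Icc1_split _ _ (by
    have : pr 1 = 0 := by unfold pr; rw [if_neg Nat.not_prime_one]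
    rw [this]; split_ifs <;> rfl), sum_filter, sub_mul (∑ n ∈ Icc 2 Y, 1 / Real.log n)]
  have e3 : ∑ n ∈ Icc 2 Y, (1 / Real.log n) * ((if (n : ℤ) ≡ b [ZMOD q] then ArithmeticFunction.vonMangoldt n else 0) - 1 / Nat.totient q) =
      ∑ n ∈ Icc 2 Y, (if (n : ℤ) ≡ b [ZMOD q] then pr n else 0) + ∑ n ∈ Icc 2 Y, (if (n : ℤ) ≡ b [ZMOD q] then rr n else 0) -
      (∑ n ∈ Icc 2 Y, 1 / Real.log n) * (1 / Nat.totient q) := by
    rw [sum_mul, ← sum_add_distrib, ← sum_sub_distrib]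
    apply sum_congr rfl
    intro n _
    split_ifs
    · unfold rr; ring
    · ring
  rw [e3]
  ring

lemma WP_le (lam : ℕ → ℝ) (Y : ℕ → ℕ) (h : ℕ → ℤ) (Q : ℕ) (b : ℤ) (M : ℕ) (S : ℝ) (hM : 1 ≤ M) (hY : ∀ q, Y q ≤ M)
    (hS : ∀ n, 1 ≤ n → n ≤ M → |WH lam (fun q => min n (Y q)) h Q b| ≤ S) :
    |wt DP lam Y h Q b| ≤ 3 * S + ∑ q ∈ Icc 1 Q, |lam q| * (((PPs M).filter (fun m : ℕ => (m : ℤ) ≡ b + h q [ZMOD q])).card : ℝ) +
      ∑ q ∈ Icc 1 Q, 2 * (|lam q| * (1 / Nat.totient q)) := by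
  obtain ⟨J, hJ⟩ : ∃ J, J = (Icc 1 Q).filter (fun q : ℕ => Int.gcd (b + h q) q = 1) := ⟨_, rfl⟩
  have hS0 : 0 ≤ S := (abs_nonneg _).trans (hS 1 le_rfl hM)
  have e1 : ∑ n ∈ Icc 2 M, (1 / Real.log n) * (WH lam (fun q => min n (Y q)) h Q b - WH lam (fun q => min (n - 1) (Y q)) h Q b) =
      ∑ q ∈ J, lam q * ∑ n ∈ Icc 2 M, (1 / Real.log n) * (DS (min n (Y q)) q (b + h q) - DS (min (n - 1) (Y q)) q (b + h q)) := by
    simp only [WH_wt]
    unfold wt
    rw [← hJ]
    simp only [← sum_sub_distrib, mul_sum]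
    rw [sum_comm]
    apply sum_congr rfl
    intro q _
    apply sum_congr rfl
    intro n _
    ring
  have e2 : ∑ q ∈ J, lam q * ∑ n ∈ Icc 2 M, (1 / Real.log n) * (DS (min n (Y q)) q (b + h q) - DS (min (n - 1) (Y q)) q (b + h q)) =
      wt DP lam Y h Q b + (∑ q ∈ J, lam q * ∑ n ∈ (Icc 2 (Y q)).filter (fun n : ℕ => (n : ℤ) ≡ b + h q [ZMOD q]), rr n) -
      ∑ q ∈ J, lam q * ((LIs (Y q) - li (Y q)) * (1 / Nat.totient q)) := by
    unfold wt
    rw [← hJ, ← sum_add_distrib, ← sum_sub_distrib]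
    apply sum_congr rfl
    intro q _
    rw [point (Y q) M q (b + h q) (hY q)]
    ring
  have e3 : |∑ n ∈ Icc 2 M, (1 / Real.log n) * (WH lam (fun q => min n (Y q)) h Q b - WH lam (fun q => min (n - 1) (Y q)) h Q b)| ≤ 3 * S := by
    have f1 := abel_le (fun n => 1 / Real.log n) (fun n => WH lam (fun q => min n (Y q)) h Q b) M hM S (by
      intro n hn
      apply one_div_le_one_div_of_le
      · exact Real.log_pos (by exact_mod_cast (by omega : 1 < n))
      · exact Real.log_le_log (by exact_mod_cast (by omega : 0 < n)) (by exact_mod_cast Nat.le_succ n)) (by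
      intro n _
      have := Real.log_natCast_nonneg n
      positivity) hS
    refine f1.trans ?_
    have f2 := inv_log2
    have f3 : ((2 : ℕ) : ℝ) = 2 := by norm_num
    simp only [f3]
    nlinarith
  rw [e1, e2] at e3
  have e4 : |∑ q ∈ J, lam q * ∑ n ∈ (Icc 2 (Y q)).filter (fun n : ℕ => (n : ℤ) ≡ b + h q [ZMOD q]), rr n| ≤
      ∑ q ∈ Icc 1 Q, |lam q| * (((PPs M).filter (fun m : ℕ => (m : ℤ) ≡ b + h q [ZMOD q])).card : ℝ) := by
    refine (abs_sum_le_sum_abs _ _).trans ?_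
    rw [hJ]
    apply Pool.Agent.TH212.EH.sum_filter_le
    · intro q _
      rw [abs_mul]
      apply mul_le_mul_of_nonneg_left _ (abs_nonneg _)
      refine (abs_sum_le_sum_abs _ _).trans ?_
      have f1 : ∑ n ∈ (Icc 2 (Y q)).filter (fun n : ℕ => (n : ℤ) ≡ b + h q [ZMOD q]), |rr n| ≤
          ∑ n ∈ (Icc 2 (Y q)).filter (fun n : ℕ => (n : ℤ) ≡ b + h q [ZMOD q]), (if n ∈ PPs M then (1 : ℝ) else 0) := by
        apply sum_le_sum
        intro n hn
        rw [mem_filter, mem_Icc] at hn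
        exact rr_bound n M (mem_Icc.2 ⟨hn.1.1, hn.1.2.trans (hY q)⟩)
      refine f1.trans ?_
      rw [← sum_filter, sum_const, nsmul_eq_mul, mul_one]
      apply Nat.cast_le.2
      apply card_le_card
      intro n hn
      rw [mem_filter, mem_filter] at hn
      rw [mem_filter]
      exact ⟨hn.2, hn.1.2⟩
    · intro q _
      positivity
  have e5 : |∑ q ∈ J, lam q * ((LIs (Y q) - li (Y q)) * (1 / Nat.totient q))| ≤ ∑ q ∈ Icc 1 Q, 2 * (|lam q| * (1 / Nat.totient q)) := by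
    refine (abs_sum_le_sum_abs _ _).trans ?_
    rw [hJ]
    apply Pool.Agent.TH212.EH.sum_filter_le
    · intro q _
      rw [abs_mul, abs_mul, abs_of_nonneg (by positivity : (0 : ℝ) ≤ 1 / Nat.totient q)]
      have f1 := li_diff (Y q)
      calc |lam q| * (|LIs (Y q) - li (Y q)| * (1 / Nat.totient q)) ≤ |lam q| * (2 * (1 / Nat.totient q)) := by gcongr
        _ = _ := by ring
    · intro q _
      positivity
  obtain ⟨P, hP⟩ : ∃ P, P = wt DP lam Y h Q b := ⟨_, rfl⟩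
  rw [← hP] at e3 ⊢
  rw [abs_le] at e3 e4 e5
  rw [abs_le]
  constructor
  · linarith [e3.1, e4.2, e5.1]
  · linarith [e3.2, e4.1, e5.2]

end Pool.Agent.U856.EH
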