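import Pool.Agent.U856.EH.M13

set_option autoImplicit false

/-! The number of the divisors of the shifted proper prime powers. -/

namespace Pool.Agent.U856.EH
open Finset
open Pool.Agent.W93.LV
open Pool.Agent.TH212.EH (tau_pow_div)

lemma PPs_card (X : ℕ) : (PPs X).card ≤ Nat.sqrt X * Nat.log 2 X := by
  have h1 : PPs X ⊆ (Icc 1 (Nat.sqrt X) ×ˢ Icc 1 (Nat.log 2 X)).image (fun t => t.1 ^ t.2) := by
    intro n hn
    unfold PPs at hn
    rw [mem_filter, mem_Icc] at hn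
    obtain ⟨⟨hn1, hn2⟩, h2, h3⟩ := hn
    rw [isPrimePow_nat_iff] at h2
    obtain ⟨p, k, hp, hk, rfl⟩ := h2
    rw [mem_image]
    refine ⟨(p, k), ?_, rfl⟩
    have hk2 : 2 ≤ k := by
      by_contra h4
      have h5 : k = 1 := by omega
      subst h5
      rw [pow_one] at h3
      exact h3 hp
    rw [mem_product, mem_Icc, mem_Icc]
    refine ⟨⟨hp.one_lt.le, ?_⟩, hk, ?_⟩
    · rw [Nat.le_sqrt]
      calc p * p = p ^ 2 := by ring
        _ ≤ p ^ k := Nat.pow_le_pow_right hp.pos hk2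
        _ ≤ X := hn2
    · apply Nat.le_log_of_pow_le (by norm_num)
      exact (Nat.pow_le_pow_left hp.two_le k).trans hn2
  refine (card_le_card h1).trans (card_image_le.trans ?_)
  rw [card_product, Nat.card_Icc, Nat.card_Icc]
  simp

lemma PPs_card_real (X : ℕ) (hX : 1 ≤ X) : ((PPs X).card : ℝ) ≤ √(X : ℝ) * (2 * Real.log X) := by
  have h1 : ((PPs X).card : ℝ) ≤ (Nat.sqrt X : ℝ) * (Nat.log 2 X : ℝ) := by exact_mod_cast PPs_card X
  refine h1.trans ?_
  apply mul_le_mul (Real.nat_sqrt_le_real_sqrt) _ (Nat.cast_nonneg _) (Real.sqrt_nonneg _)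
  have h2 : ((2 : ℝ)) ^ (Nat.log 2 X) ≤ X := by exact_mod_cast Nat.pow_log_le_self 2 (by omega : X ≠ 0)
  have h3 := Real.log_le_log (by positivity) h2
  rw [Real.log_pow] at h3
  have h4 : (1 : ℝ) / 2 ≤ Real.log 2 := by linarith [Real.log_two_gt_d9]
  have h5 : (0 : ℝ) ≤ (Nat.log 2 X : ℝ) := Nat.cast_nonneg _
  nlinarith

/-- moments of the number of divisors -/
lemma tau_mom (m X : ℕ) : ∑ n ∈ Icc 1 X, (n.divisors.card : ℝ) ^ m ≤ X * (1 + Real.log X) ^ (2 ^ m) := by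
  refine le_trans ?_ (mul_le_mul_of_nonneg_left (tau_pow_div m X) (Nat.cast_nonneg X))
  rw [mul_sum]
  apply sum_le_sum
  intro n hn
  rw [mem_Icc] at hn
  have hn0 : (0 : ℝ) < n := by exact_mod_cast hn.1
  rw [mul_div_assoc', le_div_iff₀ hn0, mul_comm]
  apply mul_le_mul_of_nonneg_right _ (by positivity)
  exact_mod_cast hn.2

lemma shift_mom (m X Y : ℕ) (c : ℤ) (hc : |c| + X ≤ Y) :
    ∑ n ∈ (Icc 1 X).filter (fun n : ℕ => (n : ℤ) ≠ c), ((((n : ℤ) - c).natAbs.divisors.card : ℝ)) ^ m ≤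
      2 * (Y * (1 + Real.log Y) ^ (2 ^ m)) := by
  have h0 : ∀ S : Finset ℕ, (∀ n ∈ S, 1 ≤ n ∧ n ≤ X ∧ (n : ℤ) ≠ c) → Set.InjOn (fun n : ℕ => ((n : ℤ) - c).natAbs) S →
      ∑ n ∈ S, ((((n : ℤ) - c).natAbs.divisors.card : ℝ)) ^ m ≤ Y * (1 + Real.log Y) ^ (2 ^ m) := by
    intro S hS hinj
    refine le_trans ?_ (tau_mom m Y)
    have e1 : ∑ n ∈ S, ((((n : ℤ) - c).natAbs.divisors.card : ℝ)) ^ m =
        ∑ k ∈ S.image (fun n : ℕ => ((n : ℤ) - c).natAbs), (k.divisors.card : ℝ) ^ m := by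
      rw [sum_image hinj]
    rw [e1]
    apply sum_le_sum_of_subset_of_nonneg
    · intro k hk
      rw [mem_image] at hk
      obtain ⟨n, hn, rfl⟩ := hk
      obtain ⟨h1, h2, h3⟩ := hS n hn
      rw [mem_Icc]
      constructor
      · omega
      · have : (|c| : ℤ) = (c.natAbs : ℤ) := by rw [Int.abs_eq_natAbs]
        omega
    · intro k _ _
      positivity
  have h1 : (Icc 1 X).filter (fun n : ℕ => (n : ℤ) ≠ c) = (Icc 1 X).filter (fun n : ℕ => (n : ℤ) < c) ∪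
      (Icc 1 X).filter (fun n : ℕ => c < (n : ℤ)) := by
    ext n
    simp only [mem_union, mem_filter, mem_Icc]
    constructor
    · rintro ⟨h2, h3⟩
      rcases lt_or_gt_of_ne h3 with h4 | h4
      · exact Or.inl ⟨h2, h4⟩
      · exact Or.inr ⟨h2, h4⟩
    · rintro (⟨h2, h3⟩ | ⟨h2, h3⟩)
      · exact ⟨h2, h3.ne⟩
      · exact ⟨h2, h3.ne'⟩
  have h2 : Disjoint ((Icc 1 X).filter (fun n : ℕ => (n : ℤ) < c)) ((Icc 1 X).filter (fun n : ℕ => c < (n : ℤ))) := by
    rw [disjoint_left]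
    intro n h3 h4
    rw [mem_filter] at h3 h4
    omega
  rw [h1, sum_union h2, two_mul]
  apply add_le_add
  · apply h0
    · intro n hn
      rw [mem_filter, mem_Icc] at hn
      exact ⟨hn.1.1, hn.1.2, hn.2.ne⟩
    · intro n hn k hk hnk
      simp only [coe_filter, mem_Icc, Set.mem_setOf_eq] at hn hk
      simp only at hnk
      omega
  · apply h0
    · intro n hn
      rw [mem_filter, mem_Icc] at hn
      exact ⟨hn.1.1, hn.1.2, hn.2.ne'⟩
    · intro n hn k hk hnk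
      simp only [coe_filter, mem_Icc, Set.mem_setOf_eq] at hn hk
      simp only at hnk
      omega

/-- the number of the pairs of a modulus and a proper prime power in the class of `c`, with weights -/
lemma pp_sum (T X Y Q : ℕ) (c : ℤ) (hc : |c| + X ≤ Y) :
    ∑ q ∈ Icc 1 Q, (q.divisors.card : ℝ) ^ T * (((PPs X).filter (fun m : ℕ => (m : ℤ) ≡ c [ZMOD q])).card : ℝ) ≤
      √((PPs X).card : ℝ) * √(2 * (Y * (1 + Real.log Y) ^ (2 ^ (2 * (T + 1))))) + Q * (1 + Real.log Q) ^ (2 ^ T) := by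
  have e1 : ∀ q : ℕ, (((PPs X).filter (fun m : ℕ => (m : ℤ) ≡ c [ZMOD q])).card : ℝ) ≤
      (((PPs X).filter (fun m : ℕ => (m : ℤ) ≠ c)).filter (fun m : ℕ => (m : ℤ) ≡ c [ZMOD q])).card + 1 := by
    intro q
    have f1 : (PPs X).filter (fun m : ℕ => (m : ℤ) ≡ c [ZMOD q]) ⊆
        (((PPs X).filter (fun m : ℕ => (m : ℤ) ≠ c)).filter (fun m : ℕ => (m : ℤ) ≡ c [ZMOD q])) ∪
        (PPs X).filter (fun m : ℕ => (m : ℤ) = c) := by
      intro m hm
      rw [mem_filter] at hm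
      rw [mem_union, mem_filter, mem_filter, mem_filter]
      by_cases h : (m : ℤ) = c
      · exact Or.inr ⟨hm.1, h⟩
      · exact Or.inl ⟨⟨hm.1, h⟩, hm.2⟩
    have f2 : ((PPs X).filter (fun m : ℕ => (m : ℤ) = c)).card ≤ 1 := by
      rw [card_le_one]
      intro a ha b hb
      rw [mem_filter] at ha hb
      have := ha.2.trans hb.2.symm
      exact_mod_cast this
    have f3 := (card_le_card f1).trans (card_union_le _ _)
    exact_mod_cast f3.trans (Nat.add_le_add_left f2 _)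
  have e2 : ∑ q ∈ Icc 1 Q, (q.divisors.card : ℝ) ^ T * (((PPs X).filter (fun m : ℕ => (m : ℤ) ≡ c [ZMOD q])).card : ℝ) ≤
      ∑ q ∈ Icc 1 Q, (q.divisors.card : ℝ) ^ T *
        ((((PPs X).filter (fun m : ℕ => (m : ℤ) ≠ c)).filter (fun m : ℕ => (m : ℤ) ≡ c [ZMOD q])).card : ℝ) +
      ∑ q ∈ Icc 1 Q, (q.divisors.card : ℝ) ^ T := by
    rw [← sum_add_distrib]
    apply sum_le_sum
    intro q _
    have := e1 q
    calc _ ≤ (q.divisors.card : ℝ) ^ T *
          ((((PPs X).filter (fun m : ℕ => (m : ℤ) ≠ c)).filter (fun m : ℕ => (m : ℤ) ≡ c [ZMOD q])).card + 1) :=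
          mul_le_mul_of_nonneg_left this (by positivity)
      _ = _ := by ring
  refine e2.trans (add_le_add ?_ (tau_mom T Q))
  have e3 : ∑ q ∈ Icc 1 Q, (q.divisors.card : ℝ) ^ T *
        ((((PPs X).filter (fun m : ℕ => (m : ℤ) ≠ c)).filter (fun m : ℕ => (m : ℤ) ≡ c [ZMOD q])).card : ℝ) =
      ∑ m ∈ (PPs X).filter (fun m : ℕ => (m : ℤ) ≠ c), ∑ q ∈ (Icc 1 Q).filter (fun q : ℕ => (m : ℤ) ≡ c [ZMOD q]), (q.divisors.card : ℝ) ^ T := by
    have f1 : ∀ q ∈ Icc 1 Q, (q.divisors.card : ℝ) ^ T *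
        ((((PPs X).filter (fun m : ℕ => (m : ℤ) ≠ c)).filter (fun m : ℕ => (m : ℤ) ≡ c [ZMOD q])).card : ℝ) =
        ∑ m ∈ (PPs X).filter (fun m : ℕ => (m : ℤ) ≠ c), if (m : ℤ) ≡ c [ZMOD q] then (q.divisors.card : ℝ) ^ T else 0 := by
      intro q _
      rw [← sum_filter, sum_const, nsmul_eq_mul, mul_comm]
    rw [sum_congr rfl f1, sum_comm]
    apply sum_congr rfl
    intro m _
    rw [sum_filter]
  have e4 : ∀ m ∈ (PPs X).filter (fun m : ℕ => (m : ℤ) ≠ c), ∑ q ∈ (Icc 1 Q).filter (fun q : ℕ => (m : ℤ) ≡ c [ZMOD q]), (q.divisors.card : ℝ) ^ T ≤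
      1 * (((m : ℤ) - c).natAbs.divisors.card : ℝ) ^ (T + 1) := by
    intro m hm
    rw [mem_filter] at hm
    have hk : ((m : ℤ) - c).natAbs ≠ 0 := by
      intro h
      apply hm.2
      omega
    have f1 : ∀ q ∈ (Icc 1 Q).filter (fun q : ℕ => (m : ℤ) ≡ c [ZMOD q]), q ∈ ((m : ℤ) - c).natAbs.divisors := by
      intro q hq
      rw [mem_filter] at hq
      rw [Nat.mem_divisors]
      refine ⟨?_, hk⟩
      have f2 := hq.2.symm.dvd
      exact Int.natCast_dvd.1 f2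
    calc ∑ q ∈ (Icc 1 Q).filter (fun q : ℕ => (m : ℤ) ≡ c [ZMOD q]), (q.divisors.card : ℝ) ^ T
        ≤ ∑ q ∈ ((m : ℤ) - c).natAbs.divisors, (q.divisors.card : ℝ) ^ T :=
          sum_le_sum_of_subset_of_nonneg f1 (fun _ _ _ => by positivity)
      _ ≤ ∑ q ∈ ((m : ℤ) - c).natAbs.divisors, (((m : ℤ) - c).natAbs.divisors.card : ℝ) ^ T := by
          apply sum_le_sum
          intro q hq
          apply pow_le_pow_left₀ (Nat.cast_nonneg _)
          exact_mod_cast card_le_card (Nat.divisors_subset_of_dvd hk (Nat.dvd_of_mem_divisors hq))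
      _ = _ := by
          rw [sum_const, nsmul_eq_mul]
          ring
  rw [e3]
  refine (sum_le_sum e4).trans ?_
  refine (Real.sum_mul_le_sqrt_mul_sqrt _ _ _).trans ?_
  simp only [one_pow, sum_const, nsmul_eq_mul, mul_one, ← pow_mul]
  apply mul_le_mul _ _ (Real.sqrt_nonneg _) (Real.sqrt_nonneg _)
  · apply Real.sqrt_le_sqrt
    exact_mod_cast card_le_card (filter_subset _ _)
  · apply Real.sqrt_le_sqrt
    rw [mul_comm (T + 1) 2]
    refine le_trans ?_ (shift_mom (2 * (T + 1)) X Y c hc)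
    apply sum_le_sum_of_subset_of_nonneg
    · intro m hm
      unfold PPs at hm
      rw [mem_filter, mem_filter] at hm
      rw [mem_filter]
      exact ⟨hm.1.1, hm.2⟩
    · intro m _ _
      positivity

end Pool.Agent.U856.EH
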