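import Pool.Agent.U856.EH.M1
import Pool.Agent.H373R2.T7.Cnt

set_option autoImplicit false

/-! The truncated Ramanujan model in arithmetic progressions. -/

namespace Pool.Agent.U856.EH
open Finset
open Pool.Agent.H373R2.T7 (count_class)
open Pool.Agent.TH212.EH (inv_phi)

/-- the local weight -/
noncomputable def fq (q a d : ℕ) : ℝ := if q.gcd d ∣ a then ((q.gcd d : ℕ) : ℝ) else 0

lemma count_two (y q a d : ℕ) (hq : 1 ≤ q) (hd : 1 ≤ d) :
    |((((Icc 1 y).filter (fun n => n ≡ a [MOD q])).filter (fun n => d ∣ n)).card : ℝ) - (y : ℝ) / q * (fq q a d / d)| ≤ 1 := by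
  have hq0 : (0 : ℝ) < q := by exact_mod_cast hq
  have hd0 : (0 : ℝ) < d := by exact_mod_cast hd
  unfold fq
  split_ifs with h
  · have h1 : a ≡ 0 [MOD q.gcd d] := (Nat.modEq_zero_iff_dvd).2 h
    obtain ⟨c, hc1, hc2⟩ := Nat.chineseRemainder' h1
    have hl : 1 ≤ q.lcm d := Nat.lcm_pos (by omega) (by omega)
    have h2 : ((Icc 1 y).filter (fun n => n ≡ a [MOD q])).filter (fun n => d ∣ n) =
        (Icc 1 y).filter (fun n => n ≡ c [MOD (q.lcm d)]) := by
      rw [filter_filter]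
      apply filter_congr
      intro n _
      constructor
      · rintro ⟨h3, h4⟩
        have h5 : (q : ℤ) ∣ (c : ℤ) - n := (h3.trans hc1.symm).dvd
        have h6 : (d : ℤ) ∣ (c : ℤ) - n := by
          have h7 : n ≡ c [MOD d] := ((Nat.modEq_zero_iff_dvd).2 h4).trans hc2.symm
          exact h7.dvd
        apply (Nat.modEq_iff_dvd).2
        have := Int.coe_lcm_dvd h5 h6
        exact this
      · intro h3
        have h4 : n ≡ c [MOD q] := h3.of_dvd (Nat.dvd_lcm_left q d)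
        have h5 : n ≡ c [MOD d] := h3.of_dvd (Nat.dvd_lcm_right q d)
        exact ⟨h4.trans hc1, (Nat.modEq_zero_iff_dvd).1 (h5.trans hc2)⟩
    rw [h2]
    have h3 := count_class y (q.lcm d) c hl
    have h4 : (y : ℝ) / ((q.lcm d : ℕ) : ℝ) = (y : ℝ) / q * (((q.gcd d : ℕ) : ℝ) / d) := by
      have h5 : ((q.gcd d : ℕ) : ℝ) * ((q.lcm d : ℕ) : ℝ) = q * d := by exact_mod_cast Nat.gcd_mul_lcm q d
      have h6 : (0 : ℝ) < ((q.lcm d : ℕ) : ℝ) := by exact_mod_cast hl
      rw [div_mul_div_comm, ← h5, div_eq_div_iff h6.ne' (by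
        apply ne_of_gt
        rw [h5]; positivity)]
      ring
    rw [← h4]
    exact h3
  · have h2 : ((Icc 1 y).filter (fun n => n ≡ a [MOD q])).filter (fun n => d ∣ n) = ∅ := by
      apply filter_eq_empty_iff.2
      intro n hn hdn
      rw [mem_filter] at hn
      apply h
      have h3 : n ≡ a [MOD q.gcd d] := hn.2.of_dvd (Nat.gcd_dvd_left q d)
      exact (h3.dvd_iff dvd_rfl).1 ((Nat.gcd_dvd_right q d).trans hdn)
    rw [h2]
    simp

/-- the density of the model in a residue class -/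
noncomputable def PR (R q a : ℕ) : ℝ := ∑ d ∈ Icc 1 R, gR R d * (fq q a d / d)

lemma mR_ap (R y q a : ℕ) (hq : 1 ≤ q) :
    |∑ n ∈ (Icc 1 y).filter (fun n => n ≡ a [MOD q]), mR R n - (y : ℝ) / q * PR R q a| ≤ bR R * R := by
  have h1 : ∑ n ∈ (Icc 1 y).filter (fun n => n ≡ a [MOD q]), mR R n =
      ∑ d ∈ Icc 1 R, gR R d * ((((Icc 1 y).filter (fun n => n ≡ a [MOD q])).filter (fun n => d ∣ n)).card : ℝ) := by
    unfold mR
    simp only [sum_filter]
    rw [← sum_filter, sum_comm]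
    apply sum_congr rfl
    intro d _
    rw [← sum_filter, sum_const, nsmul_eq_mul, mul_comm]
  have h2 : (y : ℝ) / q * PR R q a = ∑ d ∈ Icc 1 R, gR R d * ((y : ℝ) / q * (fq q a d / d)) := by
    unfold PR
    rw [mul_sum]
    apply sum_congr rfl
    intro d _
    ring
  rw [h1, h2, ← sum_sub_distrib]
  refine (abs_sum_le_sum_abs _ _).trans (le_trans ?_ (sum_gR_le R))
  apply sum_le_sum
  intro d hd
  rw [← mul_sub, abs_mul]
  exact mul_le_of_le_one_right (abs_nonneg _) (count_two y q a d hq (mem_Icc.1 hd).1)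

/-- the multiplicative function -/
noncomputable def Gf (q a : ℕ) : ArithmeticFunction ℝ :=
  ⟨fun d => if d = 0 then 0 else (ArithmeticFunction.moebius d : ℝ) * fq q a d, by simp⟩

lemma Gf_apply (q a d : ℕ) (hd : d ≠ 0) : Gf q a d = (ArithmeticFunction.moebius d : ℝ) * fq q a d := by
  unfold Gf
  simp [hd]

lemma Gf_mult (q a : ℕ) : (Gf q a).IsMultiplicative := by
  rw [ArithmeticFunction.IsMultiplicative.iff_ne_zero]
  constructor
  · rw [Gf_apply q a 1 one_ne_zero]
    unfold fq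
    simp
  · intro m n hm hn hmn
    rw [Gf_apply _ _ _ hm, Gf_apply _ _ _ hn, Gf_apply _ _ _ (mul_ne_zero hm hn)]
    rw [ArithmeticFunction.isMultiplicative_moebius.map_mul_of_coprime hmn]
    have h1 : fq q a (m * n) = fq q a m * fq q a n := by
      unfold fq
      rw [Nat.Coprime.gcd_mul q hmn]
      have hc : (q.gcd m).Coprime (q.gcd n) :=
        Nat.Coprime.coprime_dvd_left (Nat.gcd_dvd_right q m) (Nat.Coprime.coprime_dvd_right (Nat.gcd_dvd_right q n) hmn)
      by_cases h2 : q.gcd m ∣ a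
      · by_cases h3 : q.gcd n ∣ a
        · rw [if_pos h2, if_pos h3, if_pos (hc.mul_dvd_of_dvd_of_dvd h2 h3)]
          push_cast
          rfl
        · rw [if_neg h3, if_neg (fun h => h3 ((dvd_mul_left _ _).trans h)), mul_zero]
      · rw [if_neg h2, if_neg (fun h => h2 ((dvd_mul_right _ _).trans h)), zero_mul]
    rw [h1]
    push_cast
    ring

/-- sums over the squarefree divisors -/
lemma sum_sqf (n : ℕ) (hn : n ≠ 0) (F : ℕ → ℝ) :
    ∑ d ∈ n.divisors.filter Squarefree, F d = ∑ S ∈ n.primeFactors.powerset, F (∏ p ∈ S, p) := by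
  rw [Nat.sum_divisors_filter_squarefree hn]
  have h1 : (UniqueFactorizationMonoid.normalizedFactors n).toFinset = n.primeFactors := by
    rw [Nat.factors_eq]
    rfl
  rw [h1]
  apply sum_congr rfl
  intro S _
  congr 1
  rw [Finset.prod_val]
  rfl

lemma sum_mult_div (g : ArithmeticFunction ℝ) (hg : g.IsMultiplicative) (n : ℕ) (hn : n ≠ 0) :
    ∑ d ∈ n.divisors.filter Squarefree, g d = ∏ p ∈ n.primeFactors, (1 + g p) := by
  rw [sum_sqf n hn, prod_one_add]
  apply sum_congr rfl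
  intro S hS
  exact hg.map_prod_of_subset_primeFactors n S (mem_powerset.1 hS)

/-- the local factor -/
noncomputable def cc (a r : ℕ) : ℝ := ∏ p ∈ r.primeFactors, (if p ∣ a then 1 - (p : ℝ) else 1)

lemma inner_sum (q a r : ℕ) (hr : Squarefree r) :
    ∑ d ∈ r.divisors, (ArithmeticFunction.moebius d : ℝ) * fq q a d = if r ∣ q then cc a r else 0 := by
  have hr0 : r ≠ 0 := hr.ne_zero
  have h1 : ∑ d ∈ r.divisors, (ArithmeticFunction.moebius d : ℝ) * fq q a d = ∑ d ∈ r.divisors.filter Squarefree, Gf q a d := by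
    rw [Nat.divisors_filter_squarefree_of_squarefree hr]
    apply sum_congr rfl
    intro d hd
    rw [Gf_apply _ _ _ (Nat.pos_of_mem_divisors hd).ne']
  rw [h1, sum_mult_div _ (Gf_mult q a) r hr0]
  have h2 : ∀ p ∈ r.primeFactors, 1 + Gf q a p = if p ∣ q then (if p ∣ a then 1 - (p : ℝ) else 1) else 0 := by
    intro p hp
    have hpp := Nat.prime_of_mem_primeFactors hp
    rw [Gf_apply _ _ _ hpp.ne_zero, ArithmeticFunction.moebius_apply_prime hpp]
    unfold fq
    by_cases h3 : p ∣ q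
    · rw [Nat.gcd_eq_right h3, if_pos h3]
      split_ifs <;> simp
      ring
    · have h4 : q.gcd p = 1 := by
        rw [Nat.gcd_comm]
        exact (Nat.Prime.coprime_iff_not_dvd hpp).2 h3
      rw [h4, if_neg h3]
      simp
  rw [prod_congr rfl h2]
  by_cases h3 : r ∣ q
  · rw [if_pos h3]
    unfold cc
    apply prod_congr rfl
    intro p hp
    rw [if_pos ((Nat.dvd_of_mem_primeFactors hp).trans h3)]
  · rw [if_neg h3]
    have h4 : ∃ p ∈ r.primeFactors, ¬ p ∣ q := by
      by_contra hcon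
      push Not at hcon
      apply h3
      rw [← Nat.prod_primeFactors_of_squarefree hr]
      apply Finset.prod_primes_dvd
      · intro p hp
        exact (Nat.prime_of_mem_primeFactors hp).prime
      · exact hcon
    obtain ⟨p, hp, hpq⟩ := h4
    apply prod_eq_zero hp
    rw [if_neg hpq]

lemma PR_eq (R q a : ℕ) :
    PR R q a = ∑ r ∈ (Icc 1 R).filter (fun r => Squarefree r ∧ r ∣ q), 1 / (Nat.totient r : ℝ) * cc a r := by
  have h1 : ∀ d ∈ Icc 1 R, gR R d * (fq q a d / d) =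
      ∑ r ∈ Icc 1 R, if Squarefree r ∧ d ∣ r then 1 / (Nat.totient r : ℝ) * ((ArithmeticFunction.moebius d : ℝ) * fq q a d) else 0 := by
    intro d hd
    rw [mem_Icc] at hd
    have hd0 : (0 : ℝ) < d := by exact_mod_cast hd.1
    unfold gR
    rw [← sum_filter]
    simp only [← sum_mul]
    field_simp
  unfold PR
  rw [sum_congr rfl h1, sum_comm, sum_filter]
  apply sum_congr rfl
  intro r hr
  rw [mem_Icc] at hr
  by_cases hs : Squarefree r
  · simp only [hs, true_and]
    rw [← sum_filter, ← mul_sum]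
    have h2 : (Icc 1 R).filter (fun d => d ∣ r) = r.divisors := by
      ext d
      rw [mem_filter, mem_Icc, Nat.mem_divisors]
      constructor
      · rintro ⟨_, h⟩
        exact ⟨h, by omega⟩
      · rintro ⟨h, _⟩
        exact ⟨⟨Nat.pos_of_dvd_of_pos h (by omega), (Nat.le_of_dvd (by omega) h).trans hr.2⟩, h⟩
    rw [h2, inner_sum q a r hs]
    split_ifs <;> simp
  · simp [hs]

lemma totient_prod (S : Finset ℕ) (hS : ∀ p ∈ S, p.Prime) : (Nat.totient (∏ p ∈ S, p) : ℝ) = ∏ p ∈ S, ((p : ℝ) - 1) := by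
  induction S using Finset.induction_on with
  | empty => simp
  | insert p S hp ih =>
    have hpp := hS p (mem_insert_self _ _)
    have hS' : ∀ p ∈ S, p.Prime := fun p hp => hS p (mem_insert_of_mem hp)
    rw [prod_insert hp, prod_insert hp, Nat.totient_mul]
    · push_cast
      rw [ih hS', Nat.totient_prime hpp, Nat.cast_sub hpp.one_le]
      simp
    · apply Nat.Coprime.prod_right
      intro r hr
      rw [Nat.coprime_primes hpp (hS' r hr)]
      rintro rfl
      exact hp hr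

/-- the complete sum -/
lemma full_sum (q a : ℕ) (hq : 1 ≤ q) :
    ∑ r ∈ q.divisors.filter Squarefree, 1 / (Nat.totient r : ℝ) * cc a r =
      if a.Coprime q then (q : ℝ) / Nat.totient q else 0 := by
  rw [sum_sqf q (by omega)]
  have h1 : ∀ S ∈ q.primeFactors.powerset, 1 / (Nat.totient (∏ p ∈ S, p) : ℝ) * cc a (∏ p ∈ S, p) =
      ∏ p ∈ S, ((if p ∣ a then 1 - (p : ℝ) else 1) / ((p : ℝ) - 1)) := by
    intro S hS
    rw [mem_powerset] at hS
    have hSp : ∀ p ∈ S, p.Prime := fun p hp => Nat.prime_of_mem_primeFactors (hS hp)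
    rw [totient_prod S hSp]
    unfold cc
    rw [Nat.primeFactors_prod hSp, prod_div_distrib]
    ring
  rw [sum_congr rfl h1, ← prod_one_add]
  split_ifs with h
  · have h2 : (Nat.totient q : ℝ) = q * ∏ p ∈ q.primeFactors, (1 - (p : ℝ)⁻¹) := by
      have := Nat.totient_eq_mul_prod_factors q
      have h2 : (((Nat.totient q : ℕ) : ℚ) : ℝ) = ((q * ∏ p ∈ q.primeFactors, (1 - (p : ℚ)⁻¹) : ℚ) : ℝ) := by rw [this]
      push_cast at h2
      exact h2
    have hq0 : (0 : ℝ) < q := by exact_mod_cast hq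
    rw [h2, div_mul_eq_div_div, div_self hq0.ne', one_div, ← prod_inv_distrib]
    apply prod_congr rfl
    intro p hp
    have hpp := Nat.prime_of_mem_primeFactors hp
    have hp2 : (2 : ℝ) ≤ p := by exact_mod_cast hpp.two_le
    have h3 : ¬ p ∣ a := by
      intro h4
      have := Nat.dvd_gcd h4 (Nat.dvd_of_mem_primeFactors hp)
      rw [h] at this
      exact hpp.one_lt.ne' (Nat.dvd_one.1 this)
    rw [if_neg h3]
    have h5 : (p : ℝ) - 1 ≠ 0 := by linarith
    have h6 : (p : ℝ) ≠ 0 := by linarith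
    have h7 : 1 - (p : ℝ)⁻¹ ≠ 0 := by
      rw [← one_div, one_sub_div h6]
      exact div_ne_zero h5 h6
    field_simp
    ring
  · obtain ⟨p, hpp, hpa, hpq⟩ := Nat.Prime.not_coprime_iff_dvd.1 h
    have hp2 : (2 : ℝ) ≤ p := by exact_mod_cast hpp.two_le
    have h5 : (p : ℝ) - 1 ≠ 0 := by linarith
    apply prod_eq_zero (Nat.mem_primeFactors.2 ⟨hpp, hpq, by omega⟩)
    rw [if_pos hpa]
    field_simp
    ring

lemma cc_le (a r : ℕ) (hr : 1 ≤ r) : |cc a r| ≤ (r.gcd a : ℕ) := by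
  unfold cc
  rw [abs_prod]
  have h1 : ∀ p ∈ r.primeFactors, |(if p ∣ a then 1 - (p : ℝ) else 1)| ≤ if p ∣ a then (p : ℝ) else 1 := by
    intro p hp
    have hpp := Nat.prime_of_mem_primeFactors hp
    have hp2 : (2 : ℝ) ≤ p := by exact_mod_cast hpp.two_le
    split_ifs
    · rw [abs_le]
      constructor <;> linarith
    · simp
  refine (prod_le_prod (fun _ _ => abs_nonneg _) h1).trans ?_
  rw [← prod_filter]
  have h2 : ∏ p ∈ r.primeFactors.filter (fun p => p ∣ a), p ∣ r.gcd a := by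
    apply Finset.prod_primes_dvd
    · intro p hp
      exact (Nat.prime_of_mem_primeFactors (mem_filter.1 hp).1).prime
    · intro p hp
      rw [mem_filter] at hp
      exact Nat.dvd_gcd (Nat.dvd_of_mem_primeFactors hp.1) hp.2
  have h3 := Nat.le_of_dvd (Nat.gcd_pos_of_pos_left a (by omega)) h2
  rw [← Nat.cast_prod]
  exact_mod_cast h3

/-- the density of the model is close to the density of the primes -/
lemma PR_err (R q a : ℕ) (hq : 1 ≤ q) (ha : 1 ≤ a) :
    |PR R q a - (if a.Coprime q then (q : ℝ) / Nat.totient q else 0)| ≤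
      ∑ r ∈ q.divisors.filter (fun r => R < r), ((r.gcd a : ℕ) : ℝ) / (Nat.totient r : ℝ) := by
  rw [PR_eq R q a, ← full_sum q a hq]
  have h1 : q.divisors.filter Squarefree = (Icc 1 R).filter (fun r => Squarefree r ∧ r ∣ q) ∪
      (q.divisors.filter (fun r => R < r)).filter Squarefree := by
    ext r
    simp only [mem_union, mem_filter, Nat.mem_divisors, mem_Icc]
    constructor
    · rintro ⟨⟨h1, h2⟩, h3⟩
      rcases le_or_gt r R with h4 | h4
      · left
        exact ⟨⟨Nat.pos_of_dvd_of_pos h1 (by omega), h4⟩, h3, h1⟩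
      · right
        exact ⟨⟨⟨h1, h2⟩, h4⟩, h3⟩
    · rintro (⟨_, h3, h1⟩ | ⟨⟨h1, _⟩, h3⟩)
      · exact ⟨⟨h1, by omega⟩, h3⟩
      · exact ⟨h1, h3⟩
  have h2 : Disjoint ((Icc 1 R).filter (fun r => Squarefree r ∧ r ∣ q))
      ((q.divisors.filter (fun r => R < r)).filter Squarefree) := by
    rw [disjoint_left]
    intro r h3 h4
    rw [mem_filter, mem_Icc] at h3
    rw [mem_filter, mem_filter] at h4
    omega
  rw [h1, sum_union h2, sub_add_cancel_left, abs_neg]
  refine (abs_sum_le_sum_abs _ _).trans ?_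
  calc ∑ r ∈ (q.divisors.filter (fun r => R < r)).filter Squarefree, |1 / (Nat.totient r : ℝ) * cc a r|
      ≤ ∑ r ∈ (q.divisors.filter (fun r => R < r)).filter Squarefree, ((r.gcd a : ℕ) : ℝ) / (Nat.totient r : ℝ) := by
        apply sum_le_sum
        intro r hr
        rw [mem_filter, mem_filter, Nat.mem_divisors] at hr
        have hr1 : 1 ≤ r := Nat.pos_of_dvd_of_pos hr.1.1.1 (by omega)
        rw [abs_mul, abs_of_nonneg (by positivity), div_mul_eq_mul_div, one_mul]
        exact div_le_div_of_nonneg_right (cc_le a r hr1) (Nat.cast_nonneg _)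
    _ ≤ _ := by
        apply sum_le_sum_of_subset_of_nonneg (filter_subset _ _)
        intro r _ _
        positivity

/-- the model in progressions, for each modulus -/
lemma mR_ap2 (R y q a : ℕ) (hq : 1 ≤ q) (ha : 1 ≤ a) :
    |∑ n ∈ (Icc 1 y).filter (fun n => n ≡ a [MOD q]), mR R n - (if a.Coprime q then (y : ℝ) / Nat.totient q else 0)| ≤
      bR R * R + (y : ℝ) * (1 / q * ∑ r ∈ q.divisors.filter (fun r => R < r), ((r.gcd a : ℕ) : ℝ) / (Nat.totient r : ℝ)) := by
  have h1 := mR_ap R y q a hq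
  have h2 := PR_err R q a hq ha
  have hq0 : (0 : ℝ) < q := by exact_mod_cast hq
  have h3 : (if a.Coprime q then (y : ℝ) / Nat.totient q else 0) =
      (y : ℝ) / q * (if a.Coprime q then (q : ℝ) / Nat.totient q else 0) := by
    split_ifs
    · field_simp
    · simp
  have h4 : ∑ n ∈ (Icc 1 y).filter (fun n => n ≡ a [MOD q]), mR R n - (if a.Coprime q then (y : ℝ) / Nat.totient q else 0) =
      (∑ n ∈ (Icc 1 y).filter (fun n => n ≡ a [MOD q]), mR R n - (y : ℝ) / q * PR R q a) +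
      (y : ℝ) / q * (PR R q a - (if a.Coprime q then (q : ℝ) / Nat.totient q else 0)) := by
    rw [h3]
    ring
  rw [h4]
  refine (abs_add_le _ _).trans (add_le_add h1 ?_)
  rw [abs_mul, abs_of_nonneg (by positivity), div_mul_eq_mul_div, mul_div_assoc, one_div, inv_mul_eq_div]
  apply mul_le_mul_of_nonneg_left _ (Nat.cast_nonneg _)
  exact div_le_div_of_nonneg_right h2 hq0.le

/-- the model in progressions to small moduli -/
lemma mR_ap_small (R y q c : ℕ) (hq : 1 ≤ q) (hqR : q ≤ R) :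
    |∑ n ∈ (Icc 1 y).filter (fun n => n ≡ c [MOD q]), mR R n - (if c.Coprime q then (y : ℝ) / Nat.totient q else 0)| ≤
      bR R * R := by
  have h1 := mR_ap2 R y q (c + q) hq (by omega)
  have h2 : q.divisors.filter (fun r => R < r) = ∅ := by
    apply filter_eq_empty_iff.2
    intro r hr
    have := Nat.divisor_le hr
    omega
  rw [h2, sum_empty, mul_zero, mul_zero, add_zero] at h1
  have h3 : (Icc 1 y).filter (fun n => n ≡ c + q [MOD q]) = (Icc 1 y).filter (fun n => n ≡ c [MOD q]) := by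
    apply filter_congr
    intro n _
    have : c + q ≡ c [MOD q] := by simp [Nat.ModEq]
    exact ⟨fun h => h.trans this, fun h => h.trans this.symm⟩
  have h4 : (c + q).Coprime q ↔ c.Coprime q := by simp
  rw [h3] at h1
  simp only [h4] at h1
  exact h1

/-- the tail of the singular series, for the residue `a` -/
noncomputable def HR (R Q a : ℕ) : ℝ := ∑ r ∈ Ioc R Q, ((r.gcd a : ℕ) : ℝ) * (1 / (r : ℝ) ^ 2)

lemma HR_nonneg (R Q a : ℕ) : 0 ≤ HR R Q a := sum_nonneg fun _ _ => by positivity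

lemma avg_gen (R Q y a X : ℕ) (hQX : Q ≤ X) (Δ : ℕ → ℝ)
    (h1 : ∀ q ∈ Icc 1 Q, Δ q ≤ bR R * R + (y : ℝ) * (1 / q * ∑ r ∈ q.divisors.filter (fun r => R < r), ((r.gcd a : ℕ) : ℝ) / (Nat.totient r : ℝ))) :
    ∑ q ∈ Icc 1 Q, Δ q ≤
      Q * (bR R * R) + (y : ℝ) * ((1 + Real.log X) * ((1 + 2 * Real.log X) * HR R Q a)) := by
  have hl : 0 ≤ Real.log (X : ℝ) := Real.log_natCast_nonneg X
  refine (sum_le_sum h1).trans ?_
  rw [sum_add_distrib, sum_const, Nat.card_Icc, Nat.add_sub_cancel, nsmul_eq_mul, ← mul_sum]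
  apply add_le_add le_rfl
  apply mul_le_mul_of_nonneg_left _ (Nat.cast_nonneg _)
  have h2 : ∀ q ∈ Icc 1 Q, 1 / (q : ℝ) * ∑ r ∈ q.divisors.filter (fun r => R < r), ((r.gcd a : ℕ) : ℝ) / (Nat.totient r : ℝ) =
      ∑ r ∈ Ioc R Q, if r ∣ q then ((r.gcd a : ℕ) : ℝ) / (Nat.totient r : ℝ) * (1 / (q : ℝ)) else 0 := by
    intro q hq
    rw [mem_Icc] at hq
    rw [← sum_filter, mul_sum]
    have h3 : (Ioc R Q).filter (fun r => r ∣ q) = q.divisors.filter (fun r => R < r) := by
      ext r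
      rw [mem_filter, mem_filter, mem_Ioc, Nat.mem_divisors]
      constructor
      · rintro ⟨⟨h1, _⟩, h2⟩
        exact ⟨⟨h2, by omega⟩, h1⟩
      · rintro ⟨⟨h1, _⟩, h2⟩
        exact ⟨⟨h2, (Nat.le_of_dvd (by omega) h1).trans hq.2⟩, h1⟩
    rw [h3]
    apply sum_congr rfl
    intro r _
    ring
  rw [sum_congr rfl h2, sum_comm]
  unfold HR
  rw [mul_sum, mul_sum]
  apply sum_le_sum
  intro r hr
  rw [mem_Ioc] at hr
  have hr1 : 1 ≤ r := by omega
  have hr0 : (0 : ℝ) < r := by exact_mod_cast hr1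
  rw [← sum_filter, ← mul_sum, sum_mulR Q r hr1]
  have h4 : ∑ m ∈ Icc 1 (Q / r), 1 / (((r * m : ℕ)) : ℝ) ≤ 1 / r * (1 + Real.log X) := by
    have h5 : ∀ m ∈ Icc 1 (Q / r), 1 / (((r * m : ℕ)) : ℝ) = 1 / r * (1 / (m : ℝ)) := by
      intro m _
      push_cast
      rw [div_mul_div_comm, one_mul]
    rw [sum_congr rfl h5, ← mul_sum]
    exact mul_le_mul_of_nonneg_left (harm0 _ X ((Nat.div_le_self _ _).trans hQX)) (by positivity)
  have h6 := inv_phi r hr1 X (hr.2.trans hQX)
  have hg : (0 : ℝ) ≤ ((r.gcd a : ℕ) : ℝ) := Nat.cast_nonneg _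
  calc ((r.gcd a : ℕ) : ℝ) / (Nat.totient r : ℝ) * ∑ m ∈ Icc 1 (Q / r), 1 / (((r * m : ℕ)) : ℝ)
      ≤ ((r.gcd a : ℕ) : ℝ) * ((1 + 2 * Real.log X) * (1 / r)) * (1 / r * (1 + Real.log X)) := by
        apply mul_le_mul _ h4 (sum_nonneg fun _ _ => by positivity) (by positivity)
        rw [div_eq_mul_one_div]
        exact mul_le_mul_of_nonneg_left h6 hg
    _ = (1 + Real.log X) * ((1 + 2 * Real.log X) * (((r.gcd a : ℕ) : ℝ) * (1 / (r : ℝ) ^ 2))) := by
        field_simp

/-- the model in progressions, on average over the moduli -/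
lemma mR_avg (R Q y a X : ℕ) (ha : 1 ≤ a) (hQX : Q ≤ X) :
    ∑ q ∈ Icc 1 Q, |∑ n ∈ (Icc 1 y).filter (fun n => n ≡ a [MOD q]), mR R n - (if a.Coprime q then (y : ℝ) / Nat.totient q else 0)| ≤
      Q * (bR R * R) + (y : ℝ) * ((1 + Real.log X) * ((1 + 2 * Real.log X) * HR R Q a)) :=
  avg_gen R Q y a X hQX _ (fun q hq => mR_ap2 R y q a (mem_Icc.1 hq).1 ha)

/-- the same for the residue class of `-A` -/
lemma mR_avg_neg (R Q y A X : ℕ) (hQX : Q ≤ X) :
    ∑ q ∈ Icc 1 Q, |∑ n ∈ (Icc 1 y).filter (fun n => q ∣ n + A), mR R n - (if A.Coprime q then (y : ℝ) / Nat.totient q else 0)| ≤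
      Q * (bR R * R) + (y : ℝ) * ((1 + Real.log X) * ((1 + 2 * Real.log X) * HR R Q A)) := by
  apply avg_gen R Q y A X hQX _
  intro q hq
  have hq1 := (mem_Icc.1 hq).1
  obtain ⟨a, ha⟩ : ∃ a, a = A * (q - 1) + q := ⟨_, rfl⟩
  have hsum : a + A = (A + 1) * q := by
    rw [ha]
    obtain ⟨k, rfl⟩ : ∃ k, q = k + 1 := ⟨q - 1, by omega⟩
    simp only [Nat.add_sub_cancel]
    ring
  have h1 := mR_ap2 R y q a hq1 (by omega)
  have hg : ∀ r : ℕ, r ∣ q → r.gcd a = r.gcd A := by
    intro r hr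
    have h2 : r ∣ a + A := by
      rw [hsum]
      exact hr.mul_left _
    apply Nat.dvd_antisymm
    · apply Nat.dvd_gcd (Nat.gcd_dvd_left _ _)
      exact (Nat.dvd_add_right (Nat.gcd_dvd_right r a)).1 ((Nat.gcd_dvd_left r a).trans h2)
    · apply Nat.dvd_gcd (Nat.gcd_dvd_left _ _)
      exact (Nat.dvd_add_left (Nat.gcd_dvd_right r A)).1 ((Nat.gcd_dvd_left r A).trans h2)
  have e1 : (Icc 1 y).filter (fun n => n ≡ a [MOD q]) = (Icc 1 y).filter (fun n => q ∣ n + A) := by
    apply filter_congr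
    intro n _
    have h3 : a + A ≡ 0 [MOD q] := by
      rw [hsum]
      exact (Nat.modEq_zero_iff_dvd).2 (dvd_mul_left _ _)
    constructor
    · intro h
      exact (Nat.modEq_zero_iff_dvd).1 ((h.add_right A).trans h3)
    · intro h
      have h4 : n + A ≡ a + A [MOD q] := ((Nat.modEq_zero_iff_dvd).2 h).trans h3.symm
      exact Nat.ModEq.add_right_cancel' A h4
  have e2 : a.Coprime q ↔ A.Coprime q := by
    unfold Nat.Coprime
    rw [Nat.gcd_comm a q, Nat.gcd_comm A q, hg q dvd_rfl]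
  have e3 : ∑ r ∈ q.divisors.filter (fun r => R < r), ((r.gcd a : ℕ) : ℝ) / (Nat.totient r : ℝ) =
      ∑ r ∈ q.divisors.filter (fun r => R < r), ((r.gcd A : ℕ) : ℝ) / (Nat.totient r : ℝ) := by
    apply sum_congr rfl
    intro r hr
    rw [mem_filter] at hr
    rw [hg r (Nat.dvd_of_mem_divisors hr.1)]
  rw [e1, e3] at h1
  simp only [e2] at h1
  exact h1

end Pool.Agent.U856.EH
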