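import Pool.Agent.U856.EH.M2
import Pool.Agent.H373R2.T7.SupE2

set_option autoImplicit false

/-! The exponential sum of the von Mangoldt function minus its Ramanujan model, at every point. -/

namespace Pool.Agent.U856.EH
open Finset
open Pool.Agent.H373R2.T7
open Pool.Agent.H807R2.Dav

/-- the coefficients of the model are small -/
lemma bR_small (E : ℕ) : ∃ N0 : ℕ, ∀ N : ℕ, N0 ≤ N → ∀ R : ℕ, 1 ≤ R → (R : ℝ) ≤ Real.log N ^ E →
    bR R ≤ Real.log N ∧ 1 + Real.log R ≤ Real.log N := by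
  have hlim : Filter.Tendsto (fun N : ℕ => Real.log (N : ℝ)) Filter.atTop Filter.atTop :=
    Real.tendsto_log_atTop.comp (tendsto_natCast_atTop_atTop (R := ℝ))
  have h2 : ∀ᶠ N : ℕ in Filter.atTop, (2 * ((E : ℝ) + 1) ^ 2) * Real.log (Real.log N) ^ 2 ≤ Real.log N := by
    have h3 := (Real.isLittleO_pow_log_id_atTop (n := 2)).bound (show (0 : ℝ) < 1 / (2 * ((E : ℝ) + 1) ^ 2) by positivity)
    have h4 := hlim.eventually h3
    filter_upwards [h4, hlim.eventually_ge_atTop 1] with N h5 h6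
    simp only [id] at h5
    rw [Real.norm_of_nonneg (by positivity), Real.norm_of_nonneg (by linarith), one_div, inv_mul_eq_div,
      le_div_iff₀ (by positivity)] at h5
    linarith
  obtain ⟨N0, h0⟩ := Filter.eventually_atTop.1 (h2.and (hlim.eventually_ge_atTop 3))
  refine ⟨N0, fun N hN R hR hRE => ?_⟩
  obtain ⟨hb, hL⟩ := h0 N hN
  obtain ⟨l, hl⟩ : ∃ l, l = Real.log (Real.log N) := ⟨_, rfl⟩
  have hl1 : 1 ≤ l := by
    rw [hl, Real.le_log_iff_exp_le (by linarith)]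
    linarith [Real.exp_one_lt_d9]
  have hR0 : (0 : ℝ) < R := by exact_mod_cast hR
  have h7 : Real.log R ≤ E * l := by
    have h8 := Real.log_le_log hR0 hRE
    rw [Real.log_pow, ← hl] at h8
    exact h8
  have h9 := Real.log_natCast_nonneg R
  have hE0 : (0 : ℝ) ≤ E := Nat.cast_nonneg _
  rw [← hl] at hb
  have k1 : 1 + 2 * Real.log R ≤ 2 * ((E : ℝ) + 1) * l := by nlinarith
  have k2 : 1 + Real.log R ≤ ((E : ℝ) + 1) * l := by nlinarith
  have k3 : bR R ≤ Real.log N := by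
    unfold bR
    calc (1 + 2 * Real.log R) * (1 + Real.log R) ≤ (2 * ((E : ℝ) + 1) * l) * (((E : ℝ) + 1) * l) :=
          mul_le_mul k1 k2 (by linarith) (by positivity)
      _ = (2 * ((E : ℝ) + 1) ^ 2) * l ^ 2 := by ring
      _ ≤ _ := hb
  refine ⟨k3, le_trans ?_ k3⟩
  unfold bR
  nlinarith

theorem mR_minor (E U : ℕ) : ∃ N0 : ℕ, ∀ N : ℕ, N0 ≤ N → ∀ R : ℕ, 1 ≤ R → (R : ℝ) ≤ Real.log N ^ E →
    ∀ q : ℕ, Real.log N ^ (U + 5) ≤ q → (q : ℝ) ≤ N / Real.log N ^ (U + 5) →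
    ∀ c : ℤ, IsCoprime c (q : ℤ) → ∀ α : ℝ, |α - c / q| ≤ 1 / (q : ℝ) ^ 2 →
    ‖∑ n ∈ Icc 1 N, ((mR R n : ℝ) : ℂ) * ee ((n : ℝ) * α)‖ ≤ N / Real.log N ^ U := by
  obtain ⟨n1, h1⟩ := ev_log' (E + (U + 5)) 1
  obtain ⟨n2, h2⟩ := ev_L' 10000
  obtain ⟨n3, h3⟩ := bR_small E
  refine ⟨max n1 (max n2 (max n3 1)), fun N hN R hR hRE q hq1 hq2 c hcop α hα => ?_⟩
  have a1 := h1 N (le_trans (le_max_left _ _) hN)
  have hL := h2 N (le_trans (le_trans (le_max_left _ _) (le_max_right _ _)) hN)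
  have hV := (h3 N (le_trans (le_trans (le_trans (le_max_left _ _) (le_max_right _ _)) (le_max_right _ _)) hN) R hR hRE).1
  have hN1 : 1 ≤ N := le_trans (le_trans (le_trans (le_max_right _ _) (le_max_right _ _)) (le_max_right _ _)) hN
  have hNr : (1 : ℝ) ≤ N := by exact_mod_cast hN1
  have hN0 : (0 : ℝ) < N := by linarith
  set L := Real.log N with hLd
  have hL0 : 0 < L := by linarith
  have hLB : 1 ≤ L ^ (U + 5) := one_le_pow₀ (by linarith)
  have hq0 : (0 : ℝ) < q := by linarith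
  have hqn : 1 ≤ q := by exact_mod_cast hq0
  have hqr : (1 : ℝ) ≤ q := by exact_mod_cast hqn
  have hqN : (q : ℝ) ≤ N := hq2.trans (div_le_self hN0.le hLB)
  have hlq : Real.log q ≤ L := Real.log_le_log hq0 hqN
  have hlq0 : 0 ≤ Real.log q := Real.log_nonneg hqr
  have hsN : √(N : ℝ) ≤ N := by
    rw [Real.sqrt_le_left (by positivity)]; nlinarith
  have hRN : (R : ℝ) ≤ N / L ^ (U + 5) := by
    rw [le_div_iff₀ (by positivity)]
    rw [one_mul, pow_add] at a1
    calc (R : ℝ) * L ^ (U + 5) ≤ L ^ E * L ^ (U + 5) := by gcongr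
      _ ≤ √(N : ℝ) := a1
      _ ≤ N := hsN
  have hb := bR_ge R
  have hmain : ‖∑ n ∈ Icc 1 N, ((mR R n : ℝ) : ℂ) * ee ((n : ℝ) * α)‖ ≤ ∑ d ∈ Icc 1 R, bR R * KK (2 * N / d) (d * α) := by
    have h4 : ∑ n ∈ Icc 1 N, ((mR R n : ℝ) : ℂ) * ee ((n : ℝ) * α) =
        ∑ d ∈ Icc 1 R, ((gR R d : ℝ) : ℂ) * ∑ n ∈ (Icc 1 N).filter (fun n => d ∣ n), ee ((n : ℝ) * α) := by
      unfold mR
      push_cast
      simp only [sum_filter, sum_mul, mul_sum]
      rw [sum_comm]
      apply sum_congr rfl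
      intro d _
      apply sum_congr rfl
      intro n _
      split_ifs <;> simp
    rw [h4]
    refine (norm_sum_le _ _).trans (sum_le_sum fun d hd => ?_)
    rw [mem_Icc] at hd
    have hd0 : (0 : ℝ) < d := by exact_mod_cast hd.1
    rw [norm_mul, Complex.norm_real, Real.norm_eq_abs]
    apply mul_le_mul (gR_le R d hd.1) _ (norm_nonneg _) (by linarith)
    rw [sum_mult N d hd.1]
    have h7 : ∀ m ∈ Icc 1 (N / d), ee (((d * m : ℕ) : ℝ) * α) = ee ((m : ℝ) * (d * α)) := by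
      intro m _; congr 1; push_cast; ring
    rw [sum_congr rfl h7]
    have h8 : Icc 1 (N / d) = Ico 1 (N / d + 1) := by ext x; rw [mem_Icc, mem_Ico]; omega
    rw [h8]
    apply geo_bound _ _ (Nat.le_add_left 1 _)
    push_cast
    have h9 : ((N / d : ℕ) : ℝ) ≤ N / d := Nat.cast_div_le
    have h10 : 0 ≤ (N : ℝ) / d := by positivity
    have h11 : 2 * (N : ℝ) / d = 2 * (N / d) := by ring
    rw [h11]
    linarith
  rw [← mul_sum] at hmain
  have htI := typeI_lin hqn hcop hα N R hN1 hR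
  have hlog2 : (Nat.log 2 R : ℝ) ≤ 2 * L := by
    have h4 : (2 : ℝ) ^ Nat.log 2 R ≤ R := by exact_mod_cast Nat.pow_log_le_self 2 (by omega : R ≠ 0)
    have h5 : (R : ℝ) ≤ N := hRN.trans (div_le_self hN0.le hLB)
    have h6 := Real.log_le_log (by positivity) (h4.trans h5)
    rw [Real.log_pow] at h6
    have := Real.log_two_gt_d9
    have h7 : (0 : ℝ) ≤ Nat.log 2 R := Nat.cast_nonneg _
    rw [← hLd] at h6
    nlinarith
  have hNq : (N : ℝ) / q ≤ N / L ^ (U + 5) := div_le_div_of_nonneg_left hN0.le (by positivity) hq1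
  have hP : 0 ≤ (N : ℝ) / L ^ (U + 5) := by positivity
  refine hmain.trans ?_
  calc bR R * ∑ d ∈ Icc 1 R, KK (2 * N / d) (d * α)
      ≤ L * (600 * (2 * L + 1) * (3 * (N / L ^ (U + 5))) * (1 + L)) := by
        apply mul_le_mul hV _ (sum_nonneg fun d _ => KK_nonneg (by positivity) _) hL0.le
        refine htI.trans ?_
        gcongr
        linarith
    _ = (1800 * (2 * L + 1) * (1 + L) / L ^ 4) * (N / L ^ U) := by
        rw [pow_add]
        field_simp
        ring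
    _ ≤ 1 * (N / L ^ U) := by
        apply mul_le_mul_of_nonneg_right _ (by positivity)
        rw [div_le_one (by positivity)]
        have h6 : (10000 : ℝ) * L ^ 2 ≤ L ^ 3 := by nlinarith [sq_nonneg L]
        have h7 : (10000 : ℝ) * L ^ 3 ≤ L ^ 4 := by nlinarith [pow_pos hL0 3]
        nlinarith [sq_nonneg L]
    _ = N / L ^ U := one_mul _

theorem sup_diffR (U : ℕ) : ∃ B : ℕ, ∀ E : ℕ, ∃ N0 : ℕ, ∀ N : ℕ, N0 ≤ N → ∀ R : ℕ, Real.log N ^ B ≤ R →
    (R : ℝ) ≤ Real.log N ^ E → ∀ α : ℝ,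
    ‖∑ n ∈ Icc 1 N, ((ArithmeticFunction.vonMangoldt n - mR R n : ℝ) : ℂ) * ee ((n : ℝ) * α)‖ ≤ N / Real.log N ^ U := by
  obtain ⟨B1, m1, hmin⟩ := minor_primes (U + 1)
  set B := B1 + U + 6 with hB
  refine ⟨B, fun E => ?_⟩
  obtain ⟨m2, hlz⟩ := mR_minor E (U + 1)
  obtain ⟨m3, hap⟩ := lam_ap B (2 * B + U + 1)
  obtain ⟨m4, hapz⟩ := bR_small E
  obtain ⟨m5, h5⟩ := ev_log' B 2
  obtain ⟨m6, h6⟩ := ev_L' 20
  obtain ⟨m7, h7⟩ := ev_log' (1 + E + (2 * B + U + 1)) 1
  refine ⟨max (max (max m1 m2) (max m3 m4)) (max (max m5 m6) (max m7 4)), fun N hN R hz1 hz2 α => ?_⟩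
  have hm1 : m1 ≤ N := le_trans (le_trans (le_trans (le_max_left _ _) (le_max_left _ _)) (le_max_left _ _)) hN
  have hm2 : m2 ≤ N := le_trans (le_trans (le_trans (le_max_right _ _) (le_max_left _ _)) (le_max_left _ _)) hN
  have hm3 : m3 ≤ N := le_trans (le_trans (le_trans (le_max_left _ _) (le_max_right _ _)) (le_max_left _ _)) hN
  have hm4 : m4 ≤ N := le_trans (le_trans (le_trans (le_max_right _ _) (le_max_right _ _)) (le_max_left _ _)) hN
  have a5 := h5 N (le_trans (le_trans (le_trans (le_max_left _ _) (le_max_left _ _)) (le_max_right _ _)) hN)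
  have hL := h6 N (le_trans (le_trans (le_trans (le_max_right _ _) (le_max_left _ _)) (le_max_right _ _)) hN)
  have a7 := h7 N (le_trans (le_trans (le_trans (le_max_left _ _) (le_max_right _ _)) (le_max_right _ _)) hN)
  have hN4 : 4 ≤ N := le_trans (le_trans (le_trans (le_max_right _ _) (le_max_right _ _)) (le_max_right _ _)) hN
  have hNr : (4 : ℝ) ≤ N := by exact_mod_cast hN4
  have hN0 : (0 : ℝ) < N := by linarith
  set L := Real.log N with hLd
  have hL0 : 0 < L := by linarith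
  have hL1 : 1 ≤ L := by linarith
  have hLB1 : 1 ≤ L ^ B := one_le_pow₀ hL1
  have hLB0 : 0 < L ^ B := by positivity
  have hsN : √(N : ℝ) ≤ N := by
    rw [Real.sqrt_le_left (by positivity)]; nlinarith
  have h2LB : 2 * L ^ B ≤ N := a5.trans hsN
  have hR1 : 1 ≤ R := by
    have : (1 : ℝ) ≤ R := hLB1.trans hz1
    exact_mod_cast this
  have hbR := (hapz N hm4 R hR1 hz2).1
  rw [← hLd] at hbR
  have hbRR : bR R * R ≤ N / L ^ (2 * B + U + 1) := by
    rw [le_div_iff₀ (by positivity)]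
    rw [one_mul, pow_add, pow_add, pow_one] at a7
    calc bR R * R * L ^ (2 * B + U + 1) ≤ L * L ^ E * L ^ (2 * B + U + 1) := by
          apply mul_le_mul_of_nonneg_right _ (by positivity)
          exact mul_le_mul hbR hz2 (Nat.cast_nonneg _) hL0.le
      _ ≤ √(N : ℝ) := a7
      _ ≤ N := hsN
  -- Dirichlet
  set Q : ℕ := ⌊(N : ℝ) / L ^ B⌋₊ with hQ
  have hNLB : 2 ≤ (N : ℝ) / L ^ B := by rw [le_div_iff₀ hLB0]; exact h2LB
  have hQpos : 0 < Q := by
    rw [hQ, Nat.floor_pos]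
    linarith
  obtain ⟨r, hr1, hr2⟩ := Real.exists_rat_abs_sub_le_and_den_le α hQpos
  set q : ℕ := r.den with hq
  have hq1 : 1 ≤ q := r.den_pos
  have hq0 : (0 : ℝ) < q := by exact_mod_cast hq1
  have hrq : ((r : ℚ) : ℝ) = (r.num : ℝ) / q := by
    rw [hq]; exact_mod_cast (Rat.num_div_den r).symm
  rw [hrq] at hr1
  have hcop : IsCoprime r.num (q : ℤ) := by
    rw [Int.isCoprime_iff_gcd_eq_one]
    have := r.reduced
    rw [Nat.Coprime] at this
    rw [Int.gcd]
    simpa using this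
  have hqQ : (q : ℝ) ≤ N / L ^ B := by
    have h1 : (q : ℝ) ≤ Q := by exact_mod_cast hr2
    exact h1.trans (Nat.floor_le (by positivity))
  have hsplit : ∑ n ∈ Icc 1 N, ((ArithmeticFunction.vonMangoldt n - mR R n : ℝ) : ℂ) * ee ((n : ℝ) * α) =
      ∑ n ∈ Icc 1 N, ((ArithmeticFunction.vonMangoldt n : ℝ) : ℂ) * ee ((n : ℝ) * α) -
      ∑ n ∈ Icc 1 N, ((mR R n : ℝ) : ℂ) * ee ((n : ℝ) * α) := by
    rw [← sum_sub_distrib]
    apply sum_congr rfl
    intro n _
    push_cast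
    ring
  rcases le_or_gt (L ^ B) (q : ℝ) with hqb | hqs
  · -- minor
    have hα : |α - (r.num : ℝ) / q| ≤ 1 / (q : ℝ) ^ 2 := by
      refine hr1.trans ?_
      rw [pow_two]
      apply one_div_le_one_div_of_le (by positivity)
      apply mul_le_mul_of_nonneg_right _ hq0.le
      have h1 : (q : ℝ) ≤ Q := by exact_mod_cast hr2
      linarith
    have hB1 : L ^ B1 ≤ L ^ B := pow_le_pow_right₀ hL1 (by omega)
    have hB2 : L ^ (U + 1 + 5) ≤ L ^ B := pow_le_pow_right₀ hL1 (by omega)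
    have h1 := hmin N hm1 q (hB1.trans hqb) (hqQ.trans (div_le_div_of_nonneg_left hN0.le (by positivity) hB1)) r.num hcop α hα
    have h2 := hlz N hm2 R hR1 hz2 q (hB2.trans hqb) (hqQ.trans (div_le_div_of_nonneg_left hN0.le (by positivity) hB2)) r.num hcop α hα
    rw [hsplit]
    refine (norm_sub_le _ _).trans ((add_le_add h1 h2).trans ?_)
    rw [← hLd]
    calc (N : ℝ) / L ^ (U + 1) + N / L ^ (U + 1) = 2 / L * (N / L ^ U) := by rw [pow_succ]; field_simp; ring
      _ ≤ 1 * (N / L ^ U) := by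
          apply mul_le_mul_of_nonneg_right _ (by positivity)
          rw [div_le_one hL0]; linarith
      _ = _ := one_mul _
  · -- major
    set f : ℕ → ℝ := fun n => ArithmeticFunction.vonMangoldt n - mR R n with hf
    have hqz : q ≤ R := by
      have : (q : ℝ) ≤ R := hqs.le.trans hz1
      exact_mod_cast this
    have hAP : ∀ y : ℕ, y ≤ N → ∀ c : ℕ, |∑ n ∈ (Icc 1 y).filter (fun n => n ≡ c [MOD q]), f n| ≤
        2 * (N / L ^ (2 * B + U + 1)) := by
      intro y hy c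
      have h1 := hap N hm3 q hq1 hqs.le c y hy
      have h2 := (mR_ap_small R y q c hq1 hqz).trans hbRR
      have h3 : ∑ n ∈ (Icc 1 y).filter (fun n => n ≡ c [MOD q]), f n =
          (∑ n ∈ (Icc 1 y).filter (fun n => n ≡ c [MOD q]), ArithmeticFunction.vonMangoldt n -
            (if c.Coprime q then (y : ℝ) / (Nat.totient q : ℝ) else 0)) -
          (∑ n ∈ (Icc 1 y).filter (fun n => n ≡ c [MOD q]), mR R n -
            (if c.Coprime q then (y : ℝ) / (Nat.totient q : ℝ) else 0)) := by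
        rw [hf]
        simp only [sum_sub_distrib]
        ring
      rw [h3]
      refine (abs_sub _ _).trans ?_
      rw [← hLd] at h1
      linarith
    have hpart : ∀ y : ℕ, y ≤ N → ‖∑ n ∈ Icc 1 y, ((f n : ℝ) : ℂ) * ee (n * ((r.num : ℝ) / q))‖ ≤
        2 * (N / L ^ (B + U + 1)) := by
      intro y hy
      have h1 := rat_twist f y q hq1 r.num (2 * (N / L ^ (2 * B + U + 1))) (hAP y hy)
      refine h1.trans ?_
      calc (q : ℝ) * (2 * (N / L ^ (2 * B + U + 1))) ≤ L ^ B * (2 * (N / L ^ (2 * B + U + 1))) := by gcongr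
        _ = 2 * (N / L ^ (B + U + 1)) := by
            have e : L ^ (2 * B + U + 1) = L ^ B * L ^ (B + U + 1) := by rw [← pow_add]; congr 1; ring
            rw [e]
            field_simp
    set γ : ℝ := α - (r.num : ℝ) / q with hγ
    have h1 := abel_ee (fun n => ((f n : ℝ) : ℂ) * ee (n * ((r.num : ℝ) / q))) γ (2 * (N / L ^ (B + U + 1))) N hpart
    have h2 : ∑ n ∈ Icc 1 N, ((ArithmeticFunction.vonMangoldt n - mR R n : ℝ) : ℂ) * ee ((n : ℝ) * α) =
        ∑ n ∈ Icc 1 N, (((f n : ℝ) : ℂ) * ee (n * ((r.num : ℝ) / q))) * ee (n * γ) := by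
      apply sum_congr rfl
      intro n _
      rw [mul_assoc, ← ee_add]
      congr 2
      rw [hγ]
      ring
    rw [h2]
    refine h1.trans ?_
    have hβ : |γ| ≤ L ^ B / N := by
      refine hr1.trans ?_
      rw [div_le_div_iff₀ (by positivity) hN0, one_mul]
      have h3 : (N : ℝ) / L ^ B ≤ (Q : ℝ) + 1 := (Nat.lt_floor_add_one _).le
      rw [div_le_iff₀ hLB0] at h3
      have h4 : (1 : ℝ) ≤ q := by exact_mod_cast hq1
      have h5 : ((Q : ℝ) + 1) * L ^ B ≤ ((Q : ℝ) + 1) * L ^ B * q := le_mul_of_one_le_right (by positivity) h4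
      calc (N : ℝ) ≤ ((Q : ℝ) + 1) * L ^ B := h3
        _ ≤ ((Q : ℝ) + 1) * L ^ B * q := h5
        _ = L ^ B * (((Q : ℝ) + 1) * q) := by ring
    have h3 : (N : ℝ) * ‖ee γ - 1‖ ≤ 7 * L ^ B := by
      have h4 : ‖ee γ - 1‖ ≤ 2 * Real.pi * |γ| := by
        have := dd_le γ
        unfold dd at this
        rw [norm_sub_rev] at this
        exact this
      have h5 : |γ| * N ≤ L ^ B := by
        rw [le_div_iff₀ hN0] at hβ
        exact hβ
      have hpi : Real.pi < 3.15 := Real.pi_lt_d2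
      have h6 : 0 ≤ |γ| * N := by positivity
      calc (N : ℝ) * ‖ee γ - 1‖ ≤ N * (2 * Real.pi * |γ|) := by gcongr
        _ = 2 * Real.pi * (|γ| * N) := by ring
        _ ≤ 7 * (|γ| * N) := by
            apply mul_le_mul_of_nonneg_right _ h6
            linarith
        _ ≤ 7 * L ^ B := by linarith
    calc 2 * (N / L ^ (B + U + 1)) * (1 + N * ‖ee γ - 1‖) ≤ 2 * (N / L ^ (B + U + 1)) * (8 * L ^ B) := by
          apply mul_le_mul_of_nonneg_left _ (by positivity)
          linarith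
      _ = (16 / L) * (N / L ^ U) := by
          have e : L ^ (B + U + 1) = L ^ B * L ^ U * L := by rw [← pow_add, ← pow_succ]
          rw [e]
          field_simp
          ring
      _ ≤ 1 * (N / L ^ U) := by
          apply mul_le_mul_of_nonneg_right _ (by positivity)
          rw [div_le_one hL0]
          linarith
      _ = N / L ^ U := one_mul _

end Pool.Agent.U856.EH
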