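import Pool.Agent.TH212.EH.A2
import Pool.Agent.U856.EH.M4

set_option autoImplicit false

/-! First moments of the correlations with the von Mangoldt function minus its Ramanujan model. -/

namespace Pool.Agent.U856.EH
open Finset
open Pool.Agent.H373R2.T7 (lamI energy ev_L' ev_log' lamI_nonneg)
open Pool.Agent.TH212.EH (En enum sum_enum energy_enum net_sum large sum_Icc_sub real_norm)

/-- the difference -/
noncomputable def dR (R : ℕ) (k : ℤ) : ℝ := lamI k - mI R k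

/-- the two sums -/
noncomputable def S1 (G : ℕ → ℝ) (R A : ℕ) (v : ℤ) : ℝ := ∑ n ∈ Icc 1 A, G n * dR R ((n : ℤ) + v)

noncomputable def S2 (G : ℕ → ℝ) (R A : ℕ) (v : ℤ) : ℝ := ∑ n ∈ Icc 1 A, G n * dR R (v - (n : ℤ))

lemma reflect (G : ℕ → ℝ) (R A : ℕ) (v : ℤ) :
    ∑ a ∈ Icc 1 A, G (A + 1 - a) * dR R ((a : ℤ) + (v - ((A + 1 : ℕ) : ℤ))) = S2 G R A v := by
  unfold S2
  apply sum_bij (fun a _ => A + 1 - a)
  · intro a ha
    rw [mem_Icc] at ha ⊢
    omega
  · intro a ha b hb h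
    rw [mem_Icc] at ha hb
    omega
  · intro b hb
    rw [mem_Icc] at hb
    exact ⟨A + 1 - b, mem_Icc.2 ⟨by omega, by omega⟩, by omega⟩
  · intro a ha
    rw [mem_Icc] at ha
    congr 2
    rw [Nat.cast_sub (by omega)]
    ring

/-- first moments for a fixed length -/
theorem base (p B C U : ℕ) : ∃ B0 : ℕ, ∀ E : ℕ, ∃ N0 : ℕ, ∀ N : ℕ, N0 ≤ N → ∀ (ι : Type) [Fintype ι] (v : ι → ℤ),
    (∀ i, |v i| ≤ B * N) → (En p v : ℝ) * N ≤ Real.log N ^ C * (Fintype.card ι : ℝ) ^ (2 * p) →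
    ∀ R : ℕ, Real.log N ^ B0 ≤ R → (R : ℝ) ≤ Real.log N ^ E → ∀ A : ℕ, A ≤ B * N →
    ∀ G : ℕ → ℝ, (∀ n, |G n| ≤ 1) →
    ∑ i, |S1 G R A (v i)| ≤ N * Fintype.card ι / Real.log N ^ U ∧
    ∑ i, |S2 G R A (v i)| ≤ N * Fintype.card ι / Real.log N ^ U := by
  classical
  obtain ⟨B0, h0⟩ := lam_eR p (2 * B + 1) C U
  refine ⟨B0, fun E => ?_⟩
  obtain ⟨N0, h1⟩ := h0 E
  refine ⟨N0 + 1, fun N hN ι _ v hv hE R hz1 hz2 A hA G hG => ?_⟩
  have key : ∀ c : ℤ, |c| ≤ (B + 1) * N → ∀ G' : ℕ → ℝ, (∀ n, |G' n| ≤ 1) →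
      ∑ i, |∑ a ∈ Icc 1 A, G' a * dR R ((a : ℤ) + (v i - c))| ≤ N * Fintype.card ι / Real.log N ^ U := by
    intro c hc G' hG'
    rcases isEmpty_or_nonempty ι with hι | hι
    · simp
    obtain ⟨f, hinj, hsurj⟩ := enum ι
    have h2 := h1 N (by omega) (Fintype.card ι) (fun m => v (f m) - c) (by
      intro m _
      have q1 := abs_sub (v (f m)) c
      have q2 := hv (f m)
      push_cast
      linarith) (by
      refine le_trans ?_ hE
      apply mul_le_mul_of_nonneg_right _ (Nat.cast_nonneg _)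
      exact_mod_cast energy_enum p v f c hinj) A (by
      refine hA.trans (Nat.mul_le_mul_right _ (by omega))) R hz1 hz2 (fun n => ((G' n : ℝ) : ℂ)) (by
      intro n
      rw [Complex.norm_real, Real.norm_eq_abs]
      exact hG' n)
    rw [← sum_enum f hinj hsurj]
    refine le_trans (le_of_eq (sum_congr rfl fun m _ => ?_)) h2
    exact (real_norm G' (Icc 1 A) (fun a => dR R ((a : ℤ) + (v (f m) - c)))).symm
  constructor
  · have h3 := key 0 (by rw [abs_zero]; positivity) G hG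
    simp only [sub_zero] at h3
    exact h3
  · have h3 := key ((A + 1 : ℕ) : ℤ) (by
      rw [abs_of_nonneg (by positivity)]
      have q1 : ((A : ℕ) : ℤ) ≤ B * N := by exact_mod_cast hA
      have q2 : (1 : ℤ) ≤ N := by exact_mod_cast (by omega : 1 ≤ N)
      push_cast
      linarith) (fun a => G (A + 1 - a)) (fun n => hG _)
    simp only [reflect] at h3
    exact h3

lemma lamI_le (X : ℕ) (Lx : ℝ) (hLx : Real.log X = Lx) (m : ℤ) (hm : m ≤ X) : |lamI m| ≤ Lx := by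
  have hL0 : 0 ≤ Lx := by rw [← hLx]; exact Real.log_natCast_nonneg X
  unfold lamI
  split_ifs with h
  · rw [abs_of_nonneg ArithmeticFunction.vonMangoldt_nonneg]
    refine ArithmeticFunction.vonMangoldt_le_log.trans ?_
    rw [← hLx]
    apply Real.log_le_log
    · exact_mod_cast (by omega : 0 < m.toNat)
    · exact_mod_cast (by omega : m.toNat ≤ X)
  · rw [abs_zero]
    exact hL0

lemma step (F : ℕ → ℝ) (A' A : ℕ) (h : A' ≤ A) (b : ℝ) (hb : ∑ n ∈ Ioc A' A, |F n| ≤ b) :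
    |∑ n ∈ Icc 1 A, F n| ≤ |∑ n ∈ Icc 1 A', F n| + b := by
  rw [sum_Icc_sub F A' A h]
  refine (abs_add_le _ _).trans (add_le_add le_rfl ?_)
  exact (abs_sum_le_sum_abs _ _).trans hb

lemma short_gen (G : ℕ → ℝ) (hG : ∀ n, |G n| ≤ 1) (R A' A : ℕ) (f : ℕ → ℤ) (Lx m : ℝ) (hm : ∑ n ∈ Ioc A' A, |mI R (f n)| ≤ m)
    (hl : ∀ n ∈ Ioc A' A, |lamI (f n)| ≤ Lx) : ∑ n ∈ Ioc A' A, |G n * dR R (f n)| ≤ ((A - A' : ℕ) : ℝ) * Lx + m := by
  have h1 : ∀ n ∈ Ioc A' A, |G n * dR R (f n)| ≤ Lx + |mI R (f n)| := by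
    intro n hn
    rw [abs_mul]
    calc |G n| * |dR R (f n)| ≤ 1 * |dR R (f n)| := mul_le_mul_of_nonneg_right (hG n) (abs_nonneg _)
      _ = |lamI (f n) - mI R (f n)| := by rw [one_mul]; rfl
      _ ≤ |lamI (f n)| + |mI R (f n)| := abs_sub _ _
      _ ≤ _ := add_le_add (hl n hn) le_rfl
  refine (sum_le_sum h1).trans ?_
  rw [sum_add_distrib, sum_const, Nat.card_Ioc, nsmul_eq_mul]
  exact add_le_add le_rfl hm

/-- maximal first moments -/
theorem maxi (p B C T U : ℕ) : ∃ B0 : ℕ, ∀ E : ℕ, ∃ N0 : ℕ, ∀ N : ℕ, N0 ≤ N → ∀ (ι : Type) [Fintype ι] (v : ι → ℤ),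
    (∀ i, |v i| ≤ B * N) → (En p v : ℝ) * N ≤ Real.log N ^ C * (Fintype.card ι : ℝ) ^ (2 * p) →
    ∀ R : ℕ, Real.log N ^ B0 ≤ R → (R : ℝ) ≤ Real.log N ^ E →
    ∀ G : ℕ → ℝ, (∀ n, |G n| ≤ Real.log N ^ T) → ∀ A : ι → ℕ, (∀ i, A i ≤ B * N) →
    ∑ i, |S1 G R (A i) (v i)| ≤ N * Fintype.card ι / Real.log N ^ U ∧
    ∑ i, |S2 G R (A i) (v i)| ≤ N * Fintype.card ι / Real.log N ^ U := by
  classical
  obtain ⟨k, hk⟩ : ∃ k, k = T + U + 3 := ⟨_, rfl⟩
  obtain ⟨U', hU'⟩ : ∃ U', U' = T + k + U + 2 := ⟨_, rfl⟩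
  obtain ⟨B0, h0⟩ := base p B C U'
  refine ⟨B0, fun E => ?_⟩
  obtain ⟨n0, h0⟩ := h0 E
  obtain ⟨n1, h1⟩ := bR_small E
  obtain ⟨n3, h3⟩ := ev_log' (1 + E + k) 1
  obtain ⟨n2, h2⟩ := large (max (B + 3) (Real.log (2 * B + 1))) (n0 + n1 + n3 + 3)
  refine ⟨n2, fun N hN ι _ v hv hE R hz1 hz2 G hG A hA => ?_⟩
  obtain ⟨hN1, hLK, hL1⟩ := h2 N hN
  obtain ⟨L, hL⟩ : ∃ L, L = Real.log (N : ℝ) := ⟨_, rfl⟩
  have c0 := h0 N (by omega) ι v hv hE R hz1 hz2
  have c3 := h3 N (by omega)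
  rw [← hL] at hLK hL1 hG c0 hE hz1 hz2 c3 ⊢
  have hLB : (B : ℝ) + 3 ≤ L := (le_max_left _ _).trans hLK
  have hLl : Real.log (2 * B + 1) ≤ L := (le_max_right _ _).trans hLK
  have hL0 : 0 < L := by linarith
  have hB0 : (0 : ℝ) ≤ B := Nat.cast_nonneg _
  have hL3 : 3 ≤ L := by linarith
  have hN0 : (0 : ℝ) < N := by exact_mod_cast (by omega : 0 < N)
  have hNr1 : (1 : ℝ) ≤ N := by exact_mod_cast (by omega : 1 ≤ N)
  obtain ⟨X, hX⟩ : ∃ X : ℕ, X = (2 * B + 1) * N := ⟨_, rfl⟩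
  obtain ⟨Lx, hLx⟩ : ∃ Lx, Lx = Real.log (X : ℝ) := ⟨_, rfl⟩
  have hLx2 : Lx ≤ 2 * L := by
    rw [hLx, hX]
    push_cast
    rw [Real.log_mul (by positivity) hN0.ne', ← hL]
    linarith
  have hLx1 : L ≤ Lx := by
    rw [hLx, hL]
    apply Real.log_le_log hN0
    exact_mod_cast (by rw [hX]; exact Nat.le_mul_of_pos_left _ (by omega) : N ≤ X)
  have hz : 1 ≤ R := by
    have : (1 : ℝ) ≤ R := (one_le_pow₀ hL1).trans hz1
    exact_mod_cast this
  obtain ⟨hb1, hb2⟩ := h1 N (by omega) R hz (by rw [← hL]; exact hz2)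
  rw [← hL] at hb1 hb2
  have hbR := bR_ge R
  have hLT : 0 < L ^ T := by positivity
  -- normalised function
  obtain ⟨G', hG'⟩ : ∃ G' : ℕ → ℝ, G' = fun n => G n / L ^ T := ⟨_, rfl⟩
  have hG1 : ∀ n, |G' n| ≤ 1 := by
    intro n
    rw [hG']
    simp only
    rw [abs_div, abs_of_pos hLT, div_le_one hLT]
    exact hG n
  have hGG : ∀ n, G n = L ^ T * G' n := by
    intro n
    rw [hG']
    simp only
    field_simp
  -- the cells
  obtain ⟨D, hD⟩ : ∃ D : ℕ, D = ⌊(N : ℝ) / L ^ k⌋₊ := ⟨_, rfl⟩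
  have hD1 : (D : ℝ) ≤ N / L ^ k := by rw [hD]; exact Nat.floor_le (by positivity)
  have hD2 : (N : ℝ) / L ^ k < D + 1 := by rw [hD]; exact Nat.lt_floor_add_one _
  obtain ⟨J, hJ⟩ : ∃ J : ℕ, J = B * N / (D + 1) := ⟨_, rfl⟩
  have hJ1 : (J : ℝ) ≤ B * L ^ k := by
    have q1 : (J : ℝ) ≤ ((B * N : ℕ) : ℝ) / ((D + 1 : ℕ) : ℝ) := by rw [hJ]; exact Nat.cast_div_le
    refine q1.trans ?_
    push_cast
    rw [div_le_iff₀ (by positivity)]
    rw [div_lt_iff₀ (by positivity)] at hD2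
    nlinarith
  obtain ⟨g, hg⟩ : ∃ g : ℕ → ℕ, g = fun A => (D + 1) * (A / (D + 1)) := ⟨_, rfl⟩
  obtain ⟨Rn, hRn⟩ : ∃ Rn : Finset ℕ, Rn = (range (J + 1)).image (fun j => (D + 1) * j) := ⟨_, rfl⟩
  have hRc : (Rn.card : ℝ) ≤ L ^ (k + 1) := by
    have q1 : Rn.card ≤ J + 1 := by
      rw [hRn]
      refine card_image_le.trans ?_
      rw [card_range]
    have q2 : (1 : ℝ) ≤ L ^ k := one_le_pow₀ hL1
    calc (Rn.card : ℝ) ≤ J + 1 := by exact_mod_cast q1
      _ ≤ B * L ^ k + L ^ k := add_le_add hJ1 q2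
      _ = (B + 1) * L ^ k := by ring
      _ ≤ L * L ^ k := mul_le_mul_of_nonneg_right (by linarith) (by positivity)
      _ = L ^ (k + 1) := by ring
  have hgR : ∀ A ≤ B * N, g A ≤ A ∧ g A ∈ Rn := by
    intro A hA
    rw [hg, hRn]
    refine ⟨Nat.mul_div_le _ _, mem_image.2 ⟨A / (D + 1), ?_, rfl⟩⟩
    rw [mem_range, hJ]
    exact Nat.lt_succ_of_le (Nat.div_le_div_right hA)
  have hgD : ∀ A, A - g A ≤ D := by
    intro A
    rw [hg]
    simp only
    have q1 := Nat.div_add_mod A (D + 1)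
    have q2 := Nat.mod_lt A (by omega : D + 1 > 0)
    omega
  have hshort : ∀ A : ℕ, ((A - g A : ℕ) : ℝ) * Lx + bR R * (((A - g A : ℕ) : ℝ) * (1 + Real.log R) + R) ≤ N / L ^ k * (2 * L ^ 2) := by
    intro A
    have q1 : ((A - g A : ℕ) : ℝ) ≤ N / L ^ k := le_trans (by exact_mod_cast hgD A) hD1
    have q0 : (0 : ℝ) ≤ ((A - g A : ℕ) : ℝ) := Nat.cast_nonneg _
    have q2 : (0 : ℝ) ≤ N / L ^ k := by positivity
    have q3 : L * L ^ E ≤ N / L ^ k := by
      rw [le_div_iff₀ (by positivity)]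
      rw [one_mul, pow_add, pow_add, pow_one] at c3
      refine c3.trans ?_
      rw [Real.sqrt_le_left (by positivity)]
      nlinarith
    have q4 := Real.log_natCast_nonneg R
    calc ((A - g A : ℕ) : ℝ) * Lx + bR R * (((A - g A : ℕ) : ℝ) * (1 + Real.log R) + R)
        ≤ N / L ^ k * (2 * L) + L * (N / L ^ k * L + L ^ E) := by
          apply add_le_add
          · exact mul_le_mul q1 hLx2 (by linarith) q2
          · apply mul_le_mul hb1 _ (by positivity) hL0.le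
            exact add_le_add (mul_le_mul q1 hb2 (by linarith) q2) hz2
      _ = N / L ^ k * (2 * L + L ^ 2) + L * L ^ E := by ring
      _ ≤ N / L ^ k * (2 * L + L ^ 2) + N / L ^ k := by linarith
      _ = N / L ^ k * (2 * L + L ^ 2 + 1) := by ring
      _ ≤ N / L ^ k * (2 * L ^ 2) := by
          apply mul_le_mul_of_nonneg_left _ q2
          nlinarith
  have hsum : ∀ S : ℕ → ι → ℝ, (∀ A ≤ B * N, ∑ i, |S A i| ≤ N * Fintype.card ι / L ^ U') →
      (∀ i, ∀ A ≤ B * N, |S A i| ≤ |S (g A) i| + N / L ^ k * (2 * L ^ 2)) →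
      ∑ i, |S (A i) i| ≤ N * Fintype.card ι / L ^ (U + T) := by
    intro S hS1 hS2
    have q1 := net_sum S (B * N) g Rn _ (N / L ^ k * (2 * L ^ 2)) hgR hS1 hS2 A hA
    refine q1.trans ?_
    have q2 : (Rn.card : ℝ) * (N * Fintype.card ι / L ^ U') ≤ L ^ (k + 1) * (N * Fintype.card ι / L ^ U') :=
      mul_le_mul_of_nonneg_right hRc (by positivity)
    have q3 : L ^ (k + 1) * (N * Fintype.card ι / L ^ U') = N * Fintype.card ι / L ^ (U + T) * (1 / L) := by
      rw [hU', show T + k + U + 2 = (U + T) + (k + 1) + 1 by ring, pow_succ L ((U + T) + (k + 1)), pow_add L (U + T)]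
      field_simp
    have q4 : (Fintype.card ι : ℝ) * (N / L ^ k * (2 * L ^ 2)) = N * Fintype.card ι / L ^ (U + T) * (2 / L) := by
      rw [hk, show T + U + 3 = (U + T) + 3 by ring, pow_add]
      field_simp
    rw [q4]
    rw [q3] at q2
    have q5 : 1 / L + 2 / L ≤ 1 := by
      rw [← add_div, div_le_one hL0]
      linarith
    have q6 : 0 ≤ (N : ℝ) * Fintype.card ι / L ^ (U + T) := by positivity
    calc _ ≤ N * Fintype.card ι / L ^ (U + T) * (1 / L) + N * Fintype.card ι / L ^ (U + T) * (2 / L) := add_le_add q2 le_rfl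
      _ = N * Fintype.card ι / L ^ (U + T) * (1 / L + 2 / L) := by ring
      _ ≤ _ := mul_le_of_le_one_right q6 q5
  have hscale : ∀ x : ℝ, x ≤ N * Fintype.card ι / L ^ (U + T) → L ^ T * x ≤ N * Fintype.card ι / L ^ U := by
    intro x hx
    calc L ^ T * x ≤ L ^ T * (N * Fintype.card ι / L ^ (U + T)) := mul_le_mul_of_nonneg_left hx hLT.le
      _ = _ := by rw [pow_add]; field_simp
  constructor
  · have e1 : ∀ i, |S1 G R (A i) (v i)| = L ^ T * |S1 G' R (A i) (v i)| := by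
      intro i
      have e0 : S1 G R (A i) (v i) = L ^ T * S1 G' R (A i) (v i) := by
        unfold S1
        rw [mul_sum]
        apply sum_congr rfl
        intro n _
        rw [hGG n]
        ring
      rw [e0, abs_mul, abs_of_pos hLT]
    simp only [e1]
    rw [← mul_sum]
    apply hscale
    apply hsum (fun A i => S1 G' R A (v i))
    · intro A hA
      exact (c0 A hA G' hG1).1
    · intro i A hA
      unfold S1
      apply step _ _ _ (hgR A hA).1
      refine (short_gen G' hG1 R (g A) A (fun n => (n : ℤ) + v i) Lx _ (short_plus R (g A) A (v i)) ?_).trans (hshort A)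
      intro n hn
      rw [mem_Ioc] at hn
      apply lamI_le X Lx hLx.symm
      have q1 := (abs_le.1 (hv i)).2
      have q2 : (n : ℤ) ≤ B * N := by exact_mod_cast hn.2.trans hA
      have q4 : (0 : ℤ) ≤ N := by positivity
      rw [hX]
      push_cast
      linarith
  · have e1 : ∀ i, |S2 G R (A i) (v i)| = L ^ T * |S2 G' R (A i) (v i)| := by
      intro i
      have e0 : S2 G R (A i) (v i) = L ^ T * S2 G' R (A i) (v i) := by
        unfold S2
        rw [mul_sum]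
        apply sum_congr rfl
        intro n _
        rw [hGG n]
        ring
      rw [e0, abs_mul, abs_of_pos hLT]
    simp only [e1]
    rw [← mul_sum]
    apply hscale
    apply hsum (fun A i => S2 G' R A (v i))
    · intro A hA
      exact (c0 A hA G' hG1).2
    · intro i A hA
      unfold S2
      apply step _ _ _ (hgR A hA).1
      refine (short_gen G' hG1 R (g A) A (fun n => v i - (n : ℤ)) Lx _ (short_minus R (g A) A (v i)) ?_).trans (hshort A)
      intro n hn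
      rw [mem_Ioc] at hn
      apply lamI_le X Lx hLx.symm
      have q1 := (abs_le.1 (hv i)).2
      have q2 : (0 : ℤ) ≤ n := by positivity
      have q3 : (0 : ℤ) ≤ B * N := by positivity
      have q4 : (0 : ℤ) ≤ N := by positivity
      rw [hX]
      push_cast
      linarith

end Pool.Agent.U856.EH
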