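import Pool.Agent.TH212.EH.A4
import Pool.Agent.U856.EH.M5

set_option autoImplicit false

/-! The discrepancy of one residue in terms of correlations with the primes minus their Ramanujan model. -/

namespace Pool.Agent.U856.EH
open Finset
open Pool.Agent.H373R2.T7 (lamI)
open Pool.Agent.W93.LV
open Pool.Agent.TH212.EH (tau_pow_div)

/-- the identity -/
lemma ident (h : ℕ → ℝ) (lam : ℕ → ℝ) (Q y a : ℕ) (ha : 1 ≤ a) :
    ∑ q ∈ (Icc 1 Q).filter (fun q => a.Coprime q), lam q * (Fu (fun n => ArithmeticFunction.vonMangoldt n) y q a - (y : ℝ) / Nat.totient q) =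
      ∑ u ∈ (Icc 1 y).filter (fun u => u ≠ a), (ArithmeticFunction.vonMangoldt u - h u) * DD lam Q ((u - a) + (a - u)) +
      ∑ q ∈ (Icc 1 Q).filter (fun q => a.Coprime q), lam q * ((Fu h y q a - (y : ℝ) / Nat.totient q) +
        ((if a ≤ y then ArithmeticFunction.vonMangoldt a else 0) - (if a ≤ y then h a else 0))) +
      ∑ q ∈ (Icc 1 Q).filter (fun q => ¬ a.Coprime q), lam q * (Su h y q a - Su (fun n => ArithmeticFunction.vonMangoldt n) y q a) := by
  rw [← swap_sum lam Q (fun u => ArithmeticFunction.vonMangoldt u - h u) a y]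
  rw [← sum_filter_add_sum_filter_not (Icc 1 Q) (fun q => a.Coprime q)]
  have h1 : ∀ q, ∑ u ∈ ((Icc 1 y).filter (fun u => u ≡ a [MOD q])).filter (fun u => u ≠ a), (ArithmeticFunction.vonMangoldt u - h u) =
      Su (fun n => ArithmeticFunction.vonMangoldt n) y q a - Su h y q a := by
    intro q
    rw [← Su_sub]
    rfl
  simp only [h1]
  have h2 : ∑ q ∈ (Icc 1 Q).filter (fun q => a.Coprime q), lam q * (Fu (fun n => ArithmeticFunction.vonMangoldt n) y q a - (y : ℝ) / Nat.totient q) =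
      ∑ q ∈ (Icc 1 Q).filter (fun q => a.Coprime q), lam q * (Su (fun n => ArithmeticFunction.vonMangoldt n) y q a - Su h y q a) +
      ∑ q ∈ (Icc 1 Q).filter (fun q => a.Coprime q), lam q * ((Fu h y q a - (y : ℝ) / Nat.totient q) +
        ((if a ≤ y then ArithmeticFunction.vonMangoldt a else 0) - (if a ≤ y then h a else 0))) := by
    rw [← sum_add_distrib]
    apply sum_congr rfl
    intro q _
    rw [Fu_eq _ y q a ha, Fu_eq h y q a ha]
    ring
  have h3 : ∑ q ∈ (Icc 1 Q).filter (fun q => ¬ a.Coprime q), lam q * (Su (fun n => ArithmeticFunction.vonMangoldt n) y q a - Su h y q a) +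
      ∑ q ∈ (Icc 1 Q).filter (fun q => ¬ a.Coprime q), lam q * (Su h y q a - Su (fun n => ArithmeticFunction.vonMangoldt n) y q a) = 0 := by
    rw [← sum_add_distrib]
    apply sum_eq_zero
    intro q _
    ring
  linarith

/-- the error in terms of the parameters -/
lemma det1 (lam : ℕ → ℝ) (Q y a R X : ℕ) (Bm Lx : ℝ) (ha : 1 ≤ a) (haX : a ≤ X) (hyX : y ≤ X) (hQX : Q ≤ X)
    (hlam : ∀ q, |lam q| ≤ Bm) (hLx : Real.log X = Lx) (hL1 : 1 ≤ Lx) :
    |∑ q ∈ (Icc 1 Q).filter (fun q => a.Coprime q), lam q * (Fu (fun n => ArithmeticFunction.vonMangoldt n) y q a - (y : ℝ) / Nat.totient q)| ≤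
      |∑ u ∈ (Icc 1 y).filter (fun u => u ≠ a), (ArithmeticFunction.vonMangoldt u - mR R u) * DD lam Q ((u - a) + (a - u))| +
      Bm * (Q * (2 * (bR R * R) + Lx + 6 * Lx ^ 3) + X * (2 * Lx * (3 * Lx * HR R Q a))) := by
  have hX1 : 1 ≤ X := ha.trans haX
  have hX0 : (0 : ℝ) < X := by exact_mod_cast hX1
  have hBm : 0 ≤ Bm := (abs_nonneg _).trans (hlam 0)
  have hLx0 : 0 < Lx := by linarith
  have hloga : Real.log a ≤ Lx := by rw [← hLx]; exact Real.log_le_log (by exact_mod_cast ha) (by exact_mod_cast haX)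
  have hloga0 : 0 ≤ Real.log a := Real.log_natCast_nonneg a
  have hlogy : Real.log y ≤ Lx := by
    rcases Nat.eq_zero_or_pos y with h | h
    · subst h; simp; linarith
    · rw [← hLx]; exact Real.log_le_log (by exact_mod_cast h) (by exact_mod_cast hyX)
  have hlogy0 : 0 ≤ Real.log y := Real.log_natCast_nonneg y
  have hbR := bR_ge R
  rw [ident (mR R) lam Q y a ha]
  obtain ⟨b, hb⟩ : ∃ b, b = bR R * R := ⟨_, rfl⟩
  have hb0 : 0 ≤ b := by rw [hb]; positivity
  obtain ⟨Δ, hΔ⟩ : ∃ Δ : ℕ → ℝ, Δ = fun q => |∑ n ∈ (Icc 1 y).filter (fun n => n ≡ a [MOD q]), mR R n - (if a.Coprime q then (y : ℝ) / Nat.totient q else 0)| := ⟨_, rfl⟩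
  have hΔ0 : ∀ q, 0 ≤ Δ q := fun q => by rw [hΔ]; exact abs_nonneg _
  have hma : |(if a ≤ y then mR R a else (0 : ℝ))| ≤ b := by
    split_ifs
    · rw [hb]; exact mR_le_R R a
    · rw [abs_zero]; exact hb0
  have hla : |(if a ≤ y then ArithmeticFunction.vonMangoldt a else (0 : ℝ))| ≤ Lx := by
    split_ifs
    · rw [abs_of_nonneg ArithmeticFunction.vonMangoldt_nonneg]
      exact ArithmeticFunction.vonMangoldt_le_log.trans hloga
    · rw [abs_zero]; exact hLx0.le
  -- the coprime moduli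
  have c1 : |∑ q ∈ (Icc 1 Q).filter (fun q => a.Coprime q), lam q * ((Fu (mR R) y q a - (y : ℝ) / Nat.totient q) +
        ((if a ≤ y then ArithmeticFunction.vonMangoldt a else 0) - (if a ≤ y then mR R a else 0)))| ≤
      ∑ q ∈ (Icc 1 Q).filter (fun q => a.Coprime q), Bm * (Δ q + (Lx + b)) := by
    refine (abs_sum_le_sum_abs _ _).trans (sum_le_sum fun q hq => ?_)
    rw [mem_filter] at hq
    rw [abs_mul]
    apply mul_le_mul (hlam q) _ (abs_nonneg _) hBm
    refine (abs_add_le _ _).trans (add_le_add ?_ ((abs_sub _ _).trans (add_le_add hla hma)))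
    rw [hΔ]
    simp only
    rw [if_pos hq.2]
    exact le_rfl
  -- the other moduli
  have c2 : |∑ q ∈ (Icc 1 Q).filter (fun q => ¬ a.Coprime q), lam q * (Su (mR R) y q a - Su (fun n => ArithmeticFunction.vonMangoldt n) y q a)| ≤
      ∑ q ∈ (Icc 1 Q).filter (fun q => ¬ a.Coprime q), Bm * (Δ q + (Lx + b)) + Bm * (Q * (6 * Lx ^ 3)) := by
    have d1 : ∀ q ∈ (Icc 1 Q).filter (fun q => ¬ a.Coprime q), |lam q * (Su (mR R) y q a - Su (fun n => ArithmeticFunction.vonMangoldt n) y q a)| ≤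
        Bm * (Δ q + (Lx + b)) + Bm * Su (fun n => ArithmeticFunction.vonMangoldt n) y q a := by
      intro q hq
      rw [mem_filter] at hq
      rw [abs_mul, ← mul_add]
      apply mul_le_mul (hlam q) _ (abs_nonneg _) hBm
      have s2 : 0 ≤ Su (fun n => ArithmeticFunction.vonMangoldt n) y q a := sum_nonneg fun u _ => ArithmeticFunction.vonMangoldt_nonneg
      have s3 : Su (mR R) y q a = Fu (mR R) y q a - (if a ≤ y then mR R a else 0) := by
        rw [Fu_eq (mR R) y q a ha]; ring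
      have s4 : Fu (mR R) y q a = ∑ n ∈ (Icc 1 y).filter (fun n => n ≡ a [MOD q]), mR R n - (if a.Coprime q then (y : ℝ) / Nat.totient q else 0) := by
        rw [if_neg hq.2, sub_zero]
        rfl
      have s5 : |Fu (mR R) y q a| = Δ q := by rw [hΔ, s4]
      calc |Su (mR R) y q a - Su (fun n => ArithmeticFunction.vonMangoldt n) y q a|
          ≤ |Su (mR R) y q a| + |Su (fun n => ArithmeticFunction.vonMangoldt n) y q a| := abs_sub _ _
        _ ≤ (|Fu (mR R) y q a| + |(if a ≤ y then mR R a else 0)|) + Su (fun n => ArithmeticFunction.vonMangoldt n) y q a := by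
            rw [abs_of_nonneg s2, s3]
            exact add_le_add (abs_sub _ _) le_rfl
        _ ≤ _ := by
            rw [s5]
            linarith
    refine (abs_sum_le_sum_abs _ _).trans ((sum_le_sum d1).trans ?_)
    rw [sum_add_distrib, ← mul_sum (f := fun q => Su (fun n => ArithmeticFunction.vonMangoldt n) y q a)]
    apply add_le_add le_rfl
    apply mul_le_mul_of_nonneg_left _ hBm
    have k1 := nc_lam Q a y ha
    have k3 : (Q : ℝ) * (2 * Real.log a * ((Nat.log 2 y + 1 : ℝ) * Real.log y)) ≤ Q * (6 * Lx ^ 3) := by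
      apply mul_le_mul_of_nonneg_left _ (Nat.cast_nonneg _)
      have g1 : ((Nat.log 2 y : ℕ) : ℝ) + 1 ≤ 3 * Lx := by
        rcases Nat.eq_zero_or_pos y with h | h
        · subst h; simp; linarith
        · have := log2_le y h
          linarith
      have g2 : (Nat.log 2 y + 1 : ℝ) * Real.log y ≤ 3 * Lx * Lx := mul_le_mul g1 hlogy hlogy0 (by positivity)
      calc 2 * Real.log a * ((Nat.log 2 y + 1 : ℝ) * Real.log y) ≤ 2 * Lx * (3 * Lx * Lx) :=
            mul_le_mul (by linarith) g2 (by positivity) (by positivity)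
        _ = _ := by ring
    unfold Su
    exact k1.trans k3
  have c3 := abs_add_le (∑ u ∈ (Icc 1 y).filter (fun u => u ≠ a), (ArithmeticFunction.vonMangoldt u - mR R u) * DD lam Q ((u - a) + (a - u)))
      (∑ q ∈ (Icc 1 Q).filter (fun q => a.Coprime q), lam q * ((Fu (mR R) y q a - (y : ℝ) / Nat.totient q) +
        ((if a ≤ y then ArithmeticFunction.vonMangoldt a else 0) - (if a ≤ y then mR R a else 0))))
  have c4 : ∑ q ∈ (Icc 1 Q).filter (fun q => a.Coprime q), Bm * (Δ q + (Lx + b)) +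
      ∑ q ∈ (Icc 1 Q).filter (fun q => ¬ a.Coprime q), Bm * (Δ q + (Lx + b)) = Bm * (∑ q ∈ Icc 1 Q, Δ q + Q * (Lx + b)) := by
    rw [sum_filter_add_sum_filter_not, ← mul_sum, sum_add_distrib, sum_const, Nat.card_Icc, Nat.add_sub_cancel, nsmul_eq_mul]
  have c5 : ∑ q ∈ Icc 1 Q, Δ q ≤ Q * b + X * (2 * Lx * (3 * Lx * HR R Q a)) := by
    have e1 := mR_avg R Q y a X ha hQX
    rw [hLx, ← hb] at e1
    rw [hΔ]
    refine e1.trans (add_le_add le_rfl ?_)
    have hyr : (y : ℝ) ≤ X := by exact_mod_cast hyX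
    have hH := HR_nonneg R Q a
    apply mul_le_mul hyr _ (by positivity) hX0.le
    apply mul_le_mul (by linarith) _ (by positivity) (by positivity)
    exact mul_le_mul_of_nonneg_right (by linarith) hH
  have c6 : Bm * (∑ q ∈ Icc 1 Q, Δ q + Q * (Lx + b)) + Bm * (Q * (6 * Lx ^ 3)) ≤
      Bm * (Q * (2 * b + Lx + 6 * Lx ^ 3) + X * (2 * Lx * (3 * Lx * HR R Q a))) := by
    rw [← mul_add]
    apply mul_le_mul_of_nonneg_left _ hBm
    nlinarith
  refine (abs_add_le _ _).trans ?_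
  rw [← hb]
  linarith

/-- moments of the divisor function -/
lemma tau_four (X : ℕ) : ∑ n ∈ Icc 1 X, (n.divisors.card : ℝ) ^ 4 ≤ X * (1 + Real.log X) ^ 16 := by
  have h1 := tau_pow_div 4 X
  have h2 : ∀ n ∈ Icc 1 X, (n.divisors.card : ℝ) ^ 4 ≤ X * ((n.divisors.card : ℝ) ^ 4 / n) := by
    intro n hn
    rw [mem_Icc] at hn
    have hn0 : (0 : ℝ) < n := by exact_mod_cast hn.1
    have hnX : (n : ℝ) ≤ X := by exact_mod_cast hn.2
    rw [← mul_div_assoc, le_div_iff₀ hn0, mul_comm]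
    exact mul_le_mul_of_nonneg_right hnX (by positivity)
  refine (sum_le_sum h2).trans ?_
  rw [← mul_sum]
  apply mul_le_mul_of_nonneg_left _ (Nat.cast_nonneg _)
  norm_num at h1
  exact h1

/-- truncation in a sum -/
lemma trunc_sum (lam : ℕ → ℝ) (Q : ℕ) (τ B Lx b : ℝ) (hτ : 0 < τ) (hlam : ∀ q, |lam q| ≤ B) (X M : ℕ) (hM : M ≤ X) (F : ℕ → ℝ)
    (f : ℕ → ℕ) (hf : ∀ n ∈ Icc 1 M, f n ∈ Icc 1 X) (hinj : ∀ n ∈ Icc 1 M, ∀ n' ∈ Icc 1 M, f n = f n' → n = n')
    (hLx : 1 ≤ Lx) (hLxX : Real.log X = Lx) (hb : 0 ≤ b) (hF : ∀ n ∈ Icc 1 M, |F n| ≤ Lx + b * ((f n).divisors.card : ℝ)) :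
    |∑ n ∈ Icc 1 M, DD lam Q n * F n| ≤ |∑ n ∈ Icc 1 M, DT lam Q τ n * F n| + B / τ * (X * ((Lx + b) * (2 * Lx) ^ 16)) := by
  have hB : 0 ≤ B := (abs_nonneg _).trans (hlam 0)
  have e1 : ∑ n ∈ Icc 1 M, DD lam Q n * F n = ∑ n ∈ Icc 1 M, DT lam Q τ n * F n + ∑ n ∈ Icc 1 M, (DD lam Q n - DT lam Q τ n) * F n := by
    rw [← sum_add_distrib]
    apply sum_congr rfl
    intro n _
    ring
  rw [e1]
  refine (abs_add_le _ _).trans (add_le_add le_rfl ?_)
  refine (abs_sum_le_sum_abs _ _).trans ?_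
  have h1 : ∀ n ∈ Icc 1 M, |(DD lam Q n - DT lam Q τ n) * F n| ≤
      B / τ * ((Lx + b) * (1 / 2 * (n.divisors.card : ℝ) ^ 4 + 1 / 2 * ((f n).divisors.card : ℝ) ^ 2)) := by
    intro n hn
    rw [abs_mul]
    have k1 := DT_diff lam Q τ B hτ hlam n (mem_Icc.1 hn).1
    have k2 := hF n hn
    have hfn := mem_Icc.1 (hf n hn)
    have k3 : (1 : ℝ) ≤ ((f n).divisors.card : ℝ) := by
      exact_mod_cast card_pos.2 (Nat.nonempty_divisors.2 (by omega))
    obtain ⟨s, hs⟩ : ∃ s : ℝ, s = (n.divisors.card : ℝ) := ⟨_, rfl⟩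
    obtain ⟨t, ht⟩ : ∃ t : ℝ, t = ((f n).divisors.card : ℝ) := ⟨_, rfl⟩
    rw [← hs] at k1 ⊢
    rw [← ht] at k2 k3 ⊢
    have hs0 : 0 ≤ s := by rw [hs]; exact Nat.cast_nonneg _
    have k4 : |F n| ≤ (Lx + b) * t := by
      refine k2.trans ?_
      nlinarith
    calc |DD lam Q n - DT lam Q τ n| * |F n| ≤ (B / τ * s ^ 2) * ((Lx + b) * t) :=
          mul_le_mul k1 k4 (abs_nonneg _) (by positivity)
      _ = B / τ * ((Lx + b) * (s ^ 2 * t)) := by ring
      _ ≤ _ := by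
          apply mul_le_mul_of_nonneg_left _ (by positivity)
          apply mul_le_mul_of_nonneg_left _ (by linarith)
          nlinarith [sq_nonneg (s ^ 2 - t)]
  refine (sum_le_sum h1).trans ?_
  rw [← mul_sum, ← mul_sum, sum_add_distrib, ← mul_sum, ← mul_sum]
  apply mul_le_mul_of_nonneg_left _ (by positivity)
  have h2 : ∑ n ∈ Icc 1 M, (n.divisors.card : ℝ) ^ 4 ≤ X * (1 + Lx) ^ 16 := by
    rw [← hLxX]
    refine le_trans ?_ (tau_four X)
    exact sum_le_sum_of_subset_of_nonneg (Icc_subset_Icc_right hM) (fun _ _ _ => by positivity)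
  have h3 : ∑ n ∈ Icc 1 M, ((f n).divisors.card : ℝ) ^ 2 ≤ X * (1 + Lx) ^ 3 := by
    rw [← hLxX]
    refine le_trans ?_ (tau_sq X)
    rw [← sum_image (s := Icc 1 M) (g := f) (f := fun n => ((n.divisors.card : ℝ)) ^ 2) (by
      intro n hn n' hn' he
      exact hinj n (by exact_mod_cast hn) n' (by exact_mod_cast hn') he)]
    apply sum_le_sum_of_subset_of_nonneg
    · intro m hm
      rw [mem_image] at hm
      obtain ⟨n, hn, rfl⟩ := hm
      exact hf n hn
    · intro _ _ _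
      positivity
  have h4 : (1 + Lx) ^ 16 ≤ (2 * Lx) ^ 16 := pow_le_pow_left₀ (by linarith) (by linarith) 16
  have h5 : (1 + Lx) ^ 3 ≤ (2 * Lx) ^ 16 := by
    refine le_trans (pow_le_pow_left₀ (by linarith) (by linarith : 1 + Lx ≤ 2 * Lx) 3) ?_
    exact pow_le_pow_right₀ (by linarith) (by norm_num)
  have hX0 : (0 : ℝ) ≤ X := Nat.cast_nonneg _
  have h6 : 1 / 2 * ∑ n ∈ Icc 1 M, (n.divisors.card : ℝ) ^ 4 + 1 / 2 * ∑ n ∈ Icc 1 M, ((f n).divisors.card : ℝ) ^ 2 ≤
      X * (2 * Lx) ^ 16 := by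
    have := mul_le_mul_of_nonneg_left h4 hX0
    have := mul_le_mul_of_nonneg_left h5 hX0
    linarith
  calc (Lx + b) * (1 / 2 * ∑ n ∈ Icc 1 M, (n.divisors.card : ℝ) ^ 4 + 1 / 2 * ∑ n ∈ Icc 1 M, ((f n).divisors.card : ℝ) ^ 2)
      ≤ (Lx + b) * (X * (2 * Lx) ^ 16) := mul_le_mul_of_nonneg_left h6 (by linarith)
    _ = _ := by ring

lemma dR_nat (R m : ℕ) (hm : 1 ≤ m) : dR R (m : ℤ) = ArithmeticFunction.vonMangoldt m - mR R m := by
  unfold dR lamI mI
  rw [if_pos (by exact_mod_cast hm), if_pos (by exact_mod_cast hm), Int.toNat_natCast]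

/-- the three sums -/
lemma three (lam : ℕ → ℝ) (Q a y R X : ℕ) (τ B Lx b : ℝ) (hτ : 0 < τ) (hlam : ∀ q, |lam q| ≤ B) (ha : 1 ≤ a) (haX : a ≤ X) (hyX : y ≤ X)
    (hLx : Real.log X = Lx) (hb : bR R ≤ b) (hL1 : 1 ≤ Lx) :
    |∑ u ∈ (Icc 1 y).filter (fun u => u ≠ a), (ArithmeticFunction.vonMangoldt u - mR R u) * DD lam Q ((u - a) + (a - u))| ≤
      |S1 (DT lam Q τ) R (y - a) ((a : ℕ) : ℤ)| +
      (|S2 (DT lam Q τ) R (a - 1) ((a : ℕ) : ℤ)| + |S2 (DT lam Q τ) R (a - 1 - y) ((a : ℕ) : ℤ)|) +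
      3 * (B / τ * (X * ((Lx + b) * (2 * Lx) ^ 16))) := by
  obtain ⟨f, hf⟩ : ∃ f : ℕ → ℝ, f = fun u => ArithmeticFunction.vonMangoldt u - mR R u := ⟨_, rfl⟩
  have hfr : ∀ u, ArithmeticFunction.vonMangoldt u - mR R u = f u := fun u => by rw [hf]
  have hb0 : 0 ≤ b := by linarith [bR_ge R]
  have hfb : ∀ u, 1 ≤ u → u ≤ X → |f u| ≤ Lx + b * (u.divisors.card : ℝ) := by
    intro u hu1 hu2
    rw [← hfr]
    have q3 : |ArithmeticFunction.vonMangoldt u| ≤ Lx := by
      rw [abs_of_nonneg ArithmeticFunction.vonMangoldt_nonneg]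
      refine ArithmeticFunction.vonMangoldt_le_log.trans ?_
      rw [← hLx]
      exact Real.log_le_log (by exact_mod_cast hu1) (by exact_mod_cast hu2)
    have q4 : |mR R u| ≤ b * (u.divisors.card : ℝ) :=
      (mR_le_tau R u hu1).trans (mul_le_mul_of_nonneg_right hb (Nat.cast_nonneg _))
    exact (abs_sub _ _).trans (add_le_add q3 q4)
  simp only [hfr]
  rw [split_sum (DD lam Q) f a y ha]
  have s1 := trunc_sum lam Q τ B Lx b hτ hlam X (y - a) (by omega) (fun n => f (n + a)) (fun n => n + a) (by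
    intro n hn
    rw [mem_Icc] at hn ⊢
    omega) (by
    intro n _ n' _ h
    omega) hL1 hLx hb0 (by
    intro n hn
    rw [mem_Icc] at hn
    exact hfb _ (by omega) (by omega))
  have s2 := trunc_sum lam Q τ B Lx b hτ hlam X (a - 1) (by omega) (fun n => f (a - n)) (fun n => a - n) (by
    intro n hn
    rw [mem_Icc] at hn ⊢
    omega) (by
    intro n hn n' hn' h
    rw [mem_Icc] at hn hn'
    omega) hL1 hLx hb0 (by
    intro n hn
    rw [mem_Icc] at hn
    exact hfb _ (by omega) (by omega))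
  have s3 := trunc_sum lam Q τ B Lx b hτ hlam X (a - 1 - y) (by omega) (fun n => f (a - n)) (fun n => a - n) (by
    intro n hn
    rw [mem_Icc] at hn ⊢
    omega) (by
    intro n hn n' hn' h
    rw [mem_Icc] at hn hn'
    omega) hL1 hLx hb0 (by
    intro n hn
    rw [mem_Icc] at hn
    exact hfb _ (by omega) (by omega))
  have e1 : ∑ n ∈ Icc 1 (y - a), DT lam Q τ n * f (n + a) = S1 (DT lam Q τ) R (y - a) ((a : ℕ) : ℤ) := by
    unfold S1
    apply sum_congr rfl
    intro n hn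
    rw [mem_Icc] at hn
    have := dR_nat R (n + a) (by omega)
    rw [hfr] at this
    rw [← this]
    push_cast
    rfl
  have e2 : ∀ M, M ≤ a - 1 → ∑ n ∈ Icc 1 M, DT lam Q τ n * f (a - n) = S2 (DT lam Q τ) R M ((a : ℕ) : ℤ) := by
    intro M hM
    unfold S2
    apply sum_congr rfl
    intro n hn
    rw [mem_Icc] at hn
    have := dR_nat R (a - n) (by omega)
    rw [hfr] at this
    rw [← this, Nat.cast_sub (by omega)]
  rw [e1] at s1
  rw [e2 _ le_rfl] at s2
  rw [e2 _ (by omega)] at s3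
  have t1 := abs_add_le (∑ n ∈ Icc 1 (y - a), DD lam Q n * f (n + a)) (∑ n ∈ Icc 1 (a - 1), DD lam Q n * f (a - n) - ∑ n ∈ Icc 1 (a - 1 - y), DD lam Q n * f (a - n))
  have t2 := abs_sub (∑ n ∈ Icc 1 (a - 1), DD lam Q n * f (a - n)) (∑ n ∈ Icc 1 (a - 1 - y), DD lam Q n * f (a - n))
  linarith

/-- the sum over the `u ≤ y`, `u ≡ -A (mod q)` -/
noncomputable def Fn (g : ℕ → ℝ) (y q A : ℕ) : ℝ := ∑ u ∈ (Icc 1 y).filter (fun u => q ∣ u + A), g u

lemma swap_neg (lam : ℕ → ℝ) (Q : ℕ) (g : ℕ → ℝ) (A y : ℕ) :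
    ∑ q ∈ Icc 1 Q, lam q * Fn g y q A = ∑ u ∈ Icc 1 y, g u * DD lam Q (u + A) := by
  unfold Fn DD
  simp only [sum_filter, mul_sum]
  rw [sum_comm]
  apply sum_congr rfl
  intro u _
  apply sum_congr rfl
  intro q _
  split_ifs <;> ring

/-- the von Mangoldt function and the moduli not coprime to the residue -/
lemma nc_neg (Q A y : ℕ) :
    ∑ q ∈ (Icc 1 Q).filter (fun q => ¬ A.Coprime q), Fn (fun n => ArithmeticFunction.vonMangoldt n) y q A ≤
      Q * ((Nat.log 2 y + 1 : ℝ) * Real.log y) := by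
  have hL : 0 ≤ (Nat.log 2 y + 1 : ℝ) * Real.log y := by
    have := Real.log_natCast_nonneg y
    positivity
  have h1 : ∀ q ∈ (Icc 1 Q).filter (fun q => ¬ A.Coprime q), Fn (fun n => ArithmeticFunction.vonMangoldt n) y q A ≤
      (Nat.log 2 y + 1 : ℝ) * Real.log y := by
    intro q hq
    rw [mem_filter] at hq
    obtain ⟨r, hr, hra, hrq⟩ := Nat.Prime.not_coprime_iff_dvd.1 hq.2
    refine le_trans ?_ (Pool.Agent.H373R2.T7.lam_mult_prime y r hr)
    unfold Fn
    apply sum_le_sum_of_subset_of_nonneg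
    · intro u hu
      rw [mem_filter] at hu ⊢
      exact ⟨hu.1, (Nat.dvd_add_left hra).1 (hrq.trans hu.2)⟩
    · intro u _ _
      exact ArithmeticFunction.vonMangoldt_nonneg
  refine (sum_le_sum h1).trans ?_
  rw [sum_const, nsmul_eq_mul]
  apply mul_le_mul_of_nonneg_right _ hL
  have h5 : ((Icc 1 Q).filter (fun q => ¬ A.Coprime q)).card ≤ Q := (card_filter_le _ _).trans (by simp)
  exact_mod_cast h5

/-- the error for a negative residue -/
lemma det_neg (lam : ℕ → ℝ) (Q y A R X : ℕ) (Bm Lx : ℝ) (hyX : y ≤ X) (hQX : Q ≤ X)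
    (hlam : ∀ q, |lam q| ≤ Bm) (hLx : Real.log X = Lx) (hL1 : 1 ≤ Lx) :
    |∑ q ∈ (Icc 1 Q).filter (fun q => A.Coprime q), lam q * (Fn (fun n => ArithmeticFunction.vonMangoldt n) y q A - (y : ℝ) / Nat.totient q)| ≤
      |∑ u ∈ Icc 1 y, (ArithmeticFunction.vonMangoldt u - mR R u) * DD lam Q (u + A)| +
      Bm * (Q * (2 * (bR R * R) + Lx + 6 * Lx ^ 3) + X * (2 * Lx * (3 * Lx * HR R Q A))) := by
  have hBm : 0 ≤ Bm := (abs_nonneg _).trans (hlam 0)
  have hLx0 : 0 < Lx := by linarith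
  have hlogy : Real.log y ≤ Lx := by
    rcases Nat.eq_zero_or_pos y with h | h
    · subst h; simp; linarith
    · rw [← hLx]; exact Real.log_le_log (by exact_mod_cast h) (by exact_mod_cast hyX)
  have hlogy0 : 0 ≤ Real.log y := Real.log_natCast_nonneg y
  have hbR := bR_ge R
  obtain ⟨b, hb⟩ : ∃ b, b = bR R * R := ⟨_, rfl⟩
  have hb0 : 0 ≤ b := by rw [hb]; positivity
  obtain ⟨Δ, hΔ⟩ : ∃ Δ : ℕ → ℝ, Δ = fun q => |∑ n ∈ (Icc 1 y).filter (fun n => q ∣ n + A), mR R n - (if A.Coprime q then (y : ℝ) / Nat.totient q else 0)| := ⟨_, rfl⟩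
  have hsub : ∀ q, Fn (fun u => ArithmeticFunction.vonMangoldt u - mR R u) y q A =
      Fn (fun n => ArithmeticFunction.vonMangoldt n) y q A - Fn (mR R) y q A := by
    intro q
    unfold Fn
    rw [sum_sub_distrib]
  have h0 := swap_neg lam Q (fun u => ArithmeticFunction.vonMangoldt u - mR R u) A y
  rw [← sum_filter_add_sum_filter_not (Icc 1 Q) (fun q => A.Coprime q)] at h0
  simp only [hsub] at h0
  have hid : ∑ q ∈ (Icc 1 Q).filter (fun q => A.Coprime q), lam q * (Fn (fun n => ArithmeticFunction.vonMangoldt n) y q A - (y : ℝ) / Nat.totient q) =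
      ∑ u ∈ Icc 1 y, (ArithmeticFunction.vonMangoldt u - mR R u) * DD lam Q (u + A) +
      ∑ q ∈ (Icc 1 Q).filter (fun q => A.Coprime q), lam q * (Fn (mR R) y q A - (y : ℝ) / Nat.totient q) +
      ∑ q ∈ (Icc 1 Q).filter (fun q => ¬ A.Coprime q), lam q * (Fn (mR R) y q A - Fn (fun n => ArithmeticFunction.vonMangoldt n) y q A) := by
    rw [← h0]
    have h2 : ∑ q ∈ (Icc 1 Q).filter (fun q => A.Coprime q), lam q * (Fn (fun n => ArithmeticFunction.vonMangoldt n) y q A - (y : ℝ) / Nat.totient q) =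
        ∑ q ∈ (Icc 1 Q).filter (fun q => A.Coprime q), lam q * (Fn (fun n => ArithmeticFunction.vonMangoldt n) y q A - Fn (mR R) y q A) +
        ∑ q ∈ (Icc 1 Q).filter (fun q => A.Coprime q), lam q * (Fn (mR R) y q A - (y : ℝ) / Nat.totient q) := by
      rw [← sum_add_distrib]
      apply sum_congr rfl
      intro q _
      ring
    have h3 : ∑ q ∈ (Icc 1 Q).filter (fun q => ¬ A.Coprime q), lam q * (Fn (fun n => ArithmeticFunction.vonMangoldt n) y q A - Fn (mR R) y q A) +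
        ∑ q ∈ (Icc 1 Q).filter (fun q => ¬ A.Coprime q), lam q * (Fn (mR R) y q A - Fn (fun n => ArithmeticFunction.vonMangoldt n) y q A) = 0 := by
      rw [← sum_add_distrib]
      apply sum_eq_zero
      intro q _
      ring
    linarith
  rw [hid]
  have c1 : |∑ q ∈ (Icc 1 Q).filter (fun q => A.Coprime q), lam q * (Fn (mR R) y q A - (y : ℝ) / Nat.totient q)| ≤
      ∑ q ∈ (Icc 1 Q).filter (fun q => A.Coprime q), Bm * Δ q := by
    refine (abs_sum_le_sum_abs _ _).trans (sum_le_sum fun q hq => ?_)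
    rw [mem_filter] at hq
    rw [abs_mul]
    apply mul_le_mul (hlam q) _ (abs_nonneg _) hBm
    rw [hΔ]
    simp only
    rw [if_pos hq.2]
    exact le_rfl
  have c2 : |∑ q ∈ (Icc 1 Q).filter (fun q => ¬ A.Coprime q), lam q * (Fn (mR R) y q A - Fn (fun n => ArithmeticFunction.vonMangoldt n) y q A)| ≤
      ∑ q ∈ (Icc 1 Q).filter (fun q => ¬ A.Coprime q), Bm * Δ q + Bm * (Q * (6 * Lx ^ 3)) := by
    have d1 : ∀ q ∈ (Icc 1 Q).filter (fun q => ¬ A.Coprime q), |lam q * (Fn (mR R) y q A - Fn (fun n => ArithmeticFunction.vonMangoldt n) y q A)| ≤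
        Bm * Δ q + Bm * Fn (fun n => ArithmeticFunction.vonMangoldt n) y q A := by
      intro q hq
      rw [mem_filter] at hq
      rw [abs_mul, ← mul_add]
      apply mul_le_mul (hlam q) _ (abs_nonneg _) hBm
      have s2 : 0 ≤ Fn (fun n => ArithmeticFunction.vonMangoldt n) y q A := sum_nonneg fun u _ => ArithmeticFunction.vonMangoldt_nonneg
      have s4 : Fn (mR R) y q A = ∑ n ∈ (Icc 1 y).filter (fun n => q ∣ n + A), mR R n - (if A.Coprime q then (y : ℝ) / Nat.totient q else 0) := by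
        rw [if_neg hq.2, sub_zero]
        rfl
      have s5 : |Fn (mR R) y q A| = Δ q := by rw [hΔ, s4]
      refine (abs_sub _ _).trans ?_
      rw [s5, abs_of_nonneg s2]
    refine (abs_sum_le_sum_abs _ _).trans ((sum_le_sum d1).trans ?_)
    rw [sum_add_distrib, ← mul_sum (f := fun q => Fn (fun n => ArithmeticFunction.vonMangoldt n) y q A)]
    apply add_le_add le_rfl
    apply mul_le_mul_of_nonneg_left _ hBm
    have k1 := nc_neg Q A y
    refine k1.trans ?_
    apply mul_le_mul_of_nonneg_left _ (Nat.cast_nonneg _)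
    have g1 : ((Nat.log 2 y : ℕ) : ℝ) + 1 ≤ 3 * Lx := by
      rcases Nat.eq_zero_or_pos y with h | h
      · subst h; simp; linarith
      · have := log2_le y h
        linarith
    have g2 : (Nat.log 2 y + 1 : ℝ) * Real.log y ≤ 3 * Lx * Lx := mul_le_mul g1 hlogy hlogy0 (by positivity)
    have g3 : Lx ^ 2 ≤ Lx ^ 3 := pow_le_pow_right₀ hL1 (by norm_num)
    nlinarith
  have c3 := abs_add_le (∑ u ∈ Icc 1 y, (ArithmeticFunction.vonMangoldt u - mR R u) * DD lam Q (u + A))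
      (∑ q ∈ (Icc 1 Q).filter (fun q => A.Coprime q), lam q * (Fn (mR R) y q A - (y : ℝ) / Nat.totient q))
  have c4 : ∑ q ∈ (Icc 1 Q).filter (fun q => A.Coprime q), Bm * Δ q +
      ∑ q ∈ (Icc 1 Q).filter (fun q => ¬ A.Coprime q), Bm * Δ q = Bm * ∑ q ∈ Icc 1 Q, Δ q := by
    rw [sum_filter_add_sum_filter_not, ← mul_sum]
  have c5 : ∑ q ∈ Icc 1 Q, Δ q ≤ Q * b + X * (2 * Lx * (3 * Lx * HR R Q A)) := by
    have e1 := mR_avg_neg R Q y A X hQX
    rw [hLx, ← hb] at e1
    rw [hΔ]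
    refine e1.trans (add_le_add le_rfl ?_)
    have hyr : (y : ℝ) ≤ X := by exact_mod_cast hyX
    have hH := HR_nonneg R Q A
    apply mul_le_mul hyr _ (by positivity) (Nat.cast_nonneg _)
    apply mul_le_mul (by linarith) _ (by positivity) (by positivity)
    exact mul_le_mul_of_nonneg_right (by linarith) hH
  have c6 : Bm * ∑ q ∈ Icc 1 Q, Δ q + Bm * (Q * (6 * Lx ^ 3)) ≤
      Bm * (Q * (2 * b + Lx + 6 * Lx ^ 3) + X * (2 * Lx * (3 * Lx * HR R Q A))) := by
    rw [← mul_add]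
    apply mul_le_mul_of_nonneg_left _ hBm
    have hQ0 : (0 : ℝ) ≤ Q := Nat.cast_nonneg _
    have h7 : (0 : ℝ) ≤ Q * b := mul_nonneg hQ0 hb0
    have h8 : (0 : ℝ) ≤ Q * Lx := mul_nonneg hQ0 hLx0.le
    linarith
  refine (abs_add_le _ _).trans ?_
  rw [← hb]
  linarith

lemma dR_nonpos (R : ℕ) (k : ℤ) (hk : k ≤ 0) : dR R k = 0 := by
  unfold dR lamI mI
  rw [if_neg (by omega), if_neg (by omega), sub_zero]

/-- the sum for a negative residue -/
lemma three_neg (lam : ℕ → ℝ) (Q A y R X : ℕ) (τ B Lx b : ℝ) (hτ : 0 < τ) (hlam : ∀ q, |lam q| ≤ B) (hyX : y + A ≤ X)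
    (hLx : Real.log X = Lx) (hb : bR R ≤ b) (hL1 : 1 ≤ Lx) :
    |∑ u ∈ Icc 1 y, (ArithmeticFunction.vonMangoldt u - mR R u) * DD lam Q (u + A)| ≤
      |S1 (DT lam Q τ) R (y + A) (-((A : ℕ) : ℤ))| + 3 * (B / τ * (X * ((Lx + b) * (2 * Lx) ^ 16))) := by
  have hB : 0 ≤ B := (abs_nonneg _).trans (hlam 0)
  have hb0 : 0 ≤ b := by linarith [bR_ge R]
  have h0 : ∑ u ∈ Icc 1 y, (ArithmeticFunction.vonMangoldt u - mR R u) * DD lam Q (u + A) =
      ∑ n ∈ Icc 1 (y + A), DD lam Q n * dR R ((n : ℤ) + -((A : ℕ) : ℤ)) := by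
    have e1 : Icc 1 (y + A) = Icc 1 A ∪ Icc (A + 1) (y + A) := by
      ext n
      simp only [mem_union, mem_Icc]
      omega
    have e2 : Disjoint (Icc 1 A) (Icc (A + 1) (y + A)) := by
      rw [Finset.disjoint_left]
      intro n h1 h2
      rw [mem_Icc] at h1 h2
      omega
    rw [e1, sum_union e2]
    have e3 : ∑ n ∈ Icc 1 A, DD lam Q n * dR R ((n : ℤ) + -((A : ℕ) : ℤ)) = 0 := by
      apply sum_eq_zero
      intro n hn
      rw [mem_Icc] at hn
      rw [dR_nonpos R _ (by omega), mul_zero]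
    rw [e3, zero_add]
    apply sum_nbij' (fun u => u + A) (fun n => n - A)
    · intro u hu
      rw [mem_Icc] at hu ⊢
      omega
    · intro n hn
      rw [mem_Icc] at hn ⊢
      omega
    · intro u _
      omega
    · intro n hn
      rw [mem_Icc] at hn
      omega
    · intro u hu
      rw [mem_Icc] at hu
      have := dR_nat R u hu.1
      rw [← this, mul_comm]
      congr 2
      push_cast
      ring
  rw [h0]
  have s1 := trunc_sum lam Q τ B Lx b hτ hlam X (y + A) hyX (fun n => dR R ((n : ℤ) + -((A : ℕ) : ℤ)))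
    (fun n => if n ≤ A then n + y else n - A) (by
    intro n hn
    rw [mem_Icc] at hn ⊢
    split_ifs <;> omega) (by
    intro n hn n' hn' h
    rw [mem_Icc] at hn hn'
    split_ifs at h <;> omega) hL1 hLx hb0 (by
    intro n hn
    rw [mem_Icc] at hn
    split_ifs with hnA
    · rw [dR_nonpos R _ (by omega), abs_zero]
      positivity
    · have e1 : (n : ℤ) + -((A : ℕ) : ℤ) = ((n - A : ℕ) : ℤ) := by
        rw [Nat.cast_sub (by omega)]
        ring
      rw [e1, dR_nat R (n - A) (by omega)]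
      have q3 : |ArithmeticFunction.vonMangoldt (n - A)| ≤ Lx := by
        rw [abs_of_nonneg ArithmeticFunction.vonMangoldt_nonneg]
        refine ArithmeticFunction.vonMangoldt_le_log.trans ?_
        rw [← hLx]
        exact Real.log_le_log (by exact_mod_cast (by omega : 0 < n - A)) (by exact_mod_cast (by omega : n - A ≤ X))
      have q4 : |mR R (n - A)| ≤ b * ((n - A).divisors.card : ℝ) :=
        (mR_le_tau R (n - A) (by omega)).trans (mul_le_mul_of_nonneg_right hb (Nat.cast_nonneg _))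
      exact (abs_sub _ _).trans (add_le_add q3 q4))
  unfold S1
  have h9 : 0 ≤ B / τ * (X * ((Lx + b) * (2 * Lx) ^ 16)) := by positivity
  linarith

end Pool.Agent.U856.EH
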