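import Pool.Agent.TH212.EH.A1
import Pool.Agent.U856.EH.M2

set_option autoImplicit false

/-! The members of a family of small energy divisible by a given number. -/

namespace Pool.Agent.U856.EH
open Finset
open Pool.Agent.TH212.EH (En)
open Pool.Agent.W93.LV (tau_div_sum)

open Classical in
/-- few members of the family are divisible by `g` -/
lemma mult_count (p : ℕ) {ι : Type} [Fintype ι] (v : ι → ℤ) (M g : ℕ) (hg : 1 ≤ g) (hv : ∀ i, |v i| ≤ M) :
    ((univ.filter (fun i => (g : ℤ) ∣ v i)).card : ℝ) ^ (2 * p) ≤ (2 * (p * M / g) + 1) * (En p v : ℝ) := by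
  have hg0 : (0 : ℤ) < g := by exact_mod_cast hg
  obtain ⟨I, hI⟩ : ∃ I, I = univ.filter (fun i => (g : ℤ) ∣ v i) := ⟨_, rfl⟩
  obtain ⟨P, hP⟩ : ∃ P : Finset (Fin p → ι), P = Fintype.piFinset (fun _ : Fin p => I) := ⟨_, rfl⟩
  obtain ⟨f, hf⟩ : ∃ f : (Fin p → ι) → ℤ, f = fun t => ∑ j, v (t j) := ⟨_, rfl⟩
  obtain ⟨k, hk⟩ : ∃ k : ℕ, k = p * M / g := ⟨_, rfl⟩
  obtain ⟨T, hT⟩ : ∃ T : Finset ℤ, T = (Icc (-(k : ℤ)) k).image (fun j => (g : ℤ) * j) := ⟨_, rfl⟩
  have hPI : ∀ t ∈ P, ∀ j, (g : ℤ) ∣ v (t j) := by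
    intro t ht j
    rw [hP, Fintype.mem_piFinset] at ht
    have := ht j
    rw [hI, mem_filter] at this
    exact this.2
  have hmaps : ∀ t ∈ P, f t ∈ T := by
    intro t ht
    have h1 : (g : ℤ) ∣ f t := by
      rw [hf]
      exact dvd_sum fun j _ => hPI t ht j
    obtain ⟨c, hc⟩ := h1
    have h2 : |f t| ≤ p * M := by
      rw [hf]
      refine (abs_sum_le_sum_abs _ _).trans ?_
      refine (sum_le_sum fun j _ => hv (t j)).trans ?_
      simp
    rw [hT, mem_image]
    refine ⟨c, ?_, hc.symm⟩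
    rw [hc, abs_mul, abs_of_pos hg0] at h2
    have h3 : |c| ≤ (k : ℤ) := by
      have h4 : c.natAbs ≤ k := by
        rw [hk, Nat.le_div_iff_mul_le (by omega)]
        have h5 : ((c.natAbs * g : ℕ) : ℤ) ≤ ((p * M : ℕ) : ℤ) := by
          push_cast
          rw [mul_comm]
          exact h2
        exact_mod_cast h5
      rw [Int.abs_eq_natAbs]
      exact_mod_cast h4
    rw [mem_Icc]
    exact abs_le.1 h3
  have hTc : T.card ≤ 2 * k + 1 := by
    rw [hT]
    refine card_image_le.trans ?_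
    rw [Int.card_Icc]
    omega
  have hPc : (P.card : ℝ) = (I.card : ℝ) ^ p := by
    rw [hP, Fintype.card_piFinset]
    simp
  have h1 : (P.card : ℝ) = ∑ s ∈ T, ((P.filter (fun t => f t = s)).card : ℝ) := by
    rw [card_eq_sum_card_fiberwise (f := f) (t := T) (fun t ht => hmaps t ht)]
    push_cast
    rfl
  have h2 : ∑ s ∈ T, ((P.filter (fun t => f t = s)).card : ℝ) ^ 2 ≤ (En p v : ℝ) := by
    have h3 : ∑ s ∈ T, (P.filter (fun t => f t = s)).card ^ 2 =
        (T.biUnion (fun s => (P.filter (fun t => f t = s)) ×ˢ (P.filter (fun t => f t = s)))).card := by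
      rw [card_biUnion]
      · apply sum_congr rfl
        intro s _
        rw [card_product, pow_two]
      · intro s _ s' _ hss
        rw [Function.onFun, disjoint_left]
        intro q h4 h5
        rw [mem_product, mem_filter] at h4 h5
        exact hss (h4.1.2.symm.trans h5.1.2)
    have h4 : (T.biUnion (fun s => (P.filter (fun t => f t = s)) ×ˢ (P.filter (fun t => f t = s)))).card ≤ En p v := by
      unfold En
      rw [Nat.card_eq_fintype_card, Fintype.card_subtype]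
      apply card_le_card
      intro q hq
      rw [mem_biUnion] at hq
      obtain ⟨s, _, hq⟩ := hq
      rw [mem_product, mem_filter, mem_filter] at hq
      rw [mem_filter]
      refine ⟨mem_univ _, ?_⟩
      have h5 : f q.1 = f q.2 := hq.1.2.trans hq.2.2.symm
      rw [hf] at h5
      exact h5
    rw [← h3] at h4
    exact_mod_cast h4
  have h3 : (∑ s ∈ T, ((P.filter (fun t => f t = s)).card : ℝ)) ^ 2 ≤ (T.card : ℝ) * ∑ s ∈ T, ((P.filter (fun t => f t = s)).card : ℝ) ^ 2 :=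
    sq_sum_le_card_mul_sum_sq
  rw [← h1, hPc, ← pow_mul, mul_comm p 2] at h3
  rw [← hI]
  refine h3.trans ?_
  have hk2 : (k : ℝ) ≤ p * M / g := by
    rw [hk]
    refine Nat.cast_div_le.trans ?_
    push_cast
    exact le_rfl
  have hTr : (T.card : ℝ) ≤ 2 * (p * M / g) + 1 := by
    have : (T.card : ℝ) ≤ 2 * k + 1 := by exact_mod_cast hTc
    linarith
  exact mul_le_mul hTr h2 (sum_nonneg fun _ _ => by positivity) (by positivity)

open Classical in
/-- the average of the tails over the family -/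
lemma HR_avg (p : ℕ) (hp : 1 ≤ p) {ι : Type} [Fintype ι] (v : ι → ℤ) (R Q X : ℕ) (hR : 1 ≤ R) (hQX : Q ≤ X) (K1 ρ : ℝ) (hρ : 0 ≤ ρ)
    (hK1 : 0 ≤ K1) (hKR : K1 / R ≤ ρ ^ (2 * p))
    (hn : ∀ g : ℕ, 1 ≤ g → g ≤ Q → ((univ.filter (fun i => (g : ℤ) ∣ v i)).card : ℝ) ^ (2 * p) ≤ K1 / g * (Fintype.card ι : ℝ) ^ (2 * p)) :
    ∑ i ∈ univ.filter (fun i => v i ≠ 0), HR R Q (v i).natAbs ≤ Fintype.card ι * ρ * (1 + Real.log X) ^ 2 := by
  obtain ⟨n, hndef⟩ : ∃ n : ℕ → ℝ, n = fun g : ℕ => ((univ.filter (fun i => (g : ℤ) ∣ v i)).card : ℝ) := ⟨_, rfl⟩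
  have hn0 : ∀ g, 0 ≤ n g := fun g => by rw [hndef]; exact Nat.cast_nonneg _
  have hR0 : (0 : ℝ) < R := by exact_mod_cast hR
  -- for each r and g
  have key : ∀ r g : ℕ, R < r → r ≤ Q → 1 ≤ g → g ≤ r → (g : ℝ) * n g ≤ r * (Fintype.card ι * ρ) := by
    intro r g hr hrQ hg hgr
    have hg0 : (0 : ℝ) < g := by exact_mod_cast hg
    have hr0 : (0 : ℝ) < r := by exact_mod_cast (by omega : 0 < r)
    have hgr' : (g : ℝ) ≤ r := by exact_mod_cast hgr
    have hRr' : (R : ℝ) ≤ r := by exact_mod_cast hr.le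
    have h1 := hn g hg (hgr.trans hrQ)
    have h2 : ((g : ℝ) * n g) ^ (2 * p) ≤ (r * (Fintype.card ι * ρ)) ^ (2 * p) := by
      rw [mul_pow, mul_pow, mul_pow]
      obtain ⟨j, hj⟩ : ∃ j, 2 * p = j + 1 := ⟨2 * p - 1, by omega⟩
      have h3 : (g : ℝ) ^ (2 * p) * (K1 / g * (Fintype.card ι : ℝ) ^ (2 * p)) = g ^ j * (K1 * (Fintype.card ι : ℝ) ^ (2 * p)) := by
        rw [hj, pow_succ]
        field_simp
      have h4 : (r : ℝ) ^ (2 * p) * ((Fintype.card ι : ℝ) ^ (2 * p) * (K1 / r)) = r ^ j * (K1 * (Fintype.card ι : ℝ) ^ (2 * p)) := by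
        rw [hj, pow_succ]
        field_simp
      calc (g : ℝ) ^ (2 * p) * n g ^ (2 * p) ≤ (g : ℝ) ^ (2 * p) * (K1 / g * (Fintype.card ι : ℝ) ^ (2 * p)) := by
            apply mul_le_mul_of_nonneg_left _ (by positivity)
            rw [hndef]
            exact h1
        _ = g ^ j * (K1 * (Fintype.card ι : ℝ) ^ (2 * p)) := h3
        _ ≤ r ^ j * (K1 * (Fintype.card ι : ℝ) ^ (2 * p)) := by
            apply mul_le_mul_of_nonneg_right _ (by positivity)
            exact pow_le_pow_left₀ hg0.le hgr' j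
        _ = (r : ℝ) ^ (2 * p) * ((Fintype.card ι : ℝ) ^ (2 * p) * (K1 / r)) := h4.symm
        _ ≤ (r : ℝ) ^ (2 * p) * ((Fintype.card ι : ℝ) ^ (2 * p) * ρ ^ (2 * p)) := by
            apply mul_le_mul_of_nonneg_left _ (by positivity)
            apply mul_le_mul_of_nonneg_left _ (by positivity)
            refine le_trans ?_ hKR
            exact div_le_div_of_nonneg_left hK1 hR0 hRr'
    exact le_of_pow_le_pow_left₀ (by omega) (by positivity) h2
  -- sums of greatest common divisors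
  have hgcd : ∀ r : ℕ, R < r → r ≤ Q → ∑ i ∈ univ.filter (fun i => v i ≠ 0), ((r.gcd (v i).natAbs : ℕ) : ℝ) ≤
      (r.divisors.card : ℝ) * (r * (Fintype.card ι * ρ)) := by
    intro r hr hrQ
    have h1 : ∀ i ∈ univ.filter (fun i => v i ≠ 0), ((r.gcd (v i).natAbs : ℕ) : ℝ) ≤
        ∑ g ∈ r.divisors, if (g : ℤ) ∣ v i then (g : ℝ) else 0 := by
      intro i hi
      rw [mem_filter] at hi
      have h2 : r.gcd (v i).natAbs ∈ r.divisors := Nat.mem_divisors.2 ⟨Nat.gcd_dvd_left _ _, by omega⟩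
      have h3 : ((r.gcd (v i).natAbs : ℕ) : ℤ) ∣ v i := by
        rw [← Int.dvd_natAbs]
        exact_mod_cast Nat.gcd_dvd_right r (v i).natAbs
      have h5 := single_le_sum (f := fun g : ℕ => if (g : ℤ) ∣ v i then (g : ℝ) else 0) (s := r.divisors) (fun g _ => by
        split_ifs
        · exact Nat.cast_nonneg _
        · exact le_rfl) h2
      rw [if_pos h3] at h5
      exact h5
    refine (sum_le_sum h1).trans ?_
    rw [sum_comm]
    have h2 : ∀ g ∈ r.divisors, ∑ i ∈ univ.filter (fun i => v i ≠ 0), (if (g : ℤ) ∣ v i then (g : ℝ) else 0) ≤ r * (Fintype.card ι * ρ) := by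
      intro g hg
      have hg1 := Nat.pos_of_mem_divisors hg
      have hgr := Nat.divisor_le hg
      refine le_trans ?_ (key r g hr hrQ hg1 hgr)
      calc ∑ i ∈ univ.filter (fun i => v i ≠ 0), (if (g : ℤ) ∣ v i then (g : ℝ) else 0)
          ≤ ∑ i, (if (g : ℤ) ∣ v i then (g : ℝ) else 0) := by
            apply sum_le_sum_of_subset_of_nonneg (filter_subset _ _)
            intro i _ _
            split_ifs
            · exact Nat.cast_nonneg _
            · exact le_rfl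
        _ = (g : ℝ) * n g := by
            rw [← sum_filter, sum_const, nsmul_eq_mul, hndef, mul_comm]
    refine (sum_le_sum h2).trans ?_
    rw [sum_const, nsmul_eq_mul]
  unfold HR
  rw [sum_comm]
  have h1 : ∀ r ∈ Ioc R Q, ∑ i ∈ univ.filter (fun i => v i ≠ 0), ((r.gcd (v i).natAbs : ℕ) : ℝ) * (1 / (r : ℝ) ^ 2) ≤
      Fintype.card ι * ρ * ((r.divisors.card : ℝ) / r) := by
    intro r hr
    rw [mem_Ioc] at hr
    have hr0 : (0 : ℝ) < r := by exact_mod_cast (by omega : 0 < r)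
    rw [← sum_mul]
    calc (∑ i ∈ univ.filter (fun i => v i ≠ 0), ((r.gcd (v i).natAbs : ℕ) : ℝ)) * (1 / (r : ℝ) ^ 2)
        ≤ ((r.divisors.card : ℝ) * (r * (Fintype.card ι * ρ))) * (1 / (r : ℝ) ^ 2) :=
          mul_le_mul_of_nonneg_right (hgcd r hr.1 hr.2) (by positivity)
      _ = _ := by field_simp
  refine (sum_le_sum h1).trans ?_
  rw [← mul_sum]
  apply mul_le_mul_of_nonneg_left _ (by positivity)
  refine le_trans ?_ (tau_div_sum X)
  apply sum_le_sum_of_subset_of_nonneg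
  · intro r hr
    rw [mem_Ioc] at hr
    rw [mem_Icc]
    omega
  · intro r _ _
    positivity

end Pool.Agent.U856.EH
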