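import Pool.Agent.U856.EH.M6
import Pool.Agent.U856.EH.M7

set_option autoImplicit false

/-! The weighted discrepancies along a thin family, up to the original level of Elliott and Halberstam. -/

namespace Pool.Agent.U856.EH
open Finset
open Pool.Agent.H373R2.T7 (lamI energy ev_L' ev_log')
open Pool.Agent.W93.LV
open Pool.Agent.TH212.EH (En large W WW)

/-- the sum over the `n ≤ y` with `n ≡ b (mod q)`, for an integer `b` -/
noncomputable def FZ (g : ℕ → ℝ) (y q : ℕ) (b : ℤ) : ℝ := ∑ n ∈ (Icc 1 y).filter (fun n : ℕ => (n : ℤ) ≡ b [ZMOD q]), g n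

/-- the weighted discrepancy of an integer residue, with lengths depending on the modulus -/
noncomputable def WZ (lam : ℕ → ℝ) (y : ℕ → ℕ) (Q : ℕ) (b : ℤ) : ℝ :=
  ∑ q ∈ (Icc 1 Q).filter (fun q : ℕ => Int.gcd b q = 1),
    lam q * (FZ (fun n => ArithmeticFunction.vonMangoldt n) (y q) q b - (y q : ℝ) / Nat.totient q)

lemma FZ_nat (g : ℕ → ℝ) (y q a : ℕ) (b : ℤ) (h : (a : ℤ) ≡ b [ZMOD q]) : FZ g y q b = Fu g y q a := by
  unfold FZ Fu
  apply sum_congr _ (fun _ _ => rfl)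
  apply filter_congr
  intro n _
  rw [← Int.natCast_modEq_iff]
  exact ⟨fun h' => h'.trans h.symm, fun h' => h'.trans h⟩

lemma gcd_modEq (a q : ℕ) (b : ℤ) (h : (a : ℤ) ≡ b [ZMOD q]) : Int.gcd b q = 1 ↔ a.Coprime q := by
  have h1 : Int.gcd (a : ℤ) (q : ℤ) = Int.gcd b (q : ℤ) := by
    obtain ⟨c, hc⟩ := h.dvd
    have : b = (a : ℤ) + q * c := by linarith
    rw [this]
    simp
  rw [← h1, Int.gcd_natCast_natCast]

/-- natural representatives -/
lemma WZ_nat (lam : ℕ → ℝ) (y : ℕ → ℕ) (Q a : ℕ) (b : ℤ) (h : ∀ q ∈ Icc 1 Q, (a : ℤ) ≡ b [ZMOD q]) :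
    WZ lam y Q b = WW lam y Q a := by
  unfold WZ WW
  have h1 : (Icc 1 Q).filter (fun q : ℕ => Int.gcd b q = 1) = (Icc 1 Q).filter (fun q => a.Coprime q) := by
    apply filter_congr
    intro q hq
    exact gcd_modEq a q b (h q hq)
  rw [h1]
  apply sum_congr rfl
  intro q hq
  rw [mem_filter] at hq
  rw [FZ_nat _ _ _ a b (h q hq.1)]

lemma WZ_pos (lam : ℕ → ℝ) (y : ℕ → ℕ) (Q a : ℕ) : WZ lam y Q (a : ℤ) = WW lam y Q a :=
  WZ_nat lam y Q a a (fun _ _ => Int.ModEq.refl _)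

/-- a representative of `b` for all the moduli up to `Q` -/
noncomputable def rep (Q : ℕ) (b : ℤ) : ℕ := (b % (Q.factorial : ℤ)).toNat

lemma rep_modEq (Q : ℕ) (b : ℤ) (q : ℕ) (h1 : 1 ≤ q) (h2 : q ≤ Q) : ((rep Q b : ℕ) : ℤ) ≡ b [ZMOD q] := by
  unfold rep
  have hf : (0 : ℤ) < (Q.factorial : ℤ) := by exact_mod_cast Nat.factorial_pos Q
  rw [Int.toNat_of_nonneg (Int.emod_nonneg _ hf.ne')]
  have h3 : (q : ℤ) ∣ (Q.factorial : ℤ) := by exact_mod_cast Nat.dvd_factorial (by omega) h2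
  exact (Int.mod_modEq b _).of_dvd h3

lemma WZ_rep (lam : ℕ → ℝ) (y : ℕ → ℕ) (Q' Q : ℕ) (b : ℤ) (h : Q' ≤ Q) : WZ lam y Q' b = WW lam y Q' (rep Q b) := by
  apply WZ_nat
  intro q hq
  rw [mem_Icc] at hq
  exact rep_modEq Q b q hq.1 (hq.2.trans h)

lemma WZ_neg (lam : ℕ → ℝ) (y Q A : ℕ) : WZ lam (fun _ => y) Q (-(A : ℤ)) =
    ∑ q ∈ (Icc 1 Q).filter (fun q => A.Coprime q), lam q * (Fn (fun n => ArithmeticFunction.vonMangoldt n) y q A - (y : ℝ) / Nat.totient q) := by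
  unfold WZ
  have h1 : (Icc 1 Q).filter (fun q : ℕ => Int.gcd (-(A : ℤ)) q = 1) = (Icc 1 Q).filter (fun q => A.Coprime q) := by
    apply filter_congr
    intro q _
    rw [Int.neg_gcd, Int.gcd_natCast_natCast]
  rw [h1]
  apply sum_congr rfl
  intro q _
  have h2 : FZ (fun n => ArithmeticFunction.vonMangoldt n) y q (-(A : ℤ)) = Fn (fun n => ArithmeticFunction.vonMangoldt n) y q A := by
    unfold FZ Fn
    apply sum_congr _ (fun _ _ => rfl)
    apply filter_congr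
    intro n _
    constructor
    · intro h
      have h3 := h.symm.dvd
      rw [sub_neg_eq_add] at h3
      exact_mod_cast h3
    · intro h
      apply Int.ModEq.symm
      rw [Int.modEq_iff_dvd, sub_neg_eq_add]
      exact_mod_cast h
  rw [h2]

/-- `N / log ^ K N` -/
noncomputable def level (K N : ℕ) : ℝ := N / Real.log N ^ K

lemma level_nonneg (K N : ℕ) : 0 ≤ level K N := by
  unfold level
  have := Real.log_natCast_nonneg N
  positivity

/-- the final numerical inequality -/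
lemma fin_num (L Lx N X Q b Rr n H C0 : ℝ) (T U E1 K : ℕ) (hL : 1 ≤ L) (hLx0 : 1 ≤ Lx) (hLx : Lx ≤ 2 * L) (hN : 0 < N)
    (hX : X = C0 * N) (hC0 : 0 ≤ C0) (hn : 0 ≤ n) (hH0 : 0 ≤ H) (hb : b ≤ L) (hb0 : 0 ≤ b) (hRr0 : 0 ≤ Rr)
    (hRr : Rr ≤ L ^ (E1 + 1)) (hQ : Q ≤ N / L ^ K) (hK : T + U + E1 + 5 ≤ K)
    (hH : H ≤ n * (1 / L ^ (T + U + 7)) * (2 * Lx) ^ 2) (hbig : 100000 + 400 * C0 ≤ L) :
    n * (3 * (L ^ T / L ^ (T + U + 25) * (X * ((Lx + b) * (2 * Lx) ^ 16)))) +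
      L ^ T * (n * (Q * (2 * (b * Rr) + Lx + 6 * Lx ^ 3)) + X * (2 * Lx * (3 * Lx * H))) ≤ 3 * (N * n / L ^ (U + 1)) := by
  have hL0 : 0 < L := by linarith
  have hX0 : 0 ≤ X := by rw [hX]; positivity
  -- truncation
  have k1 : n * (3 * (L ^ T / L ^ (T + U + 25) * (X * ((Lx + b) * (2 * Lx) ^ 16)))) ≤ N * n / L ^ (U + 1) := by
    have e1 : L ^ T / L ^ (T + U + 25) = 1 / (L ^ (U + 1) * L ^ 24) := by
      rw [show T + U + 25 = T + ((U + 1) + 24) by ring, pow_add L T, pow_add L (U + 1)]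
      have := pow_pos hL0 24
      field_simp
    rw [e1]
    calc n * (3 * (1 / (L ^ (U + 1) * L ^ 24) * (X * ((Lx + b) * (2 * Lx) ^ 16))))
        ≤ n * (3 * (1 / (L ^ (U + 1) * L ^ 24) * (X * ((2 * L + L) * (2 * (2 * L)) ^ 16)))) := by gcongr
      _ = (9 * 4 ^ 16 * C0 / L ^ 7) * (N * n / L ^ (U + 1)) := by
          rw [hX]
          have := pow_pos hL0 24
          field_simp
          ring
      _ ≤ 1 * (N * n / L ^ (U + 1)) := by
          apply mul_le_mul_of_nonneg_right _ (by positivity)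
          rw [div_le_one (by positivity)]
          have h1 : (100000 : ℝ) ≤ L := by linarith
          have h2 : C0 ≤ L := by linarith
          have h3 : (100000 : ℝ) ^ 6 ≤ L ^ 6 := pow_le_pow_left₀ (by norm_num) h1 6
          calc 9 * 4 ^ 16 * C0 ≤ (100000 : ℝ) ^ 6 * L := by
                have h4 : (9 : ℝ) * 4 ^ 16 ≤ 100000 ^ 6 := by norm_num
                exact mul_le_mul h4 h2 hC0 (by positivity)
            _ ≤ L ^ 6 * L := mul_le_mul_of_nonneg_right h3 hL0.le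
            _ = L ^ 7 := by ring
      _ = _ := one_mul _
  -- the moduli
  have k2 : L ^ T * (n * (Q * (2 * (b * Rr) + Lx + 6 * Lx ^ 3))) ≤ N * n / L ^ (U + 1) := by
    have f0 : 1 ≤ L ^ E1 := one_le_pow₀ hL
    have f1 : 2 * (b * Rr) + Lx + 6 * Lx ^ 3 ≤ 52 * (L ^ E1 * L ^ 3) := by
      have g1 : L ≤ L ^ 3 := le_self_pow₀ hL (by norm_num)
      have g2 : Lx ^ 3 ≤ 8 * L ^ 3 := by
        calc Lx ^ 3 ≤ (2 * L) ^ 3 := pow_le_pow_left₀ (by linarith) hLx 3
          _ = _ := by ring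
      have g3 : b * Rr ≤ L ^ E1 * L ^ 3 := by
        calc b * Rr ≤ L * L ^ (E1 + 1) := mul_le_mul hb hRr hRr0 hL0.le
          _ = L ^ E1 * L ^ 2 := by ring
          _ ≤ L ^ E1 * L ^ 3 := by
              apply mul_le_mul_of_nonneg_left _ (by positivity)
              exact pow_le_pow_right₀ hL (by norm_num)
      have g4 : L ^ 3 ≤ L ^ E1 * L ^ 3 := le_mul_of_one_le_left (by positivity) f0
      linarith
    have f2 : Q ≤ N / L ^ (T + U + E1 + 5) := by
      refine hQ.trans ?_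
      apply div_le_div_of_nonneg_left hN.le (by positivity)
      exact pow_le_pow_right₀ hL hK
    calc L ^ T * (n * (Q * (2 * (b * Rr) + Lx + 6 * Lx ^ 3)))
        ≤ L ^ T * (n * (N / L ^ (T + U + E1 + 5) * (52 * (L ^ E1 * L ^ 3)))) := by gcongr
      _ = (52 / L) * (N * n / L ^ (U + 1)) := by
          rw [show T + U + E1 + 5 = T + E1 + 3 + 1 + (U + 1) by ring, pow_add L (T + E1 + 3 + 1), pow_add L (T + E1 + 3), pow_add L (T + E1),
            pow_add L T, pow_one]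
          field_simp
      _ ≤ 1 * (N * n / L ^ (U + 1)) := by
          apply mul_le_mul_of_nonneg_right _ (by positivity)
          rw [div_le_one hL0]
          linarith
      _ = _ := one_mul _
  -- the tails
  have k3 : L ^ T * (X * (2 * Lx * (3 * Lx * H))) ≤ N * n / L ^ (U + 1) := by
    calc L ^ T * (X * (2 * Lx * (3 * Lx * H)))
        ≤ L ^ T * (X * (2 * (2 * L) * (3 * (2 * L) * (n * (1 / L ^ (T + U + 7)) * (2 * (2 * L)) ^ 2)))) := by
          have : H ≤ n * (1 / L ^ (T + U + 7)) * (2 * (2 * L)) ^ 2 := by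
            refine hH.trans ?_
            gcongr
          gcongr
      _ = (384 * C0 / L ^ 2) * (N * n / L ^ (U + 1)) := by
          rw [hX, show T + U + 7 = T + 6 + (U + 1) by ring, pow_add L (T + 6), pow_add L T]
          field_simp
          ring
      _ ≤ 1 * (N * n / L ^ (U + 1)) := by
          apply mul_le_mul_of_nonneg_right _ (by positivity)
          rw [div_le_one (by positivity)]
          nlinarith
      _ = _ := one_mul _
  have e : L ^ T * (n * (Q * (2 * (b * Rr) + Lx + 6 * Lx ^ 3)) + X * (2 * Lx * (3 * Lx * H))) =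
      L ^ T * (n * (Q * (2 * (b * Rr) + Lx + 6 * Lx ^ 3))) + L ^ T * (X * (2 * Lx * (3 * Lx * H))) := by ring
  rw [e]
  linarith

open Classical in
/-- first moments of the weighted discrepancies, for a fixed `Q` -/
theorem fixQ (p B C T U : ℕ) : ∃ K N0 : ℕ, ∀ N : ℕ, N0 ≤ N → ∀ (ι : Type) [Fintype ι] (v : ι → ℤ),
    (∀ i, |v i| ≤ B * N) → (En p v : ℝ) * N ≤ Real.log N ^ C * (Fintype.card ι : ℝ) ^ (2 * p) →
    ∀ lam : ℕ → ℝ, (∀ q, |lam q| ≤ Real.log N ^ T) → ∀ Q : ℕ, (Q : ℝ) ≤ level K N →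
    ∀ y : ι → ℕ, (∀ i, y i ≤ B * N) →
    ∑ i ∈ univ.filter (fun i => v i ≠ 0), |WZ lam (fun _ => y i) Q (v i)| ≤ N * Fintype.card ι / Real.log N ^ U := by
  obtain ⟨B0, h0⟩ := maxi p (2 * B + 1) C (T + (T + U + 25)) (U + 1)
  obtain ⟨E1, hE1⟩ : ∃ E1, E1 = B0 + (C + 1) + (T + U + 7) * (2 * p) := ⟨_, rfl⟩
  obtain ⟨n0, h0⟩ := h0 (E1 + 1)
  obtain ⟨n1, h1⟩ := bR_small (E1 + 1)
  obtain ⟨C0, hC0⟩ : ∃ C0 : ℕ, C0 = 2 * B + 1 := ⟨_, rfl⟩
  obtain ⟨n3, h3⟩ := ev_log' C 1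
  obtain ⟨n2, h2⟩ := large (100000 + 400 * (C0 : ℝ) + Real.log C0 + (2 * p * B + 1)) (n0 + n1 + n3 + 3)
  obtain ⟨K, hK⟩ : ∃ K, K = T + U + E1 + 5 := ⟨_, rfl⟩
  refine ⟨K, n2, fun N hN ι _ v hv hE lam hlam Q hQ y hy => ?_⟩
  obtain ⟨hN1, hLK, hL1⟩ := h2 N hN
  have hN0 : (0 : ℝ) < N := by exact_mod_cast (by omega : 0 < N)
  have hC0r : (1 : ℝ) ≤ C0 := by rw [hC0]; push_cast; linarith [(Nat.cast_nonneg B : (0 : ℝ) ≤ B)]
  have hlC0 : 0 ≤ Real.log (C0 : ℝ) := Real.log_natCast_nonneg C0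
  have hpB : (0 : ℝ) ≤ 2 * p * B := by positivity
  have c3 := h3 N (by omega)
  have c0 := h0 N (by omega) ι v (by
    intro i
    refine (hv i).trans ?_
    have : (0 : ℤ) ≤ (B : ℤ) * N := by positivity
    have : (0 : ℤ) ≤ (N : ℤ) := by positivity
    push_cast
    linarith) hE
  unfold level at hQ
  obtain ⟨L, hL⟩ : ∃ L, L = Real.log (N : ℝ) := ⟨_, rfl⟩
  rw [← hL] at hLK hL1 hlam c0 c3 hE hQ ⊢
  have hL0 : 0 < L := by linarith
  have hbig : 100000 + 400 * (C0 : ℝ) ≤ L := by linarith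
  -- the order of the energy is positive
  have hp : 1 ≤ p := by
    by_contra hp0
    have hp0' : p = 0 := by omega
    subst hp0'
    have h4 : (1 : ℝ) ≤ (En 0 v : ℝ) := by
      have h5 : 1 ≤ En 0 v := by
        unfold En
        rw [Nat.card_eq_fintype_card]
        exact Fintype.card_pos_iff.2 ⟨⟨(fun j => j.elim0, fun j => j.elim0), by simp⟩⟩
      exact_mod_cast h5
    rw [mul_zero, pow_zero, mul_one] at hE
    have h5 : (N : ℝ) ≤ √(N : ℝ) := by
      calc (N : ℝ) ≤ (En 0 v : ℝ) * N := le_mul_of_one_le_left hN0.le h4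
        _ ≤ L ^ C := hE
        _ ≤ √(N : ℝ) := by rw [one_mul] at c3; exact c3
    have h6 : √(N : ℝ) < N := by
      rw [Real.sqrt_lt' hN0]
      have : (1 : ℝ) < N := by exact_mod_cast (by omega : 1 < N)
      nlinarith
    linarith
  -- the level of the model
  obtain ⟨R, hR⟩ : ∃ R, R = ⌈L ^ E1⌉₊ := ⟨_, rfl⟩
  have hR1 : L ^ E1 ≤ R := by rw [hR]; exact Nat.le_ceil _
  have hR2 : (R : ℝ) ≤ L ^ (E1 + 1) := by
    have q1 : (R : ℝ) < L ^ E1 + 1 := by rw [hR]; exact Nat.ceil_lt_add_one (by positivity)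
    have q2 : 1 ≤ L ^ E1 := one_le_pow₀ hL1
    rw [pow_succ]
    nlinarith
  have hRge : 1 ≤ R := by
    have : (1 : ℝ) ≤ R := (one_le_pow₀ hL1).trans hR1
    exact_mod_cast this
  have hR0 : (0 : ℝ) < R := by exact_mod_cast hRge
  have hbR := (h1 N (by omega) R hRge (by rw [← hL]; exact hR2)).1
  rw [← hL] at hbR
  have hbR1 := bR_ge R
  -- the range
  obtain ⟨X, hX⟩ : ∃ X : ℕ, X = C0 * N := ⟨_, rfl⟩
  have hXN : N ≤ X := by rw [hX]; exact Nat.le_mul_of_pos_left _ (by omega)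
  have hBX : B * N ≤ X := by rw [hX, hC0]; exact Nat.mul_le_mul_right _ (by omega)
  have hBX2 : B * N + B * N ≤ X := by
    rw [hX, hC0]
    calc B * N + B * N = 2 * B * N := by ring
      _ ≤ (2 * B + 1) * N := Nat.mul_le_mul_right _ (by omega)
  obtain ⟨Lx, hLx⟩ : ∃ Lx, Lx = Real.log (X : ℝ) := ⟨_, rfl⟩
  have hLx1 : L ≤ Lx := by
    rw [hL, hLx]
    exact Real.log_le_log hN0 (by exact_mod_cast hXN)
  have hLx2 : Lx ≤ 2 * L := by
    rw [hLx, hX]
    push_cast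
    rw [Real.log_mul (by positivity) hN0.ne', ← hL]
    linarith
  have hQNr : (Q : ℝ) ≤ N := hQ.trans (div_le_self hN0.le (one_le_pow₀ hL1))
  have hQN : Q ≤ N := by exact_mod_cast hQNr
  have hQX : Q ≤ X := by omega
  have hτ : (0 : ℝ) < L ^ (T + U + 25) := by positivity
  obtain ⟨G, hG⟩ : ∃ G, G = DT lam Q (L ^ (T + U + 25)) := ⟨_, rfl⟩
  have hGb : ∀ n, |G n| ≤ L ^ (T + (T + U + 25)) := by
    intro n
    rw [hG]
    refine (DT_le lam Q _ (L ^ T) hτ.le hlam n).trans (le_of_eq ?_)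
    rw [← pow_add]
  have key := c0 R ((pow_le_pow_right₀ hL1 (by omega)).trans hR1) hR2 G hGb
  -- the tails on average over the family
  have hHR : ∑ i ∈ univ.filter (fun i => v i ≠ 0), HR R Q (v i).natAbs ≤ Fintype.card ι * (1 / L ^ (T + U + 7)) * (2 * Lx) ^ 2 := by
    have q1 := HR_avg p hp v R Q X hRge hQX ((2 * p * B + 1) * L ^ C) (1 / L ^ (T + U + 7)) (by positivity) (by positivity) (by
      rw [div_le_iff₀ hR0, div_pow, one_pow, ← pow_mul, div_mul_eq_mul_div, one_mul, le_div_iff₀ (by positivity)]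
      calc (2 * (p : ℝ) * B + 1) * L ^ C * L ^ ((T + U + 7) * (2 * p)) ≤ L * L ^ C * L ^ ((T + U + 7) * (2 * p)) := by
            apply mul_le_mul_of_nonneg_right _ (by positivity)
            apply mul_le_mul_of_nonneg_right _ (by positivity)
            linarith
        _ = L ^ ((C + 1) + (T + U + 7) * (2 * p)) := by rw [pow_add, pow_succ]; ring
        _ ≤ L ^ E1 := pow_le_pow_right₀ hL1 (by omega)
        _ ≤ R := hR1) (by
      intro g hg1 hgQ
      have hg0 : (0 : ℝ) < g := by exact_mod_cast hg1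
      have hgN : (g : ℝ) ≤ N := by exact_mod_cast hgQ.trans hQN
      have q2 := mult_count p v (B * N) g hg1 (by
        intro i
        push_cast
        exact hv i)
      refine q2.trans ?_
      push_cast
      have q3 : 2 * ((p : ℝ) * (B * N) / g) + 1 ≤ (2 * p * B + 1) * (N / g) := by
        have : 1 ≤ (N : ℝ) / g := by
          rw [le_div_iff₀ hg0, one_mul]
          exact hgN
        have e : (2 * (p : ℝ) * B + 1) * (N / g) = 2 * ((p : ℝ) * (B * N) / g) + N / g := by ring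
        linarith
      calc (2 * ((p : ℝ) * (B * N) / g) + 1) * (En p v : ℝ) ≤ (2 * p * B + 1) * (N / g) * (En p v : ℝ) :=
            mul_le_mul_of_nonneg_right q3 (Nat.cast_nonneg _)
        _ = (2 * p * B + 1) / g * ((En p v : ℝ) * N) := by ring
        _ ≤ (2 * p * B + 1) / g * (L ^ C * (Fintype.card ι : ℝ) ^ (2 * p)) := mul_le_mul_of_nonneg_left hE (by positivity)
        _ = _ := by ring)
    refine q1.trans ?_
    have q4 : 1 + Real.log (X : ℝ) ≤ 2 * Lx := by rw [← hLx]; linarith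
    have q5 := log1_nonneg X
    gcongr
  -- for each member of the family
  obtain ⟨A1, hA1⟩ : ∃ A1 : ι → ℕ, A1 = fun i => if 0 < v i then y i - (v i).toNat else y i + (v i).natAbs := ⟨_, rfl⟩
  obtain ⟨A2, hA2⟩ : ∃ A2 : ι → ℕ, A2 = fun i => (v i).toNat - 1 := ⟨_, rfl⟩
  obtain ⟨A3, hA3⟩ : ∃ A3 : ι → ℕ, A3 = fun i => (v i).toNat - 1 - y i := ⟨_, rfl⟩
  have hvB : ∀ i, (v i).toNat ≤ B * N := by
    intro i
    have q1 := (abs_le.1 (hv i)).2
    have q2 : (0 : ℤ) ≤ B * N := by positivity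
    zify
    rw [Int.toNat_eq_max]
    exact max_le q1 q2
  have hvB2 : ∀ i, (v i).natAbs ≤ B * N := by
    intro i
    have q1 := hv i
    zify
    exact q1
  have hBB : B * N ≤ (2 * B + 1) * N := Nat.mul_le_mul_right _ (by omega)
  have hA1B : ∀ i, A1 i ≤ (2 * B + 1) * N := by
    intro i
    rw [hA1]
    simp only
    split_ifs
    · exact ((Nat.sub_le _ _).trans (hy i)).trans hBB
    · calc y i + (v i).natAbs ≤ B * N + B * N := Nat.add_le_add (hy i) (hvB2 i)
        _ ≤ X := hBX2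
        _ = (2 * B + 1) * N := by rw [hX, hC0]
  have hA2B : ∀ i, A2 i ≤ (2 * B + 1) * N := by
    intro i
    rw [hA2]
    exact ((Nat.sub_le _ _).trans (hvB i)).trans hBB
  have hA3B : ∀ i, A3 i ≤ (2 * B + 1) * N := by
    intro i
    rw [hA3]
    exact (((Nat.sub_le _ _).trans (Nat.sub_le _ _)).trans (hvB i)).trans hBB
  obtain ⟨err1, herr1⟩ : ∃ e, e = 3 * (L ^ T / L ^ (T + U + 25) * (X * ((Lx + bR R) * (2 * Lx) ^ 16))) := ⟨_, rfl⟩
  obtain ⟨err2, herr2⟩ : ∃ e, e = Q * (2 * (bR R * R) + Lx + 6 * Lx ^ 3) := ⟨_, rfl⟩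
  have hone : ∀ i ∈ univ.filter (fun i => v i ≠ 0), |WZ lam (fun _ => y i) Q (v i)| ≤
      (|S1 G R (A1 i) (v i)| + (|S2 G R (A2 i) (v i)| + |S2 G R (A3 i) (v i)|)) + (err1 + L ^ T * (err2 + X * (2 * Lx * (3 * Lx * HR R Q (v i).natAbs)))) := by
    intro i hi
    rw [mem_filter] at hi
    have hyX : y i ≤ X := (hy i).trans hBX
    rcases lt_trichotomy (v i) 0 with hneg | h00 | hpos
    · obtain ⟨a, ha⟩ : ∃ a, a = (v i).natAbs := ⟨_, rfl⟩
      have hav : v i = -((a : ℕ) : ℤ) := by rw [ha]; omega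
      have haX : y i + a ≤ X := by
        rw [ha]
        exact (Nat.add_le_add (hy i) (hvB2 i)).trans hBX2
      have d1 := det_neg lam Q (y i) a R X (L ^ T) Lx hyX hQX hlam hLx.symm (by linarith)
      have d2 := three_neg lam Q a (y i) R X (L ^ (T + U + 25)) (L ^ T) Lx (bR R) hτ hlam haX hLx.symm le_rfl (by linarith)
      have hA1i : A1 i = y i + a := by
        rw [hA1]
        simp only
        rw [if_neg (by omega), ha]
      rw [hA1i, herr1, herr2, hav, WZ_neg, Int.natAbs_neg, Int.natAbs_natCast, hG]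
      have t1 := abs_nonneg (S2 (DT lam Q (L ^ (T + U + 25))) R (A2 i) (-((a : ℕ) : ℤ)))
      have t2 := abs_nonneg (S2 (DT lam Q (L ^ (T + U + 25))) R (A3 i) (-((a : ℕ) : ℤ)))
      linarith
    · exact absurd h00 hi.2
    · obtain ⟨a, ha⟩ : ∃ a, a = (v i).toNat := ⟨_, rfl⟩
      have hav : v i = ((a : ℕ) : ℤ) := by rw [ha]; exact (Int.toNat_of_nonneg hpos.le).symm
      have ha1 : 1 ≤ a := by omega
      have haX : a ≤ X := by rw [ha]; exact (hvB i).trans hBX
      have d1 := det1 lam Q (y i) a R X (L ^ T) Lx ha1 haX hyX hQX hlam hLx.symm (by linarith)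
      have d2 := three lam Q a (y i) R X (L ^ (T + U + 25)) (L ^ T) Lx (bR R) hτ hlam ha1 haX hyX hLx.symm le_rfl (by linarith)
      have hA1i : A1 i = y i - a := by
        rw [hA1]
        simp only
        rw [if_pos hpos, ha]
      have hA2i : A2 i = a - 1 := by rw [hA2, ha]
      have hA3i : A3 i = a - 1 - y i := by rw [hA3, ha]
      rw [hA1i, hA2i, hA3i, herr1, herr2, hav, WZ_pos, Int.natAbs_natCast, hG]
      unfold WW
      linarith
  refine (sum_le_sum hone).trans ?_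
  have hexp : ∑ i ∈ univ.filter (fun i => v i ≠ 0), (err1 + L ^ T * (err2 + X * (2 * Lx * (3 * Lx * HR R Q (v i).natAbs)))) =
      ((univ.filter (fun i => v i ≠ 0)).card : ℝ) * err1 + L ^ T * (((univ.filter (fun i => v i ≠ 0)).card : ℝ) * err2 +
        X * (2 * Lx * (3 * Lx * ∑ i ∈ univ.filter (fun i => v i ≠ 0), HR R Q (v i).natAbs))) := by
    rw [sum_add_distrib, sum_const, nsmul_eq_mul, ← mul_sum, sum_add_distrib, sum_const, nsmul_eq_mul, ← mul_sum, ← mul_sum, ← mul_sum]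
  rw [sum_add_distrib, hexp]
  have hcard : ((univ.filter (fun i => v i ≠ 0)).card : ℝ) ≤ Fintype.card ι := by exact_mod_cast card_le_univ _
  have hLx0 : 0 < Lx := by linarith
  have hbR0 : 0 ≤ bR R := by linarith
  have herr1' : 0 ≤ err1 := by rw [herr1]; positivity
  have herr2' : 0 ≤ err2 := by rw [herr2]; positivity
  have hsub : ∀ F : ι → ℝ, (∀ i, 0 ≤ F i) → ∑ i ∈ univ.filter (fun i => v i ≠ 0), F i ≤ ∑ i, F i := by
    intro F hF
    exact sum_le_sum_of_subset_of_nonneg (filter_subset _ _) (fun i _ _ => hF i)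
  have k0 := hsub (fun i => |S1 G R (A1 i) (v i)| + (|S2 G R (A2 i) (v i)| + |S2 G R (A3 i) (v i)|)) (fun i => by positivity)
  rw [sum_add_distrib (s := univ), sum_add_distrib (s := univ)] at k0
  have k1 := (key A1 hA1B).1
  have k2 := (key A2 hA2B).2
  have k3 := (key A3 hA3B).2
  obtain ⟨H, hH⟩ : ∃ H, H = ∑ i ∈ univ.filter (fun i => v i ≠ 0), HR R Q (v i).natAbs := ⟨_, rfl⟩
  have hH0 : 0 ≤ H := by rw [hH]; exact sum_nonneg fun _ _ => HR_nonneg _ _ _
  rw [← hH] at hHR ⊢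
  have k4 := fin_num L Lx N X Q (bR R) R (Fintype.card ι) H C0 T U E1 K hL1 (by linarith) hLx2 hN0 (by rw [hX]; push_cast; rfl)
    (by linarith) (Nat.cast_nonneg _) hH0 hbR (by linarith) (Nat.cast_nonneg _) hR2 hQ (by omega) hHR hbig
  rw [← herr1, ← herr2] at k4
  have k5 : ((univ.filter (fun i => v i ≠ 0)).card : ℝ) * err1 ≤ Fintype.card ι * err1 := mul_le_mul_of_nonneg_right hcard herr1'
  have k6 : L ^ T * (((univ.filter (fun i => v i ≠ 0)).card : ℝ) * err2 + X * (2 * Lx * (3 * Lx * H))) ≤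
      L ^ T * (Fintype.card ι * err2 + X * (2 * Lx * (3 * Lx * H))) := by
    apply mul_le_mul_of_nonneg_left _ (by positivity)
    exact add_le_add (mul_le_mul_of_nonneg_right hcard herr2') le_rfl
  have k7 : 6 * ((N : ℝ) * Fintype.card ι / L ^ (U + 1)) ≤ N * Fintype.card ι / L ^ U := by
    have e : 6 * ((N : ℝ) * Fintype.card ι / L ^ (U + 1)) = (6 / L) * (N * Fintype.card ι / L ^ U) := by
      rw [pow_succ]; field_simp
    rw [e]
    apply mul_le_of_le_one_left (by positivity)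
    rw [div_le_one hL0]
    linarith
  linarith

end Pool.Agent.U856.EH
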