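import Pool.Agent.U856.EH.M8

set_option autoImplicit false

/-! Weighted discrepancies along a thin family, up to the original level: all numbers of moduli, all lengths. -/

namespace Pool.Agent.U856.EH
open Finset
open Pool.Agent.W93.LV
open Pool.Agent.TH212.EH (En large W WW WW_split WW_net netQ tail_le net_sum Fu_diff sum_filter_le)

lemma level_anti (K K' N : ℕ) (h : K ≤ K') (hN : 1 ≤ Real.log N) : level K' N ≤ level K N := by
  unfold level
  apply div_le_div_of_nonneg_left (Nat.cast_nonneg _) (by positivity)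
  exact pow_le_pow_right₀ hN h

lemma level_leN (K N : ℕ) (hN : 1 ≤ Real.log N) : level K N ≤ N := by
  unfold level
  exact div_le_self (Nat.cast_nonneg _) (one_le_pow₀ hN)

/-- comparison of the lengths -/
lemma WW_gen (lam : ℕ → ℝ) (y y' : ℕ → ℕ) (Q a X D : ℕ) (Bm Lx : ℝ) (hQX : Q ≤ X) (hy : ∀ q, y q ≤ X)
    (hg : ∀ q, y' q ≤ y q) (hgD : ∀ q, y q - y' q ≤ D)
    (hlam : ∀ q, |lam q| ≤ Bm) (hLx : Real.log X = Lx) (hLx1 : 1 ≤ Lx) :
    |WW lam y Q a - WW lam y' Q a| ≤ Bm * (Lx * (D * (1 + Lx) + Q) + D * (1 + Lx) ^ 2) := by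
  have hBm : 0 ≤ Bm := (abs_nonneg _).trans (hlam 0)
  unfold WW
  rw [← sum_sub_distrib]
  refine (abs_sum_le_sum_abs _ _).trans ?_
  have h1 : ∑ q ∈ (Icc 1 Q).filter (fun q => a.Coprime q),
      |lam q * (Fu (fun n => ArithmeticFunction.vonMangoldt n) (y q) q a - (y q : ℝ) / Nat.totient q) -
        lam q * (Fu (fun n => ArithmeticFunction.vonMangoldt n) (y' q) q a - (y' q : ℝ) / Nat.totient q)| ≤
      ∑ q ∈ Icc 1 Q, Bm * (Lx * (D * (1 / (q : ℝ)) + 1) + D * (1 / (Nat.totient q : ℝ))) := by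
    apply sum_filter_le
    · intro q hq
      rw [← mul_sub, abs_mul]
      have e1 := Fu_diff (y' q) (y q) q a (hg _) X (hy q)
      rw [hLx] at e1
      have hD : ((y q - y' q : ℕ) : ℝ) ≤ D := by exact_mod_cast hgD q
      have e2 : |Fu (fun n => ArithmeticFunction.vonMangoldt n) (y q) q a -
          Fu (fun n => ArithmeticFunction.vonMangoldt n) (y' q) q a| ≤ Lx * (D * (1 / (q : ℝ)) + 1) := by
        refine e1.trans ?_
        rw [mul_comm]
        apply mul_le_mul_of_nonneg_left _ (by linarith)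
        apply add_le_add _ le_rfl
        rw [mul_one_div]
        exact div_le_div_of_nonneg_right hD (Nat.cast_nonneg _)
      have e3 : |(y q : ℝ) / Nat.totient q - (y' q : ℝ) / Nat.totient q| ≤ D * (1 / (Nat.totient q : ℝ)) := by
        rw [← sub_div, ← Nat.cast_sub (hg _), abs_of_nonneg (by positivity), mul_one_div]
        exact div_le_div_of_nonneg_right hD (Nat.cast_nonneg _)
      apply mul_le_mul (hlam q) _ (abs_nonneg _) hBm
      have e4 : Fu (fun n => ArithmeticFunction.vonMangoldt n) (y q) q a - (y q : ℝ) / Nat.totient q -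
          (Fu (fun n => ArithmeticFunction.vonMangoldt n) (y' q) q a - (y' q : ℝ) / Nat.totient q) =
          (Fu (fun n => ArithmeticFunction.vonMangoldt n) (y q) q a -
          Fu (fun n => ArithmeticFunction.vonMangoldt n) (y' q) q a) -
          ((y q : ℝ) / Nat.totient q - (y' q : ℝ) / Nat.totient q) := by ring
      rw [e4]
      exact (abs_sub _ _).trans (add_le_add e2 e3)
    · intro q _
      positivity
  refine h1.trans ?_
  rw [← mul_sum]
  apply mul_le_mul_of_nonneg_left _ hBm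
  rw [sum_add_distrib, ← mul_sum, ← mul_sum, sum_add_distrib, ← mul_sum, sum_const, Nat.card_Icc, Nat.add_sub_cancel, nsmul_eq_mul, mul_one]
  have h3 := harm_le Q X hQX
  have h4 := inv_phi_sum Q X hQX
  rw [hLx] at h3 h4
  apply add_le_add
  · apply mul_le_mul_of_nonneg_left _ (by linarith)
    exact add_le_add (mul_le_mul_of_nonneg_left h3 (Nat.cast_nonneg _)) le_rfl
  · exact mul_le_mul_of_nonneg_left h4 (Nat.cast_nonneg _)

/-- cells -/
lemma cells (B k N : ℕ) (L : ℝ) (hL1 : 1 ≤ L) (hLB : (B : ℝ) + 1 ≤ L) (hN : 0 < N) :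
    ∃ (D : ℕ) (g : ℕ → ℕ) (R : Finset ℕ), (D : ℝ) ≤ N / L ^ k ∧ (R.card : ℝ) ≤ L ^ (k + 1) ∧ (∀ A, g A ≤ A) ∧
      (∀ A ≤ B * N, g A ∈ R) ∧ (∀ A, A - g A ≤ D) ∧ (∀ r ∈ R, r ≤ B * N) := by
  have hL0 : 0 < L := by linarith
  have hB0 : (0 : ℝ) ≤ B := Nat.cast_nonneg _
  have hN0 : (0 : ℝ) < N := by exact_mod_cast hN
  obtain ⟨D, hD⟩ : ∃ D : ℕ, D = ⌊(N : ℝ) / L ^ k⌋₊ := ⟨_, rfl⟩
  have hD1 : (D : ℝ) ≤ N / L ^ k := by rw [hD]; exact Nat.floor_le (by positivity)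
  have hD2 : (N : ℝ) / L ^ k < D + 1 := by rw [hD]; exact Nat.lt_floor_add_one _
  obtain ⟨J, hJ⟩ : ∃ J : ℕ, J = B * N / (D + 1) := ⟨_, rfl⟩
  have hJ1 : (J : ℝ) ≤ B * L ^ k := by
    have q1 : (J : ℝ) ≤ ((B * N : ℕ) : ℝ) / ((D + 1 : ℕ) : ℝ) := by rw [hJ]; exact Nat.cast_div_le
    refine q1.trans ?_
    push_cast
    rw [div_le_iff₀ (by positivity)]
    rw [div_lt_iff₀ (by positivity)] at hD2
    nlinarith
  have hgle : ∀ A, (D + 1) * (A / (D + 1)) ≤ A := fun A => Nat.mul_div_le _ _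
  refine ⟨D, fun A => (D + 1) * (A / (D + 1)), ((range (J + 1)).image (fun j => (D + 1) * j)).filter (fun r => r ≤ B * N),
    hD1, ?_, hgle, ?_, ?_, ?_⟩
  · have q1 : (((range (J + 1)).image (fun j => (D + 1) * j)).filter (fun r => r ≤ B * N)).card ≤ J + 1 := by
      refine (card_filter_le _ _).trans ?_
      refine card_image_le.trans ?_
      rw [card_range]
    have q2 : (1 : ℝ) ≤ L ^ k := one_le_pow₀ hL1
    calc ((((range (J + 1)).image (fun j => (D + 1) * j)).filter (fun r => r ≤ B * N)).card : ℝ) ≤ J + 1 := by exact_mod_cast q1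
      _ ≤ B * L ^ k + L ^ k := add_le_add hJ1 q2
      _ = (B + 1) * L ^ k := by ring
      _ ≤ L * L ^ k := mul_le_mul_of_nonneg_right (by linarith) (by positivity)
      _ = L ^ (k + 1) := by ring
  · intro A hA
    rw [mem_filter]
    refine ⟨mem_image.2 ⟨A / (D + 1), ?_, rfl⟩, (hgle A).trans hA⟩
    rw [mem_range, hJ]
    exact Nat.lt_succ_of_le (Nat.div_le_div_right hA)
  · intro A
    simp only
    have q1 := Nat.div_add_mod A (D + 1)
    have q2 := Nat.mod_lt A (by omega : D + 1 > 0)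
    omega
  · intro r hr
    exact (mem_filter.1 hr).2

/-- the error of the passage to cells -/
lemma cell_err (L Lx N D Q : ℝ) (T U : ℕ) (hL : 1 ≤ L) (hLx1 : 0 ≤ Lx) (hLx : Lx ≤ 2 * L)
    (hD0 : 0 ≤ D) (hD : D ≤ N / L ^ (T + U + 5)) (hQ : Q ≤ N / L ^ (T + U + 5)) :
    L ^ T * (Lx * (D * (1 + Lx) + Q) + D * (1 + Lx) ^ 2) ≤ 17 * N / L ^ (U + 3) := by
  have hL0 : 0 < L := by linarith
  have e1 : 1 + Lx ≤ 3 * L := by linarith
  have hP : 0 ≤ N / L ^ (T + U + 5) := hD0.trans hD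
  calc L ^ T * (Lx * (D * (1 + Lx) + Q) + D * (1 + Lx) ^ 2)
      ≤ L ^ T * ((2 * L) * (N / L ^ (T + U + 5) * (3 * L) + N / L ^ (T + U + 5)) + N / L ^ (T + U + 5) * (3 * L) ^ 2) := by
        apply mul_le_mul_of_nonneg_left _ (by positivity)
        apply add_le_add
        · have h1 : D * (1 + Lx) + Q ≤ N / L ^ (T + U + 5) * (3 * L) + N / L ^ (T + U + 5) :=
            add_le_add (mul_le_mul hD e1 (by linarith) hP) hQ
          calc Lx * (D * (1 + Lx) + Q) ≤ Lx * (N / L ^ (T + U + 5) * (3 * L) + N / L ^ (T + U + 5)) := mul_le_mul_of_nonneg_left h1 hLx1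
            _ ≤ _ := mul_le_mul_of_nonneg_right hLx (by positivity)
        · exact mul_le_mul hD (pow_le_pow_left₀ (by linarith) e1 2) (by positivity) hP
    _ ≤ L ^ T * (17 * L ^ 2 * (N / L ^ (T + U + 5))) := by
        apply mul_le_mul_of_nonneg_left _ (by positivity)
        nlinarith [mul_nonneg hP (by nlinarith : (0 : ℝ) ≤ 2 * L ^ 2 - 2 * L)]
    _ = _ := by
        rw [show T + U + 5 = T + 2 + (U + 3) by ring, pow_add, pow_add]
        field_simp

/-- from cells to all lengths -/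
lemma cell_fin (L n N U' : ℝ) (U k : ℕ) (hL : 20 ≤ L) (hn : 0 ≤ n) (hN : 0 ≤ N) (hU' : U' ≤ N * n / L ^ (U + k + 2)) :
    L ^ (k + 1) * U' + n * (17 * N / L ^ (U + 3)) ≤ N * n / L ^ U := by
  have hL0 : 0 < L := by linarith
  have k1 : L ^ (k + 1) * U' ≤ L ^ (k + 1) * (N * n / L ^ (U + k + 2)) := mul_le_mul_of_nonneg_left hU' (by positivity)
  have e1 : L ^ (k + 1) * (N * n / L ^ (U + k + 2)) = N * n / L ^ U * (1 / L) := by
    rw [show U + k + 2 = U + (k + 1) + 1 by ring, pow_succ L (U + (k + 1)), pow_add L U]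
    field_simp
  have e2 : n * (17 * N / L ^ (U + 3)) = N * n / L ^ U * (17 / L ^ 3) := by
    rw [pow_add]
    field_simp
  rw [e1] at k1
  rw [e2]
  have q6 : 1 / L + 17 / L ^ 3 ≤ 1 := by
    have e3 : 1 / L + 17 / L ^ 3 = (L ^ 2 + 17) / L ^ 3 := by field_simp
    rw [e3, div_le_one (by positivity)]
    nlinarith [mul_pos hL0 hL0, mul_nonneg hL0.le (mul_pos hL0 hL0).le]
  have q7 : 0 ≤ N * n / L ^ U := by positivity
  calc _ ≤ N * n / L ^ U * (1 / L) + N * n / L ^ U * (17 / L ^ 3) := add_le_add k1 le_rfl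
    _ = N * n / L ^ U * (1 / L + 17 / L ^ 3) := by ring
    _ ≤ _ := mul_le_of_le_one_right q7 q6

/-- lengths depending on the modulus, for a fixed `Q` -/
theorem cellQ (p B C T U : ℕ) : ∃ K N0 : ℕ, ∀ N : ℕ, N0 ≤ N → ∀ (ι : Type) [Fintype ι] (v : ι → ℤ),
    (∀ i, |v i| ≤ B * N) → (En p v : ℝ) * N ≤ Real.log N ^ C * (Fintype.card ι : ℝ) ^ (2 * p) →
    ∀ lam : ℕ → ℝ, (∀ q, |lam q| ≤ Real.log N ^ T) → ∀ Q : ℕ, (Q : ℝ) ≤ level K N →
    ∀ y : ℕ → ℕ, (∀ q, y q ≤ B * N) →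
    ∑ i ∈ univ.filter (fun i => v i ≠ 0), |WZ lam y Q (v i)| ≤ N * Fintype.card ι / Real.log N ^ U := by
  classical
  obtain ⟨K1, n0, h0⟩ := fixQ p B C T (U + (T + U + 5) + 2)
  obtain ⟨n2, h2⟩ := large (max (20 + B) (Real.log (B + 1))) (n0 + 3)
  refine ⟨max K1 (T + U + 5), n2, fun N hN ι _ v hv hE lam hlam Q hQ y hy => ?_⟩
  obtain ⟨hN1, hLK, hL1⟩ := h2 N hN
  have hLK1 : 20 + (B : ℝ) ≤ Real.log N := (le_max_left _ _).trans hLK
  have hB0 : (0 : ℝ) ≤ B := Nat.cast_nonneg _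
  have hQ1 : (Q : ℝ) ≤ level K1 N := hQ.trans (level_anti _ _ _ (le_max_left _ _) hL1)
  have hQ2 : (Q : ℝ) ≤ N / Real.log N ^ (T + U + 5) := hQ.trans (level_anti _ _ _ (le_max_right _ _) hL1)
  have hQN : (Q : ℝ) ≤ N := hQ.trans (level_leN _ _ hL1)
  have c0 := fun lam' hlam' => h0 N (by omega) ι v hv hE lam' hlam' Q hQ1
  obtain ⟨L, hL⟩ : ∃ L, L = Real.log (N : ℝ) := ⟨_, rfl⟩
  rw [← hL] at hLK hL1 hlam c0 hE hQ2 hLK1 ⊢
  have hLl : Real.log ((B : ℝ) + 1) ≤ L := (le_max_right _ _).trans hLK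
  have hL0 : 0 < L := by linarith
  have hN0 : (0 : ℝ) < N := by exact_mod_cast (by omega : 0 < N)
  obtain ⟨X, hX⟩ : ∃ X : ℕ, X = (B + 1) * N := ⟨_, rfl⟩
  obtain ⟨Lx, hLx⟩ : ∃ Lx, Lx = Real.log (X : ℝ) := ⟨_, rfl⟩
  have hXN : (X : ℝ) = (B + 1) * N := by rw [hX]; push_cast; ring
  have hNX : N ≤ X := by rw [hX]; exact Nat.le_mul_of_pos_left _ (by omega)
  have hLx2 : Lx ≤ 2 * L := by
    rw [hLx, hXN, Real.log_mul (by positivity) hN0.ne', ← hL]
    linarith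
  have hLx1 : L ≤ Lx := by
    rw [hL, hLx]
    exact Real.log_le_log hN0 (by exact_mod_cast hNX)
  have hQX : Q ≤ X := by
    have : Q ≤ N := by exact_mod_cast hQN
    omega
  have hBX : B * N ≤ X := by rw [hX]; exact Nat.mul_le_mul_right _ (by omega)
  obtain ⟨D, g, R, hD1, hRc, hgle, hgR, hgD, hRB⟩ := cells B (T + U + 5) N L hL1 (by linarith) (by omega)
  -- each member
  obtain ⟨err, herr⟩ : ∃ err, err = L ^ T * (Lx * (D * (1 + Lx) + Q) + D * (1 + Lx) ^ 2) := ⟨_, rfl⟩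
  have hone : ∀ b : ℤ, |WZ lam y Q b| ≤ ∑ r ∈ R, |WZ (fun q => if g (y q) = r then lam q else 0) (fun _ => r) Q b| + err := by
    intro b
    have e0 := WZ_rep lam y Q Q b le_rfl
    have q1 := WW_gen lam y (fun q => g (y q)) Q (rep Q b) X D (L ^ T) Lx hQX (fun q => (hy q).trans hBX) (fun q => hgle _) (fun q => hgD _)
      hlam hLx.symm (by linarith)
    rw [WW_split lam (fun q => g (y q)) Q (rep Q b) R (fun q => hgR _ (hy q))] at q1
    have q2 := abs_sum_le_sum_abs (fun r => W (fun q => if g (y q) = r then lam q else 0) Q r (rep Q b)) R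
    have q3 : ∀ r ∈ R, |WZ (fun q => if g (y q) = r then lam q else 0) (fun _ => r) Q b| =
        |W (fun q => if g (y q) = r then lam q else 0) Q r (rep Q b)| := by
      intro r _
      rw [WZ_rep _ _ Q Q b le_rfl]
      rfl
    rw [sum_congr rfl q3, e0, herr]
    have q4 := abs_sub_abs_le_abs_sub (WW lam y Q (rep Q b)) (∑ r ∈ R, W (fun q => if g (y q) = r then lam q else 0) Q r (rep Q b))
    linarith
  have herr2 : err ≤ 17 * N / L ^ (U + 3) := by
    rw [herr]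
    exact cell_err L Lx N D Q T U hL1 (by linarith) hLx2 (Nat.cast_nonneg _) hD1 hQ2
  have hbound : ∀ r ∈ R, ∑ i ∈ univ.filter (fun i => v i ≠ 0),
      |WZ (fun q => if g (y q) = r then lam q else 0) (fun _ => r) Q (v i)| ≤ N * Fintype.card ι / L ^ (U + (T + U + 5) + 2) := by
    intro r hr
    exact c0 (fun q => if g (y q) = r then lam q else 0) (by
      intro q
      split_ifs
      · exact hlam q
      · rw [abs_zero]; positivity) (fun _ => r) (fun _ => hRB r hr)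
  refine (sum_le_sum fun i _ => hone _).trans ?_
  rw [sum_add_distrib, sum_comm, sum_const, nsmul_eq_mul]
  have k1 : ∑ r ∈ R, ∑ i ∈ univ.filter (fun i => v i ≠ 0),
      |WZ (fun q => if g (y q) = r then lam q else 0) (fun _ => r) Q (v i)| ≤ L ^ (T + U + 5 + 1) * (N * Fintype.card ι / L ^ (U + (T + U + 5) + 2)) := by
    refine (sum_le_sum hbound).trans ?_
    rw [sum_const, nsmul_eq_mul]
    exact mul_le_mul_of_nonneg_right hRc (by positivity)
  have k2 : ((univ.filter (fun i => v i ≠ 0)).card : ℝ) * err ≤ Fintype.card ι * (17 * N / L ^ (U + 3)) := by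
    apply mul_le_mul _ herr2 _ (Nat.cast_nonneg _)
    · exact_mod_cast card_le_univ _
    · rw [herr]
      have : 0 ≤ Lx := by linarith
      positivity
  have k3 := cell_fin L (Fintype.card ι) N _ U (T + U + 5) (by linarith) (Nat.cast_nonneg _) hN0.le le_rfl
  linarith

lemma hfil {ι : Type} [Fintype ι] (v : ι → ℤ) (F : ι → ℝ) :
    ∑ i, |(if v i ≠ 0 then F i else 0)| = ∑ i ∈ univ.filter (fun i => v i ≠ 0), |F i| := by
  rw [sum_filter]
  apply sum_congr rfl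
  intro i _
  split_ifs
  · rfl
  · exact abs_zero

/-- all lengths -/
theorem minQ (p B C T U : ℕ) : ∃ K N0 : ℕ, ∀ N : ℕ, N0 ≤ N → ∀ (ι : Type) [Fintype ι] (v : ι → ℤ),
    (∀ i, |v i| ≤ B * N) → (En p v : ℝ) * N ≤ Real.log N ^ C * (Fintype.card ι : ℝ) ^ (2 * p) →
    ∀ lam : ℕ → ℝ, (∀ q, |lam q| ≤ Real.log N ^ T) → ∀ Q : ℕ, (Q : ℝ) ≤ level K N →
    ∀ y : ℕ → ℕ, (∀ q, y q ≤ B * N) → ∀ A : ι → ℕ, (∀ i, A i ≤ B * N) →
    ∑ i ∈ univ.filter (fun i => v i ≠ 0), |WZ lam (fun q => min (A i) (y q)) Q (v i)| ≤ N * Fintype.card ι / Real.log N ^ U := by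
  classical
  obtain ⟨K1, n0, h0⟩ := cellQ p B C T (U + (T + U + 5) + 2)
  obtain ⟨n2, h2⟩ := large (max (20 + B) (Real.log (B + 1))) (n0 + 3)
  refine ⟨max K1 (T + U + 5), n2, fun N hN ι _ v hv hE lam hlam Q hQ y hy A hA => ?_⟩
  obtain ⟨hN1, hLK, hL1⟩ := h2 N hN
  have hLK1 : 20 + (B : ℝ) ≤ Real.log N := (le_max_left _ _).trans hLK
  have hB0 : (0 : ℝ) ≤ B := Nat.cast_nonneg _
  have hQ1 : (Q : ℝ) ≤ level K1 N := hQ.trans (level_anti _ _ _ (le_max_left _ _) hL1)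
  have hQ2 : (Q : ℝ) ≤ N / Real.log N ^ (T + U + 5) := hQ.trans (level_anti _ _ _ (le_max_right _ _) hL1)
  have hQN : (Q : ℝ) ≤ N := hQ.trans (level_leN _ _ hL1)
  have c0 := h0 N (by omega) ι v hv hE lam hlam Q hQ1
  obtain ⟨L, hL⟩ : ∃ L, L = Real.log (N : ℝ) := ⟨_, rfl⟩
  rw [← hL] at hLK hL1 hlam c0 hE hQ2 hLK1 ⊢
  have hLl : Real.log ((B : ℝ) + 1) ≤ L := (le_max_right _ _).trans hLK
  have hL0 : 0 < L := by linarith
  have hN0 : (0 : ℝ) < N := by exact_mod_cast (by omega : 0 < N)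
  obtain ⟨X, hX⟩ : ∃ X : ℕ, X = (B + 1) * N := ⟨_, rfl⟩
  obtain ⟨Lx, hLx⟩ : ∃ Lx, Lx = Real.log (X : ℝ) := ⟨_, rfl⟩
  have hXN : (X : ℝ) = (B + 1) * N := by rw [hX]; push_cast; ring
  have hNX : N ≤ X := by rw [hX]; exact Nat.le_mul_of_pos_left _ (by omega)
  have hLx2 : Lx ≤ 2 * L := by
    rw [hLx, hXN, Real.log_mul (by positivity) hN0.ne', ← hL]
    linarith
  have hLx1 : L ≤ Lx := by
    rw [hL, hLx]
    exact Real.log_le_log hN0 (by exact_mod_cast hNX)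
  have hQX : Q ≤ X := by
    have : Q ≤ N := by exact_mod_cast hQN
    omega
  have hBX : B * N ≤ X := by rw [hX]; exact Nat.mul_le_mul_right _ (by omega)
  obtain ⟨D, g, R, hD1, hRc, hgle, hgR, hgD, hRB⟩ := cells B (T + U + 5) N L hL1 (by linarith) (by omega)
  have herr2 : L ^ T * (Lx * (D * (1 + Lx) + Q) + D * (1 + Lx) ^ 2) ≤ 17 * N / L ^ (U + 3) :=
    cell_err L Lx N D Q T U hL1 (by linarith) hLx2 (Nat.cast_nonneg _) hD1 hQ2
  have key := net_sum (fun A i => if v i ≠ 0 then WZ lam (fun q => min A (y q)) Q (v i) else 0) (B * N) g R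
    (N * Fintype.card ι / L ^ (U + (T + U + 5) + 2)) (17 * N / L ^ (U + 3)) (fun A hA => ⟨hgle A, hgR A hA⟩) (by
      intro A hA
      rw [hfil]
      exact c0 (fun q => min A (y q)) (fun q => (min_le_right _ _).trans (hy q))) (by
      intro i A hA
      split_ifs with hi
      · have e1 := WW_gen lam (fun q => min A (y q)) (fun q => min (g A) (y q)) Q (rep Q (v i)) X D (L ^ T) Lx hQX
          (fun q => (min_le_right _ _).trans ((hy q).trans hBX)) (fun q => min_le_min_right _ (hgle A)) (fun q => by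
            have h5 := hgD A
            have h6 := hgle A
            omega) hlam hLx.symm (by linarith)
        rw [WZ_rep _ _ Q Q (v i) le_rfl, WZ_rep _ _ Q Q (v i) le_rfl]
        have q4 := abs_sub_abs_le_abs_sub (WW lam (fun q => min A (y q)) Q (rep Q (v i))) (WW lam (fun q => min (g A) (y q)) Q (rep Q (v i)))
        linarith
      · rw [abs_zero]
        positivity) A hA
  rw [hfil] at key
  refine key.trans ?_
  have k1 : (R.card : ℝ) * (N * Fintype.card ι / L ^ (U + (T + U + 5) + 2)) ≤ L ^ (T + U + 5 + 1) * (N * Fintype.card ι / L ^ (U + (T + U + 5) + 2)) :=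
    mul_le_mul_of_nonneg_right hRc (by positivity)
  have k3 := cell_fin L (Fintype.card ι) N _ U (T + U + 5) (by linarith) (Nat.cast_nonneg _) hN0.le le_rfl
  linarith

/-- all numbers of moduli -/
theorem allQ (p B C T U : ℕ) : ∃ K N0 : ℕ, ∀ N : ℕ, N0 ≤ N → ∀ (ι : Type) [Fintype ι] (v : ι → ℤ),
    (∀ i, |v i| ≤ B * N) → (En p v : ℝ) * N ≤ Real.log N ^ C * (Fintype.card ι : ℝ) ^ (2 * p) →
    ∀ lam : ℕ → ℝ, (∀ q, |lam q| ≤ Real.log N ^ T) → ∀ y : ℕ → ℕ, (∀ q, y q ≤ B * N) →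
    ∀ Q : ι → ℕ, (∀ i, (Q i : ℝ) ≤ level K N) → ∀ A : ι → ℕ, (∀ i, A i ≤ B * N) →
    ∑ i ∈ univ.filter (fun i => v i ≠ 0), |WZ lam (fun q => min (A i) (y q)) (Q i) (v i)| ≤ N * Fintype.card ι / Real.log N ^ U := by
  classical
  obtain ⟨U', n1, hnet⟩ := netQ B T U
  obtain ⟨K1, n2, h1⟩ := minQ p B C T U'
  obtain ⟨n4, h4⟩ := large 3 (n1 + n2 + 3)
  refine ⟨K1, n4, fun N hN ι _ v hv hE lam hlam y hy Q hQ A hA => ?_⟩
  obtain ⟨hN1, hL3, hL1⟩ := h4 N hN
  have c1 := h1 N (by omega) ι v hv hE lam hlam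
  have c3 := hnet N (by omega) ι
  have hN0 : (0 : ℝ) < N := by exact_mod_cast (by omega : 0 < N)
  obtain ⟨M, hM⟩ : ∃ M : ℕ, M = ⌊level K1 N⌋₊ := ⟨_, rfl⟩
  have hlev0 : 0 ≤ level K1 N := level_nonneg _ _
  have hM1 : ∀ A : ℕ, A ≤ M → (A : ℝ) ≤ level K1 N := by
    intro A hA
    rw [hM] at hA
    exact (Nat.le_floor_iff hlev0).1 hA
  have hMQ : ∀ i, Q i ≤ M := fun i => by rw [hM]; exact Nat.le_floor (hQ i)
  have hMN : M ≤ N := by
    have : (M : ℝ) ≤ N := (hM1 M le_rfl).trans (level_leN _ _ hL1)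
    exact_mod_cast this
  have hMX : M ≤ (B + 1) * N := hMN.trans (Nat.le_mul_of_pos_left _ (by omega))
  have hBX : B * N ≤ (B + 1) * N := Nat.mul_le_mul_right _ (by omega)
  have hlogX : 1 ≤ Real.log (((B + 1) * N : ℕ) : ℝ) := by
    refine hL1.trans ?_
    apply Real.log_le_log hN0
    exact_mod_cast (Nat.le_mul_of_pos_left _ (by omega) : N ≤ (B + 1) * N)
  have := c3 (fun Q' i => if v i ≠ 0 then WZ lam (fun q => min (A i) (y q)) Q' (v i) else 0) M hMX (by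
    intro Q' hQ'
    rw [hfil]
    exact c1 Q' (hM1 Q' hQ') y hy A hA) (by
    intro i Q' hQ' Q'' hQ''
    split_ifs
    · rw [WZ_rep _ _ Q' Q' (v i) le_rfl, WZ_rep _ _ Q'' Q' (v i) hQ'']
      exact WW_net lam (fun q => min (A i) (y q)) Q'' Q' (rep Q' (v i)) ((B + 1) * N) (Real.log N ^ T) _ hQ'' (hQ'.trans hMX)
        (fun q => (min_le_right _ _).trans ((hy q).trans hBX)) hlam rfl hlogX
    · rw [sub_zero, abs_zero]
      have : 0 ≤ Real.log (((B + 1) * N : ℕ) : ℝ) := by linarith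
      positivity) Q hMQ
  rw [hfil] at this
  exact this

/-- weights bounded by powers of the logarithm and of the divisor function -/
theorem allW (p B C T U : ℕ) : ∃ K N0 : ℕ, ∀ N : ℕ, N0 ≤ N → ∀ (ι : Type) [Fintype ι] (v : ι → ℤ),
    (∀ i, |v i| ≤ B * N) → (En p v : ℝ) * N ≤ Real.log N ^ C * (Fintype.card ι : ℝ) ^ (2 * p) →
    ∀ lam : ℕ → ℝ, (∀ q, |lam q| ≤ Real.log N ^ T * (q.divisors.card : ℝ) ^ T) → ∀ y : ℕ → ℕ, (∀ q, y q ≤ B * N) →
    ∀ Q : ι → ℕ, (∀ i, (Q i : ℝ) ≤ level K N) → ∀ A : ι → ℕ, (∀ i, A i ≤ B * N) →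
    ∑ i ∈ univ.filter (fun i => v i ≠ 0), |WZ lam (fun q => min (A i) (y q)) (Q i) (v i)| ≤ N * Fintype.card ι / Real.log N ^ U := by
  classical
  obtain ⟨m, hm⟩ : ∃ m, m = 2 ^ (2 * T) := ⟨_, rfl⟩
  obtain ⟨V0, hV0⟩ : ∃ V0, V0 = T + m + U + 3 := ⟨_, rfl⟩
  obtain ⟨K, n1, h1⟩ := allQ p B C (T + V0) (U + 1)
  obtain ⟨n4, h4⟩ := large (max (20 * (B + 1) * 3 ^ m + 2) (Real.log (B + 1))) (n1 + 3)
  refine ⟨K, n4, fun N hN ι _ v hv hE lam hlam y hy Q hQ A hA => ?_⟩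
  obtain ⟨hN1, hLK, hL1⟩ := h4 N hN
  have c1 := h1 N (by omega) ι v hv hE
  have hN0 : (0 : ℝ) < N := by exact_mod_cast (by omega : 0 < N)
  have hQN : ∀ i, (Q i : ℝ) ≤ N := fun i => (hQ i).trans (level_leN _ _ hL1)
  obtain ⟨L, hL⟩ : ∃ L, L = Real.log (N : ℝ) := ⟨_, rfl⟩
  rw [← hL] at hLK hL1 hlam c1 ⊢
  have hB0 : (0 : ℝ) ≤ B := Nat.cast_nonneg _
  have hLl : Real.log ((B : ℝ) + 1) ≤ L := (le_max_right _ _).trans hLK
  have hLb : 20 * ((B : ℝ) + 1) * 3 ^ m + 2 ≤ L := (le_max_left _ _).trans hLK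
  have h3m : (0 : ℝ) ≤ 20 * ((B : ℝ) + 1) * 3 ^ m := by positivity
  have hL2 : 2 ≤ L := by linarith
  have hL0 : 0 < L := by linarith
  obtain ⟨X, hX⟩ : ∃ X : ℕ, X = (B + 1) * N := ⟨_, rfl⟩
  obtain ⟨Lx, hLx⟩ : ∃ Lx, Lx = Real.log (X : ℝ) := ⟨_, rfl⟩
  have hXN : (X : ℝ) = (B + 1) * N := by rw [hX]; push_cast; ring
  have hNX : N ≤ X := by rw [hX]; exact Nat.le_mul_of_pos_left _ (by omega)
  have hLx2 : Lx ≤ 2 * L := by
    rw [hLx, hXN, Real.log_mul (by positivity) hN0.ne', ← hL]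
    linarith
  have hLx1 : L ≤ Lx := by
    rw [hL, hLx]
    exact Real.log_le_log hN0 (by exact_mod_cast hNX)
  have hQX : ∀ i, Q i ≤ X := by
    intro i
    have : Q i ≤ N := by exact_mod_cast hQN i
    omega
  have hBX : B * N ≤ X := by rw [hX]; exact Nat.mul_le_mul_right _ (by omega)
  obtain ⟨lam1, hlam1⟩ : ∃ lam1 : ℕ → ℝ, lam1 = fun q => if (q.divisors.card : ℝ) ^ T ≤ L ^ V0 then lam q else 0 := ⟨_, rfl⟩
  have hlam1b : ∀ q, |lam1 q| ≤ L ^ (T + V0) := by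
    intro q
    rw [hlam1]
    simp only
    split_ifs with h
    · refine (hlam q).trans ?_
      rw [pow_add]
      exact mul_le_mul_of_nonneg_left h (by positivity)
    · rw [abs_zero]; positivity
  obtain ⟨err, herr⟩ : ∃ err, err = 5 * L ^ T * Lx * X / L ^ V0 * (1 + Lx) ^ (2 ^ (2 * T)) := ⟨_, rfl⟩
  have herr2 : err ≤ 1 / 2 * (N / L ^ U) := by
    have e1 : 1 + Lx ≤ 3 * L := by linarith
    have e2 : 0 ≤ Lx := by linarith
    calc err ≤ 5 * L ^ T * (2 * L) * ((B + 1) * N) / L ^ V0 * (3 * L) ^ m := by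
          rw [herr, ← hm, hXN]; gcongr
      _ = 10 * (B + 1) * 3 ^ m * (N / L ^ U) * (1 / L ^ 2) := by
          rw [hV0, mul_pow, show T + m + U + 3 = T + m + U + 2 + 1 by ring, pow_succ L (T + m + U + 2), pow_add L (T + m + U), pow_add, pow_add]
          field_simp
          ring
      _ ≤ 1 / 2 * (N / L ^ U) := by
          have e3 : 10 * ((B : ℝ) + 1) * 3 ^ m * (1 / L ^ 2) ≤ 1 / 2 := by
            rw [mul_one_div, div_le_iff₀ (by positivity)]
            nlinarith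
          have e4 : 0 ≤ (N : ℝ) / L ^ U := by positivity
          calc 10 * (B + 1) * 3 ^ m * (N / L ^ U) * (1 / L ^ 2) = 10 * ((B : ℝ) + 1) * 3 ^ m * (1 / L ^ 2) * (N / L ^ U) := by ring
            _ ≤ _ := mul_le_mul_of_nonneg_right e3 e4
  have hone : ∀ (i : ι) (b : ℤ), |WZ lam (fun q => min (A i) (y q)) (Q i) b| ≤ |WZ lam1 (fun q => min (A i) (y q)) (Q i) b| + err := by
    intro i b
    have := tail_le lam (fun q => min (A i) (y q)) (Q i) (rep (Q i) b) X T (L ^ T) Lx (L ^ V0) (hQX i)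
      (fun q => (min_le_right _ _).trans ((hy q).trans hBX)) (by positivity) (by positivity) hlam hLx.symm (by linarith)
    rw [WZ_rep _ _ (Q i) (Q i) b le_rfl, WZ_rep _ _ (Q i) (Q i) b le_rfl, hlam1, herr]
    exact this
  have c2 := c1 lam1 hlam1b y hy Q hQ A hA
  refine (sum_le_sum fun i _ => hone i (v i)).trans ?_
  rw [sum_add_distrib, sum_const, nsmul_eq_mul]
  have herr0 : 0 ≤ err := by
    rw [herr]
    have : 0 ≤ Lx := by linarith
    positivity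
  have k2 : ((univ.filter (fun i => v i ≠ 0)).card : ℝ) * err ≤ Fintype.card ι * (1 / 2 * (N / L ^ U)) := by
    apply mul_le_mul _ herr2 herr0 (Nat.cast_nonneg _)
    exact_mod_cast card_le_univ _
  have k3 : (N : ℝ) * Fintype.card ι / L ^ (U + 1) ≤ 1 / 2 * (N * Fintype.card ι / L ^ U) := by
    have e : (N : ℝ) * Fintype.card ι / L ^ (U + 1) = 1 / L * (N * Fintype.card ι / L ^ U) := by
      rw [pow_succ]; field_simp
    rw [e]
    apply mul_le_mul_of_nonneg_right _ (by positivity)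
    exact one_div_le_one_div_of_le (by norm_num) hL2
  calc _ ≤ 1 / 2 * (N * Fintype.card ι / L ^ U) + Fintype.card ι * (1 / 2 * (N / L ^ U)) := add_le_add (c2.trans k3) k2
    _ = _ := by ring

end Pool.Agent.U856.EH
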